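import Pool.Agent.W_7d29a1_Z79.TieP

/-!
# STORM Z, the choice line and the Markov line at the level of paths

`choiceP`: for a path `S` outside probability `#B / T`, at every bracket `k ∈ B` which `S` visits with a piece satisfying `C k`:
`Kn ≤ T * KC`. `markovP`: outside probability `#B / T`, at every bracket which `S` visits: `rat S * Kn ≤ T * Kn'`. (helper79)
-/

set_option autoImplicit false

namespace Pool.Agent.W_7d29a1_Z79

open Finset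

noncomputable section

variable {h c : ℝ} {d : ℕ → ℤ} {η : ℤ × ℤ → ℝ} {N : ℕ} {x0 : ℤ} {E : ℤ → Prop} [DecidablePred E]

/-- `rat` only depends on the piece between `g 0` and `g n`. -/
theorem rat_inner {d' : ℕ → ℤ} {η' : ℤ × ℤ → ℝ} {g : ℕ → ℕ} (hg : Monotone g) (n : ℕ) {x1 : ℤ} {S : Finset ℕ}
    (h1 : ps d x0 0 S (g 0) = x1) :
    rat h c d η d' η' g n (g 0) x1 (S ∩ Ico (g 0) (g n)) = rat h c d η d' η' g n 0 x0 S := by
  unfold rat
  have hp : ∀ j ≤ n, ps d x1 (g 0) (S ∩ Ico (g 0) (g n)) (g j) = ps d x0 0 S (g j) := by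
    intro j hj
    rw [ps_split (Nat.zero_le (g 0)) (hg (Nat.zero_le j)), h1]
    refine ps_congr ?_
    rw [inter_assoc, inter_eq_right.2 (Ico_subset_Ico le_rfl (hg hj))]
  refine prod_congr rfl fun j hj => ?_
  rw [mem_range] at hj
  rw [hp j (by omega), hp (j + 1) (by omega)]

/-- **The choice line.** -/
theorem choiceP {κ : Type*} (B : Finset κ) (i1 i2 : κ → ℕ) (x1 x2 : κ → ℤ) (h12 : ∀ k, i1 k ≤ i2 k) (h2N : ∀ k, i2 k ≤ N)
    (C : κ → Finset ℕ → Prop) [∀ k, DecidablePred (C k)] {T : ℝ} (hT : 0 < T) (P : Finset ℕ → Prop) [DecidablePred P]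
    (hP : ∀ S ∈ Om N x0 d E, P S → ∃ k ∈ B, ps d x0 0 S (i1 k) = x1 k ∧ ps d x0 0 S (i2 k) = x2 k ∧
      C k (S ∩ Ico (i1 k) (i2 k)) ∧
      T * KC h c d η (C k) (i1 k) (x1 k) (i2 k) (x2 k) < Kn h c d η (i1 k) (x1 k) (i2 k) (x2 k)) :
    T * ∑ S ∈ Om N x0 d E with P S, wt h c d η 0 x0 N S ≤ B.card * Zt h c d η N x0 E := by
  classical
  have hnn : ∀ S ∈ Om N x0 d E, 0 ≤ wt h c d η 0 x0 N S := fun S _ => (wt_pos _ _ _ _).le
  refine union_bound79 B hnn (fun k S => S ∈ Om N x0 d E ∧ ps d x0 0 S (i1 k) = x1 k ∧ ps d x0 0 S (i2 k) = x2 k ∧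
      C k (S ∩ Ico (i1 k) (i2 k)) ∧
      T * KC h c d η (C k) (i1 k) (x1 k) (i2 k) (x2 k) < Kn h c d η (i1 k) (x1 k) (i2 k) (x2 k)) ?_ hT P ?_
  · intro k _ Q _ hQ
    refine (hb h c d η N x0 E (i1 k) (i2 k) (x1 k) (x2 k) (h12 k) (h2N k)).choice hnn
      (J := (Ico (i1 k) (i2 k)).powerset.filter fun s => ps d (x1 k) (i1 k) s (i2 k) = x2 k ∧ C k s)
      (J' := (Ico (i1 k) (i2 k)).powerset.filter fun s => ps d (x1 k) (i1 k) s (i2 k) = x2 k) ?_ subset_rfl hT Q ?_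
    · intro s hs
      rw [mem_filter] at hs
      exact mem_filter.2 ⟨hs.1, hs.2.1⟩
    · intro S hS hQS
      obtain ⟨hS', a1, a2, a3, a4⟩ := hQ S hS hQS
      have in1 := hb_in (h := h) (c := c) (η := η) (h12 k) (h2N k) hS' a1 a2
      refine ⟨⟨S ∩ Ico (i1 k) (i2 k), ?_, in1⟩, a4⟩
      have := in1.1
      rw [mem_filter]
      exact ⟨(mem_filter.1 this).1, (mem_filter.1 this).2, a3⟩
  · intro S hS hPS
    obtain ⟨k, hk, a1, a2, a3, a4⟩ := hP S hS hPS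
    exact ⟨k, hk, hS, a1, a2, a3, a4⟩

/-- **The Markov line.** -/
theorem markovP {κ : Type*} (B : Finset κ) (d' : ℕ → ℤ) (η' : ℤ × ℤ → ℝ) (x1 x2 : κ → ℤ) (g : κ → ℕ → ℕ) (n : κ → ℕ)
    (hg : ∀ k, Monotone (g k)) (hN : ∀ k, g k (n k) ≤ N) {T : ℝ} (hT : 0 < T) (P : Finset ℕ → Prop) [DecidablePred P]
    (hP : ∀ S ∈ Om N x0 d E, P S → ∃ k ∈ B, ps d x0 0 S (g k 0) = x1 k ∧ ps d x0 0 S (g k (n k)) = x2 k ∧
      T * Kn h c d' η' (g k 0) (x1 k) (g k (n k)) (x2 k) <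
        rat h c d η d' η' (g k) (n k) 0 x0 S * Kn h c d η (g k 0) (x1 k) (g k (n k)) (x2 k)) :
    T * ∑ S ∈ Om N x0 d E with P S, wt h c d η 0 x0 N S ≤ B.card * Zt h c d η N x0 E := by
  classical
  have hnn : ∀ S ∈ Om N x0 d E, 0 ≤ wt h c d η 0 x0 N S := fun S _ => (wt_pos _ _ _ _).le
  have hgn : ∀ k, g k 0 ≤ g k (n k) := fun k => hg k (Nat.zero_le _)
  refine union_bound79 B hnn (fun k S => S ∈ Om N x0 d E ∧ ps d x0 0 S (g k 0) = x1 k ∧ ps d x0 0 S (g k (n k)) = x2 k ∧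
      T * Kn h c d' η' (g k 0) (x1 k) (g k (n k)) (x2 k) <
        rat h c d η d' η' (g k) (n k) 0 x0 S * Kn h c d η (g k 0) (x1 k) (g k (n k)) (x2 k)) ?_ hT P ?_
  · intro k _ Q _ hQ
    refine (hb h c d η N x0 E (g k 0) (g k (n k)) (x1 k) (x2 k) (hgn k) (hN k)).markov hnn subset_rfl
      (X := fun s => rat h c d η d' η' (g k) (n k) (g k 0) (x1 k) s) (fun s _ => rat_nonneg _ _ _ _ _)
      (rat_sum_le (hg k) (n k) (x1 k) (x2 k)) hT Q ?_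
    intro S hS hQS
    obtain ⟨hS', a1, a2, a3⟩ := hQ S hS hQS
    have in1 := hb_in (h := h) (c := c) (η := η) (hgn k) (hN k) hS' a1 a2
    refine ⟨S ∩ Ico (g k 0) (g k (n k)), in1.1, in1, ?_⟩
    show T * Kn h c d' η' (g k 0) (x1 k) (g k (n k)) (x2 k) <
      rat h c d η d' η' (g k) (n k) (g k 0) (x1 k) (S ∩ Ico (g k 0) (g k (n k))) *
        Kn h c d η (g k 0) (x1 k) (g k (n k)) (x2 k)
    rw [rat_inner (hg k) (n k) a1]
    exact a3
  · intro S hS hPS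
    obtain ⟨k, hk, a1, a2, a3⟩ := hP S hS hPS
    exact ⟨k, hk, hS, a1, a2, a3⟩

end

end Pool.Agent.W_7d29a1_Z79
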