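import Pool.Agent.W_7d29a1_Z.Ker
import Pool.Agent.W_7d29a1_Z79.ChoiceP

/-!
# STORM Z: skeleton lemma, choice line, Markov line, (TIE) for the kernels of `W_7d29a1_Z/Ker.lean`

Point to point paths `pcs d 0 x0 N y`, weight `pw`, kernels `Kf`, `Kc`; `rt` = `exp X` along a grid. (helper79)
-/

set_option autoImplicit false

namespace Pool.Agent.W_7d29a1_Z79

open Finset Pool.Agent.W_7d29a1_F

noncomputable section

variable {μ : MeasureTheory.Measure ℝ} {s : ℝ} {d d' : ℕ → ℤ} {η η' : Env}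

theorem ps_eq (d : ℕ → ℤ) (x : ℤ) (i : ℕ) (S : Finset ℕ) (t : ℕ) : ps d x i S t = W_7d29a1_Z.ps d i x S t := rfl

theorem wt_eq {i j : ℕ} (hij : i ≤ j) (d : ℕ → ℤ) (η : Env) (x : ℤ) (S : Finset ℕ) :
    wt s (lam μ s) d η i x j S = W_7d29a1_Z.pw μ s d η i x j S := by
  unfold wt W_7d29a1_Z.pw
  rw [Nat.cast_sub hij]
  rfl

theorem Kn_eq {i j : ℕ} (hij : i ≤ j) (d : ℕ → ℤ) (η : Env) (x z : ℤ) :
    Kn s (lam μ s) d η i x j z = W_7d29a1_Z.Kf μ s d η i x j z := by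
  classical
  unfold Kn W_7d29a1_Z.Kf
  have : (Ico i j).powerset.filter (fun S => ps d x i S j = z) = W_7d29a1_Z.pcs d i x j z := by
    ext S
    rw [mem_filter, mem_powerset, W_7d29a1_Z.mem_pcs]
    rfl
  rw [this]
  exact sum_congr rfl fun S _ => wt_eq hij d η x S

theorem KC_eq {i j : ℕ} (hij : i ≤ j) (d : ℕ → ℤ) (η : Env) (C : Finset ℕ → Prop) [DecidablePred C] (x z : ℤ) :
    KC s (lam μ s) d η C i x j z = W_7d29a1_Z.Kc μ s d C η i x j z := by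
  unfold KC W_7d29a1_Z.Kc
  refine sum_congr ?_ fun S _ => wt_eq hij d η x S
  ext S
  constructor
  · intro hS
    have h1 := mem_filter.1 hS
    refine (@mem_filter _ C (fun a => Classical.propDecidable (C a)) _ _).2 ?_
    exact ⟨W_7d29a1_Z.mem_pcs.2 ⟨mem_powerset.1 h1.1, h1.2.1⟩, h1.2.2⟩
  · intro hS
    have h1 := (@mem_filter _ C (fun a => Classical.propDecidable (C a)) _ _).1 hS
    have h2 := W_7d29a1_Z.mem_pcs.1 h1.1
    exact mem_filter.2 ⟨mem_powerset.2 h2.1, h2.2, h1.2⟩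

/-- `exp X` of the path `S` (jumps `d`, start `(i, x)`) along the grid `g`: product of the kernel ratios `(d', η') / (d, η)`. -/
def rt (μ : MeasureTheory.Measure ℝ) (s : ℝ) (d : ℕ → ℤ) (η : Env) (d' : ℕ → ℤ) (η' : Env) (g : ℕ → ℕ) (n : ℕ) (i : ℕ) (x : ℤ)
    (S : Finset ℕ) : ℝ :=
  ∏ j ∈ range n, W_7d29a1_Z.Kf μ s d' η' (g j) (W_7d29a1_Z.ps d i x S (g j)) (g (j + 1)) (W_7d29a1_Z.ps d i x S (g (j + 1))) /
    W_7d29a1_Z.Kf μ s d η (g j) (W_7d29a1_Z.ps d i x S (g j)) (g (j + 1)) (W_7d29a1_Z.ps d i x S (g (j + 1)))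

theorem rt_eq {g : ℕ → ℕ} (hg : Monotone g) (n i : ℕ) (x : ℤ) (S : Finset ℕ) :
    rat s (lam μ s) d η d' η' g n i x S = rt μ s d η d' η' g n i x S := by
  unfold rat rt
  refine prod_congr rfl fun j _ => ?_
  rw [Kn_eq (hg (Nat.le_succ j)), Kn_eq (hg (Nat.le_succ j))]
  rfl

theorem rt_nonneg (g : ℕ → ℕ) (n i : ℕ) (x : ℤ) (S : Finset ℕ) : 0 ≤ rt μ s d η d' η' g n i x S :=
  prod_nonneg fun _ _ => div_nonneg (W_7d29a1_Z.Kf_nonneg _ _ _ _ _ _) (W_7d29a1_Z.Kf_nonneg _ _ _ _ _ _)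

/-- **Skeleton lemma** for `Kf`. -/
theorem skelK {g : ℕ → ℕ} (hg : Monotone g) (n : ℕ) (x y : ℤ) :
    ∑ S ∈ W_7d29a1_Z.pcs d (g 0) x (g n) y, W_7d29a1_Z.pw μ s d η (g 0) x (g n) S * rt μ s d η d' η' g n (g 0) x S ≤
      W_7d29a1_Z.Kf μ s d' η' (g 0) x (g n) y := by
  classical
  have h0n : g 0 ≤ g n := hg (Nat.zero_le n)
  have key := rat_sum_le (h := s) (c := lam μ s) (d := d) (η := η) (d' := d') (η' := η') hg n x y
  rw [Kn_eq h0n] at key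
  have hset : (Ico (g 0) (g n)).powerset.filter (fun S => ps d x (g 0) S (g n) = y) = W_7d29a1_Z.pcs d (g 0) x (g n) y := by
    ext S
    rw [mem_filter, mem_powerset, W_7d29a1_Z.mem_pcs]
    rfl
  rw [hset] at key
  refine le_trans (le_of_eq ?_) key
  refine sum_congr rfl fun S _ => ?_
  rw [wt_eq h0n, rt_eq hg]

theorem Om_pcs (N : ℕ) (x0 y : ℤ) (d : ℕ → ℤ) : Om N x0 d (fun z => z = y) = W_7d29a1_Z.pcs d 0 x0 N y := by
  ext S
  rw [mem_Om, W_7d29a1_Z.mem_pcs]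
  rfl

open scoped Classical in
/-- **The choice line**, point to point. -/
theorem choiceK {κ : Type*} (B : Finset κ) {N : ℕ} {x0 y : ℤ} (i1 i2 : κ → ℕ) (x1 x2 : κ → ℤ) (h12 : ∀ k, i1 k ≤ i2 k)
    (h2N : ∀ k, i2 k ≤ N) (C : κ → Finset ℕ → Prop) {T : ℝ} (hT : 0 < T) (P : Finset ℕ → Prop)
    (hP : ∀ S ∈ W_7d29a1_Z.pcs d 0 x0 N y, P S → ∃ k ∈ B, W_7d29a1_Z.ps d 0 x0 S (i1 k) = x1 k ∧
      W_7d29a1_Z.ps d 0 x0 S (i2 k) = x2 k ∧ C k (S ∩ Ico (i1 k) (i2 k)) ∧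
      T * W_7d29a1_Z.Kc μ s d (C k) η (i1 k) (x1 k) (i2 k) (x2 k) < W_7d29a1_Z.Kf μ s d η (i1 k) (x1 k) (i2 k) (x2 k)) :
    T * ∑ S ∈ W_7d29a1_Z.pcs d 0 x0 N y with P S, W_7d29a1_Z.pw μ s d η 0 x0 N S ≤
      B.card * W_7d29a1_Z.Kf μ s d η 0 x0 N y := by
  have key := choiceP (h := s) (c := lam μ s) (d := d) (η := η) (N := N) (x0 := x0) (E := fun z => z = y) B i1 i2 x1 x2 h12 h2N C
    hT P (fun S hS hPS => ?_)
  · rw [Om_pcs] at key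
    have e1 : Zt s (lam μ s) d η N x0 (fun z => z = y) = W_7d29a1_Z.Kf μ s d η 0 x0 N y := by
      unfold Zt W_7d29a1_Z.Kf
      rw [Om_pcs]
      exact sum_congr rfl fun S _ => wt_eq (Nat.zero_le N) d η x0 S
    rw [e1] at key
    refine le_trans (le_of_eq ?_) key
    congr 1
    exact sum_congr rfl fun S _ => (wt_eq (Nat.zero_le N) d η x0 S).symm
  · rw [Om_pcs] at hS
    obtain ⟨k, hk, a1, a2, a3, a4⟩ := hP S hS hPS
    refine ⟨k, hk, a1, a2, a3, ?_⟩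
    rw [KC_eq (h12 k), Kn_eq (h12 k)]
    exact a4

open scoped Classical in
/-- **The Markov line**, point to point. -/
theorem markovK {κ : Type*} (B : Finset κ) {N : ℕ} {x0 y : ℤ} (d' : ℕ → ℤ) (η' : Env) (x1 x2 : κ → ℤ) (g : κ → ℕ → ℕ)
    (n : κ → ℕ) (hg : ∀ k, Monotone (g k)) (hN : ∀ k, g k (n k) ≤ N) {T : ℝ} (hT : 0 < T) (P : Finset ℕ → Prop)
    (hP : ∀ S ∈ W_7d29a1_Z.pcs d 0 x0 N y, P S → ∃ k ∈ B, W_7d29a1_Z.ps d 0 x0 S (g k 0) = x1 k ∧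
      W_7d29a1_Z.ps d 0 x0 S (g k (n k)) = x2 k ∧
      T * W_7d29a1_Z.Kf μ s d' η' (g k 0) (x1 k) (g k (n k)) (x2 k) <
        rt μ s d η d' η' (g k) (n k) 0 x0 S * W_7d29a1_Z.Kf μ s d η (g k 0) (x1 k) (g k (n k)) (x2 k)) :
    T * ∑ S ∈ W_7d29a1_Z.pcs d 0 x0 N y with P S, W_7d29a1_Z.pw μ s d η 0 x0 N S ≤
      B.card * W_7d29a1_Z.Kf μ s d η 0 x0 N y := by
  have key := markovP (h := s) (c := lam μ s) (d := d) (η := η) (N := N) (x0 := x0) (E := fun z => z = y) B d' η' x1 x2 g n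
    hg hN hT P (fun S hS hPS => ?_)
  · rw [Om_pcs] at key
    have e1 : Zt s (lam μ s) d η N x0 (fun z => z = y) = W_7d29a1_Z.Kf μ s d η 0 x0 N y := by
      unfold Zt W_7d29a1_Z.Kf
      rw [Om_pcs]
      exact sum_congr rfl fun S _ => wt_eq (Nat.zero_le N) d η x0 S
    rw [e1] at key
    refine le_trans (le_of_eq ?_) key
    congr 1
    exact sum_congr rfl fun S _ => (wt_eq (Nat.zero_le N) d η x0 S).symm
  · rw [Om_pcs] at hS
    obtain ⟨k, hk, a1, a2, a3⟩ := hP S hS hPS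
    refine ⟨k, hk, a1, a2, ?_⟩
    rw [Kn_eq (hg k (Nat.zero_le _)), Kn_eq (hg k (Nat.zero_le _)), rt_eq (hg k)]
    exact a3

end

end Pool.Agent.W_7d29a1_Z79
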