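import Pool.Agent.W_7d29a1_Z79.Depth79

/-!
# STORM Z: the Markov depth at two fixed times, all positions at once

`depth3d` (abstract, pairwise disjoint brackets), `depthF` (paths, fixed times `a`, `b`): bound `3 / T`, no factor for the number of the
positions. (helper79)
-/

set_option autoImplicit false

namespace Pool.Agent.W_7d29a1_Z79

open Finset

noncomputable section

variable {α α' β β' γ γ' : Type*}

open scoped Classical in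
/-- The half bracket on the set of the paths which visit it. -/
def HB.res {Ω : Finset α} {W : α → ℝ} (b : HB Ω W β γ) : HB (Ω.filter fun S => ∃ s, b.In S s) W β γ where
  O := b.O
  I := b.I
  gl := b.gl
  a := b.a
  u := b.u
  a0 := b.a0
  u0 := b.u0
  mem o ho s hs := mem_filter.2 ⟨b.mem o ho s hs, s, hs, o, ho, rfl⟩
  inj := b.inj
  hW := b.hW

theorem HB.res_In {Ω : Finset α} {W : α → ℝ} (b : HB Ω W β γ) (S : α) (s : γ) : b.res.In S s ↔ b.In S s := Iff.rfl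

theorem HB.res_K {Ω : Finset α} {W : α → ℝ} (b : HB Ω W β γ) (J : Finset γ) : b.res.K J = b.K J := rfl

open scoped Classical in
/-- Events of pairwise disjoint brackets. -/
theorem disj_bound {κ : Type*} (B : Finset κ) {Ω : Finset α} {W : α → ℝ} (hW0 : ∀ S ∈ Ω, 0 ≤ W S) {T : ℝ} (hT : 0 < T)
    (G F : κ → α → Prop) (hFG : ∀ k ∈ B, ∀ S ∈ Ω, F k S → G k S) (hG : ∀ k ∈ B, ∀ k' ∈ B, ∀ S ∈ Ω, G k S → G k' S → k = k')
    (hF : ∀ k ∈ B, T * ∑ S ∈ Ω.filter (G k) with F k S, W S ≤ ∑ S ∈ Ω with G k S, W S) (P : α → Prop)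
    (hP : ∀ S ∈ Ω, P S → ∃ k ∈ B, F k S) :
    T * ∑ S ∈ Ω with P S, W S ≤ ∑ S ∈ Ω, W S := by
  have h1 : ∑ S ∈ Ω with P S, W S ≤ ∑ k ∈ B, ∑ S ∈ Ω.filter (G k) with F k S, W S := by
    have hcomm : ∑ k ∈ B, ∑ S ∈ Ω.filter (G k) with F k S, W S = ∑ S ∈ Ω, ∑ k ∈ B, if G k S ∧ F k S then W S else 0 := by
      rw [sum_comm]
      refine sum_congr rfl fun k _ => ?_
      rw [filter_filter, sum_filter]
    rw [hcomm, sum_filter]
    refine sum_le_sum fun S hS => ?_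
    have hn : ∀ k ∈ B, 0 ≤ if G k S ∧ F k S then W S else 0 := fun k _ => by
      split_ifs
      · exact hW0 S hS
      · exact le_rfl
    split_ifs with hPS
    · obtain ⟨k, hk, hFk⟩ := hP S hS hPS
      have h := single_le_sum hn hk
      rw [if_pos ⟨hFG k hk S hS hFk, hFk⟩] at h
      exact h
    · exact sum_nonneg hn
  have h2 : ∑ k ∈ B, ∑ S ∈ Ω with G k S, W S ≤ ∑ S ∈ Ω, W S := by
    have hcomm : ∑ k ∈ B, ∑ S ∈ Ω with G k S, W S = ∑ S ∈ Ω, ∑ k ∈ B, if G k S then W S else 0 := by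
      rw [sum_comm]
      exact sum_congr rfl fun k _ => sum_filter _ _
    rw [hcomm]
    refine sum_le_sum fun S hS => ?_
    by_cases hex : ∃ k ∈ B, G k S
    · obtain ⟨k, hk, hGk⟩ := hex
      rw [sum_eq_single_of_mem k hk, if_pos hGk]
      intro k' hk' hne
      rw [if_neg]
      exact fun h => hne (hG k' hk' k hk S hS h hGk)
    · rw [sum_eq_zero]
      · exact hW0 S hS
      · intro k hk
        rw [if_neg]
        exact fun h => hex ⟨k, hk, h⟩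
  calc T * ∑ S ∈ Ω with P S, W S ≤ T * ∑ k ∈ B, ∑ S ∈ Ω.filter (G k) with F k S, W S := mul_le_mul_of_nonneg_left h1 hT.le
    _ = ∑ k ∈ B, T * ∑ S ∈ Ω.filter (G k) with F k S, W S := mul_sum _ _ _
    _ ≤ ∑ k ∈ B, ∑ S ∈ Ω with G k S, W S := sum_le_sum hF
    _ ≤ _ := h2

open scoped Classical in
theorem depth3d {κ : Type*} (B : Finset κ) {Ω : Finset α} {Ω' : Finset α'} {W : α → ℝ} {W' : α' → ℝ}
    (b : κ → HB Ω W β γ) (b' : κ → HB Ω' W' β' γ')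
    (hd : ∀ k ∈ B, ∀ k' ∈ B, ∀ S ∈ Ω, (∃ s, (b k).In S s) → (∃ s, (b k').In S s) → k = k')
    (hd' : ∀ k ∈ B, ∀ k' ∈ B, ∀ S ∈ Ω', (∃ s, (b' k).In S s) → (∃ s, (b' k').In S s) → k = k')
    (hW0 : ∀ S ∈ Ω, 0 ≤ W S) (hW0' : ∀ S ∈ Ω', 0 ≤ W' S) {T : ℝ} (hT : 0 < T)
    (L R : κ → Finset γ) (L' R' : κ → Finset γ') (hL : ∀ k ∈ B, L k ⊆ (b k).I)
    (hL' : ∀ k ∈ B, L' k ⊆ (b' k).I) (hR' : ∀ k ∈ B, R' k ⊆ (b' k).I)
    (e : κ → γ → ℝ) (v : κ → γ' → ℝ) (e0 : ∀ k ∈ B, ∀ s ∈ L k, 0 ≤ e k s) (v0 : ∀ k ∈ B, ∀ s ∈ R' k, 0 ≤ v k s)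
    (he : ∀ k ∈ B, ∑ s ∈ L k, (b k).u s * e k s ≤ (b' k).K (L' k))
    (hv : ∀ k ∈ B, ∑ s ∈ R' k, (b' k).u s * v k s ≤ (b k).K (R k))
    (P : α × α' → Prop)
    (hP : ∀ q, P q → ∃ k ∈ B, ∃ s ∈ L k, ∃ s' ∈ R' k, (b k).In q.1 s ∧ (b' k).In q.2 s' ∧
      T ^ 3 * (b k).K (R k) < e k s * v k s' * (b k).K (L k)) :
    T * ∑ q ∈ (Ω ×ˢ Ω') with P q, W q.1 * W' q.2 ≤ 3 * ((∑ S ∈ Ω, W S) * ∑ S ∈ Ω', W' S) := by
  set Z := ∑ S ∈ Ω, W S with hZ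
  set Z' := ∑ S ∈ Ω', W' S with hZ'
  have hZ0 : 0 ≤ Z := sum_nonneg hW0
  have hZ0' : 0 ≤ Z' := sum_nonneg hW0'
  have hnn : ∀ q ∈ Ω ×ˢ Ω', 0 ≤ W q.1 * W' q.2 := by
    intro q hq
    rw [mem_product] at hq
    exact mul_nonneg (hW0 _ hq.1) (hW0' _ hq.2)
  obtain ⟨P1, hP1⟩ : ∃ F : κ → α → Prop, ∀ k S, F k S ↔
      ∃ s ∈ L k, (b k).In S s ∧ T * (b' k).K (L' k) < e k s * (b k).K (L k) := ⟨_, fun _ _ => Iff.rfl⟩
  obtain ⟨P2, hP2⟩ : ∃ F : κ → α' → Prop, ∀ k S, F k S ↔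
      ∃ s ∈ R' k, (b' k).In S s ∧ T * (b k).K (R k) < v k s * (b' k).K (R' k) := ⟨_, fun _ _ => Iff.rfl⟩
  obtain ⟨P3, hP3⟩ : ∃ F : κ → α' → Prop, ∀ k S, F k S ↔
      (∃ s ∈ R' k, (b' k).In S s) ∧ T * (b' k).K (R' k) < (b' k).K (L' k) := ⟨_, fun _ _ => Iff.rfl⟩
  obtain ⟨G1, hG1⟩ : ∃ F : α → Prop, ∀ S, F S ↔ ∃ k ∈ B, P1 k S := ⟨_, fun _ => Iff.rfl⟩
  obtain ⟨G2, hG2⟩ : ∃ F : α' → Prop, ∀ S, F S ↔ ∃ k ∈ B, P2 k S := ⟨_, fun _ => Iff.rfl⟩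
  obtain ⟨G3, hG3⟩ : ∃ F : α' → Prop, ∀ S, F S ↔ ∃ k ∈ B, P3 k S := ⟨_, fun _ => Iff.rfl⟩
  have t1 : T * ∑ S ∈ Ω with G1 S, W S ≤ Z := by
    refine disj_bound B hW0 hT (fun k S => ∃ s, (b k).In S s) P1 ?_ hd ?_ _ fun S _ h => (hG1 S).1 h
    · intro k _ S _ h
      obtain ⟨s, _, h1, _⟩ := (hP1 k S).1 h
      exact ⟨s, h1⟩
    · intro k hk
      refine (b k).res.markov (fun S hS => hW0 S (mem_filter.1 hS).1) (hL k hk) (fun s hs => e0 k hk s hs) (he k hk) hT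
        (P1 k) fun S _ h => (hP1 k S).1 h
  have t2 : T * ∑ S ∈ Ω' with G2 S, W' S ≤ Z' := by
    refine disj_bound B hW0' hT (fun k S => ∃ s, (b' k).In S s) P2 ?_ hd' ?_ _ fun S _ h => (hG2 S).1 h
    · intro k _ S _ h
      obtain ⟨s, _, h1, _⟩ := (hP2 k S).1 h
      exact ⟨s, h1⟩
    · intro k hk
      refine (b' k).res.markov (fun S hS => hW0' S (mem_filter.1 hS).1) (hR' k hk) (fun s hs => v0 k hk s hs) (hv k hk) hT
        (P2 k) fun S _ h => (hP2 k S).1 h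
  have t3 : T * ∑ S ∈ Ω' with G3 S, W' S ≤ Z' := by
    refine disj_bound B hW0' hT (fun k S => ∃ s, (b' k).In S s) P3 ?_ hd' ?_ _ fun S _ h => (hG3 S).1 h
    · intro k _ S _ h
      obtain ⟨⟨s, _, h1⟩, _⟩ := (hP3 k S).1 h
      exact ⟨s, h1⟩
    · intro k hk
      refine (b' k).res.choice (fun S hS => hW0' S (mem_filter.1 hS).1) (hR' k hk) (hL' k hk) hT
        (P3 k) fun S _ h => (hP3 k S).1 h
  have hsub : (Ω ×ˢ Ω').filter P ⊆ (Ω.filter G1) ×ˢ Ω' ∪ (Ω ×ˢ (Ω'.filter G2) ∪ Ω ×ˢ (Ω'.filter G3)) := by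
    intro q hq
    rw [mem_filter, mem_product] at hq
    obtain ⟨⟨hq1, hq2⟩, hPq⟩ := hq
    obtain ⟨k, hk, s, hs, s', hs', hin, hin', hlt⟩ := hP q hPq
    by_contra hn
    rw [mem_union, mem_union, not_or, not_or] at hn
    obtain ⟨n1, n2, n3⟩ := hn
    have a1 : e k s * (b k).K (L k) ≤ T * (b' k).K (L' k) := by
      by_contra h
      exact n1 (mem_product.2 ⟨mem_filter.2 ⟨hq1, (hG1 _).2 ⟨k, hk, (hP1 _ _).2 ⟨s, hs, hin, not_le.1 h⟩⟩⟩, hq2⟩)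
    have a2 : v k s' * (b' k).K (R' k) ≤ T * (b k).K (R k) := by
      by_contra h
      exact n2 (mem_product.2 ⟨hq1, mem_filter.2 ⟨hq2, (hG2 _).2 ⟨k, hk, (hP2 _ _).2 ⟨s', hs', hin', not_le.1 h⟩⟩⟩⟩)
    have a3 : (b' k).K (L' k) ≤ T * (b' k).K (R' k) := by
      by_contra h
      exact n3 (mem_product.2 ⟨hq1, mem_filter.2 ⟨hq2, (hG3 _).2 ⟨k, hk, (hP3 _ _).2 ⟨⟨s', hs', hin'⟩, not_le.1 h⟩⟩⟩⟩)
    have hv0 := v0 k hk s' hs'
    have : e k s * v k s' * (b k).K (L k) ≤ T ^ 3 * (b k).K (R k) := by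
      calc e k s * v k s' * (b k).K (L k) = v k s' * (e k s * (b k).K (L k)) := by ring
        _ ≤ v k s' * (T * (b' k).K (L' k)) := mul_le_mul_of_nonneg_left a1 hv0
        _ ≤ v k s' * (T * (T * (b' k).K (R' k))) :=
            mul_le_mul_of_nonneg_left (mul_le_mul_of_nonneg_left a3 hT.le) hv0
        _ = T ^ 2 * (v k s' * (b' k).K (R' k)) := by ring
        _ ≤ T ^ 2 * (T * (b k).K (R k)) := mul_le_mul_of_nonneg_left a2 (by positivity)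
        _ = T ^ 3 * (b k).K (R k) := by ring
    exact absurd hlt (not_lt.2 this)
  have hs1 : (Ω.filter G1) ×ˢ Ω' ⊆ Ω ×ˢ Ω' := product_subset_product_left (filter_subset _ _)
  have hs2 : Ω ×ˢ (Ω'.filter G2) ⊆ Ω ×ˢ Ω' := product_subset_product_right (filter_subset _ _)
  have hs3 : Ω ×ˢ (Ω'.filter G3) ⊆ Ω ×ˢ Ω' := product_subset_product_right (filter_subset _ _)
  have hle : ∑ q ∈ (Ω ×ˢ Ω') with P q, W q.1 * W' q.2 ≤
      ∑ q ∈ (Ω.filter G1) ×ˢ Ω', W q.1 * W' q.2 +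
        (∑ q ∈ Ω ×ˢ (Ω'.filter G2), W q.1 * W' q.2 + ∑ q ∈ Ω ×ˢ (Ω'.filter G3), W q.1 * W' q.2) := by
    refine (sum_le_sum_of_subset_of_nonneg hsub fun q hq _ => hnn q (union_subset hs1 (union_subset hs2 hs3) hq)).trans ?_
    refine (sum_union_le79 hnn hs1).trans ?_
    exact add_le_add le_rfl (sum_union_le79 hnn hs2)
  rw [sum_product, sum_product, sum_product, ← sum_mul_sum, ← sum_mul_sum, ← sum_mul_sum, ← hZ, ← hZ'] at hle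
  have g1 : (T * ∑ S ∈ Ω with G1 S, W S) * Z' ≤ Z * Z' := mul_le_mul_of_nonneg_right t1 hZ0'
  have g2 : Z * (T * ∑ S ∈ Ω' with G2 S, W' S) ≤ Z * Z' := mul_le_mul_of_nonneg_left t2 hZ0
  have g3 : Z * (T * ∑ S ∈ Ω' with G3 S, W' S) ≤ Z * Z' := mul_le_mul_of_nonneg_left t3 hZ0
  calc T * ∑ q ∈ (Ω ×ˢ Ω') with P q, W q.1 * W' q.2
      ≤ T * ((∑ S ∈ Ω with G1 S, W S) * Z' + (Z * ∑ S ∈ Ω' with G2 S, W' S + Z * ∑ S ∈ Ω' with G3 S, W' S)) :=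
        mul_le_mul_of_nonneg_left hle hT.le
    _ = (T * ∑ S ∈ Ω with G1 S, W S) * Z' + (Z * (T * ∑ S ∈ Ω' with G2 S, W' S) +
        Z * (T * ∑ S ∈ Ω' with G3 S, W' S)) := by ring
    _ ≤ Z * Z' + (Z * Z' + Z * Z') := add_le_add g1 (add_le_add g2 g3)
    _ = 3 * (Z * Z') := by ring

open scoped Classical in
/-- **The Markov depth at two fixed times** `a ≤ b`. `q.1` is the path of the system `(d, η)` in the class `A`, `q.2` the path of the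
system `(d', η')` in the class `AR`; both kernels are kernels of the system `(d, η)`. -/
theorem depthF (h c : ℝ) (d d' : ℕ → ℤ) (η η' : ℤ × ℤ → ℝ) (N : ℕ) (x0 x0' : ℤ)
    (E E' : ℤ → Prop) [DecidablePred E] [DecidablePred E'] {a b : ℕ} (Q : Finset (ℕ × ℕ)) (J : Finset ℕ)
    (A AR : ℕ → ℤ → Prop) (hab : a ≤ b) (hbN : b ≤ N) (hQ : PcQ d d' η η' a b Q)
    (hJ : ∀ i ∈ J, a ≤ i ∧ i ≤ b) (hout : ∀ i ∈ J, ∀ q ∈ Q, i ≤ q.1 ∨ q.2 ≤ i)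
    {T : ℝ} (hT : 0 < T) (P : Finset ℕ × Finset ℕ → Prop)
    (hP : ∀ q ∈ Om N x0 d E ×ˢ Om N x0' d' E', P q →
      ps d x0 0 q.1 a = ps d' x0' 0 q.2 a ∧ ps d x0 0 q.1 b = ps d' x0' 0 q.2 b ∧
      (∀ t ∈ J, A t (ps d x0 0 q.1 t)) ∧ (∀ t ∈ J, AR t (ps d' x0' 0 q.2 t)) ∧
      T ^ 3 * KJ h c d η J AR a (ps d x0 0 q.1 a) b (ps d x0 0 q.1 b) <
        (∏ r ∈ Q, rq h c d η d' η' r (ps d x0 0 q.1)) * (∏ r ∈ Q, rq h c d' η' d η r (ps d' x0' 0 q.2)) *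
          KJ h c d η J A a (ps d x0 0 q.1 a) b (ps d x0 0 q.1 b)) :
    T * ∑ q ∈ (Om N x0 d E ×ˢ Om N x0' d' E') with P q, wt h c d η 0 x0 N q.1 * wt h c d' η' 0 x0' N q.2 ≤
      3 * (Zt h c d η N x0 E * Zt h c d' η' N x0' E') := by
  have hpp : ∀ (x1 : ℤ) (dd : ℕ → ℤ) (y0 : ℤ) (S : Finset ℕ), ps dd y0 0 S a = x1 → ∀ t, a ≤ t → t ≤ b →
      ps dd x1 a (S ∩ Ico a b) t = ps dd y0 0 S t := by
    intro x1 dd y0 S h1 t ht ht'
    rw [ps_split (Nat.zero_le a) ht, h1]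
    refine ps_congr ?_
    rw [inter_assoc, inter_eq_right.2 (Ico_subset_Ico le_rfl ht')]
  have hprod : ∀ (x1 : ℤ) (dd dd' : ℕ → ℤ) (ee ee' : ℤ × ℤ → ℝ) (y0 : ℤ) (S : Finset ℕ), ps dd y0 0 S a = x1 →
      ∏ r ∈ Q, rq h c dd ee dd' ee' r (ps dd x1 a (S ∩ Ico a b)) = ∏ r ∈ Q, rq h c dd ee dd' ee' r (ps dd y0 0 S) := by
    intro x1 dd dd' ee ee' y0 S h1
    refine prod_congr rfl fun r hr => ?_
    obtain ⟨b1, b2, b3⟩ := hQ.sub r hr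
    exact rq_congr (hpp x1 dd y0 S h1 r.1 b1 (b2.trans b3)) (hpp x1 dd y0 S h1 r.2 (b1.trans b2) b3)
  -- a path in a half bracket visits the points
  have hvis : ∀ (dd : ℕ → ℤ) (ee : ℤ × ℤ → ℝ) (y0 : ℤ) (EE : ℤ → Prop) [DecidablePred EE] (k : ℤ × ℤ) (S : Finset ℕ),
      (∃ s, (hb h c dd ee N y0 EE a b k.1 k.2 hab hbN).In S s) → k = (ps dd y0 0 S a, ps dd y0 0 S b) := by
    rintro dd ee y0 EE _ k S ⟨s, hs, o, ho, rfl⟩
    have hs' : s ∈ (Ico a b).powerset.filter fun s => ps dd k.1 a s b = k.2 := hs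
    have ho' : o ∈ (Ico 0 a ∪ Ico b N).powerset.filter fun o => ps dd y0 0 o a = k.1 ∧ EE (ps dd k.2 b o N) := ho
    rw [mem_filter, mem_powerset] at hs' ho'
    have e1 : ps dd y0 0 (o ∪ s) a = k.1 := by
      rw [ps_congr (out_inter ho'.1 hs'.1 (Or.inl le_rfl)), ho'.2.1]
    have e2 : ps dd y0 0 (o ∪ s) b = k.2 := by
      rw [ps_split (Nat.zero_le a) hab, e1, ps_congr (in_inter ho'.1 hs'.1 le_rfl le_rfl), hs'.2]
    show k = (ps dd y0 0 (o ∪ s) a, ps dd y0 0 (o ∪ s) b)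
    rw [e1, e2]
  obtain ⟨Pr, hPr⟩ : ∃ F : Finset ℕ × Finset ℕ → Prop, ∀ q, F q ↔ P q ∧ q ∈ Om N x0 d E ×ˢ Om N x0' d' E' :=
    ⟨_, fun _ => Iff.rfl⟩
  have hset : (Om N x0 d E ×ˢ Om N x0' d' E').filter P = (Om N x0 d E ×ˢ Om N x0' d' E').filter Pr := by
    ext q
    rw [mem_filter, mem_filter, hPr]
    exact ⟨fun hq => ⟨hq.1, hq.2, hq.1⟩, fun hq => ⟨hq.1, hq.2.1⟩⟩
  rw [hset]
  refine depth3d ((Om N x0 d E).image fun S => (ps d x0 0 S a, ps d x0 0 S b))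
    (fun k => hb h c d η N x0 E a b k.1 k.2 hab hbN) (fun k => hb h c d' η' N x0' E' a b k.1 k.2 hab hbN)
    (fun k _ k' _ S _ h1 h2 => (hvis d η x0 E k S h1).trans (hvis d η x0 E k' S h2).symm)
    (fun k _ k' _ S _ h1 h2 => (hvis d' η' x0' E' k S h1).trans (hvis d' η' x0' E' k' S h2).symm)
    (fun S _ => (wt_pos _ _ _ _).le) (fun S _ => (wt_pos _ _ _ _).le) hT
    (fun k => (Ico a b).powerset.filter fun s => ps d k.1 a s b = k.2 ∧ ∀ t ∈ J, A t (ps d k.1 a s t))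
    (fun k => (Ico a b).powerset.filter fun s => ps d k.1 a s b = k.2 ∧ ∀ t ∈ J, AR t (ps d k.1 a s t))
    (fun k => (Ico a b).powerset.filter fun s => ps d' k.1 a s b = k.2 ∧ ∀ t ∈ J, A t (ps d' k.1 a s t))
    (fun k => (Ico a b).powerset.filter fun s => ps d' k.1 a s b = k.2 ∧ ∀ t ∈ J, AR t (ps d' k.1 a s t))
    (fun k _ => ?_) (fun k _ => ?_) (fun k _ => ?_)
    (fun k s => ∏ r ∈ Q, rq h c d η d' η' r (ps d k.1 a s)) (fun k s => ∏ r ∈ Q, rq h c d' η' d η r (ps d' k.1 a s))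
    (fun k _ s _ => prod_nonneg fun _ _ => rq_nonneg _ _) (fun k _ s _ => prod_nonneg fun _ _ => rq_nonneg _ _)
    (fun k _ => ?_) (fun k _ => ?_) Pr ?_
  · intro s hs
    rw [mem_filter] at hs
    exact mem_filter.2 ⟨hs.1, hs.2.1⟩
  · intro s hs
    rw [mem_filter] at hs
    exact mem_filter.2 ⟨hs.1, hs.2.1⟩
  · intro s hs
    rw [mem_filter] at hs
    exact mem_filter.2 ⟨hs.1, hs.2.1⟩
  · exact skelJ k.1 k.2 hab hQ A hJ hout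
  · exact skelJ k.1 k.2 hab hQ.symm AR hJ hout
  · intro q hq
    obtain ⟨hPq, hmem⟩ := (hPr q).1 hq
    have hm := hmem
    rw [mem_product] at hm
    obtain ⟨a1, a2, a3, a4, hlt⟩ := hP q hmem hPq
    have in1 := hb_in (h := h) (c := c) (η := η) hab hbN hm.1 rfl rfl
    have in2 := hb_in (h := h) (c := c) (η := η') hab hbN hm.2 a1.symm a2.symm
    refine ⟨(ps d x0 0 q.1 a, ps d x0 0 q.1 b), mem_image_of_mem _ hm.1, q.1 ∩ Ico a b, ?_, q.2 ∩ Ico a b, ?_, in1, in2, ?_⟩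
    · have := in1.1
      refine mem_filter.2 ⟨(mem_filter.1 this).1, (mem_filter.1 this).2, fun t ht => ?_⟩
      rw [hpp _ d x0 q.1 rfl t (hJ t ht).1 (hJ t ht).2]
      exact a3 t ht
    · have := in2.1
      refine mem_filter.2 ⟨(mem_filter.1 this).1, (mem_filter.1 this).2, fun t ht => ?_⟩
      rw [hpp _ d' x0' q.2 a1.symm t (hJ t ht).1 (hJ t ht).2]
      exact a4 t ht
    · show T ^ 3 * KJ h c d η J AR a (ps d x0 0 q.1 a) b (ps d x0 0 q.1 b) <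
        (∏ r ∈ Q, rq h c d η d' η' r (ps d (ps d x0 0 q.1 a) a (q.1 ∩ Ico a b))) *
        (∏ r ∈ Q, rq h c d' η' d η r (ps d' (ps d x0 0 q.1 a) a (q.2 ∩ Ico a b))) *
          KJ h c d η J A a (ps d x0 0 q.1 a) b (ps d x0 0 q.1 b)
      rw [hprod _ d d' η η' x0 q.1 rfl, hprod _ d' d η' η x0' q.2 a1.symm]
      exact hlt

end

end Pool.Agent.W_7d29a1_Z79
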