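import Pool.Agent.W_7d29a1_Z79.Tie

/-!
# STORM Z, (CL) / (TIE) at the level of paths

A piece of a path between the times `i` and `j` is a finite set `s` of times (of its up steps) inside `Ico i j`. `d : ℕ → ℤ` are the
cumulated jumps (moving frame, `d = 0` for `S`), `ps d x i s t` is the frame position at the time `t` of the piece which starts at `(i, x)`,
`wt` its weight, `Kn` the kernel. `hb`: half bracket of the paths of length `N` with start `x0` and end condition `E` through two points.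
`skel_le`: the skeleton lemma, `tieP`: the Markov depth. (helper79)
-/

set_option autoImplicit false

namespace Pool.Agent.W_7d29a1_Z79

open Finset

noncomputable section

/-- Frame position. -/
def ps (d : ℕ → ℤ) (x : ℤ) (i : ℕ) (s : Finset ℕ) (t : ℕ) : ℤ := x + ((s ∩ Ico i t).card : ℤ) + (d t - d i)

/-- The weight of a piece. -/
def wt (h c : ℝ) (d : ℕ → ℤ) (η : ℤ × ℤ → ℝ) (i : ℕ) (x : ℤ) (j : ℕ) (s : Finset ℕ) : ℝ :=
  Real.exp (h * ((s ∩ Ico i j).card : ℝ) - ((j : ℝ) - i) * c) * ∏ t ∈ Ioc i j, Real.exp (η ((t : ℤ), ps d x i s t))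

/-- The kernel from `(i, x)` to `(j, z)`. -/
def Kn (h c : ℝ) (d : ℕ → ℤ) (η : ℤ × ℤ → ℝ) (i : ℕ) (x : ℤ) (j : ℕ) (z : ℤ) : ℝ :=
  ∑ s ∈ (Ico i j).powerset with ps d x i s j = z, wt h c d η i x j s

/-- The kernel with a condition `C` on the piece. -/
def KC (h c : ℝ) (d : ℕ → ℤ) (η : ℤ × ℤ → ℝ) (C : Finset ℕ → Prop) [DecidablePred C] (i : ℕ) (x : ℤ) (j : ℕ) (z : ℤ) : ℝ :=
  ∑ s ∈ (Ico i j).powerset with ps d x i s j = z ∧ C s, wt h c d η i x j s

variable {h c : ℝ} {d d' : ℕ → ℤ} {η η' : ℤ × ℤ → ℝ}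

theorem wt_pos (i : ℕ) (x : ℤ) (j : ℕ) (s : Finset ℕ) : 0 < wt h c d η i x j s :=
  mul_pos (Real.exp_pos _) (prod_pos fun _ _ => Real.exp_pos _)

theorem Kn_nonneg (i : ℕ) (x : ℤ) (j : ℕ) (z : ℤ) : 0 ≤ Kn h c d η i x j z :=
  sum_nonneg fun _ _ => (wt_pos _ _ _ _).le

theorem ps_congr {x : ℤ} {i t : ℕ} {s s' : Finset ℕ} (hs : s ∩ Ico i t = s' ∩ Ico i t) : ps d x i s t = ps d x i s' t := by
  unfold ps
  rw [hs]

theorem ps_self (x : ℤ) (i : ℕ) (s : Finset ℕ) : ps d x i s i = x := by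
  simp [ps]

theorem ps_split {x : ℤ} {i m t : ℕ} (him : i ≤ m) (hmt : m ≤ t) (s : Finset ℕ) :
    ps d x i s t = ps d (ps d x i s m) m s t := by
  unfold ps
  have h1 : (s ∩ Ico i t).card = (s ∩ Ico i m).card + (s ∩ Ico m t).card := by
    rw [← card_union_of_disjoint, ← inter_union_distrib_left, Ico_union_Ico_eq_Ico him hmt]
    exact (Ico_disjoint_Ico_consecutive i m t).mono inter_subset_right inter_subset_right
  rw [h1]
  push_cast
  ring

theorem inter_sub {s s' : Finset ℕ} {i j t t' : ℕ} (hs : s ∩ Ico i j = s' ∩ Ico i j) (h1 : i ≤ t) (h2 : t' ≤ j) :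
    s ∩ Ico t t' = s' ∩ Ico t t' := by
  ext a
  have := Finset.ext_iff.1 hs a
  simp only [mem_inter, mem_Ico] at this ⊢
  constructor
  · rintro ⟨ha, hb, hc⟩
    exact ⟨(this.1 ⟨ha, by omega, by omega⟩).1, hb, hc⟩
  · rintro ⟨ha, hb, hc⟩
    exact ⟨(this.2 ⟨ha, by omega, by omega⟩).1, hb, hc⟩

theorem wt_congr {x : ℤ} {i j : ℕ} {s s' : Finset ℕ} (hs : s ∩ Ico i j = s' ∩ Ico i j) :
    wt h c d η i x j s = wt h c d η i x j s' := by
  unfold wt
  rw [hs]
  congr 1
  refine prod_congr rfl fun t ht => ?_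
  rw [mem_Ioc] at ht
  rw [ps_congr (inter_sub hs le_rfl ht.2)]

theorem wt_split {x : ℤ} {i m j : ℕ} (him : i ≤ m) (hmj : m ≤ j) (s : Finset ℕ) :
    wt h c d η i x j s = wt h c d η i x m s * wt h c d η m (ps d x i s m) j s := by
  unfold wt
  have h1 : (s ∩ Ico i j).card = (s ∩ Ico i m).card + (s ∩ Ico m j).card := by
    rw [← card_union_of_disjoint, ← inter_union_distrib_left, Ico_union_Ico_eq_Ico him hmj]
    exact (Ico_disjoint_Ico_consecutive i m j).mono inter_subset_right inter_subset_right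
  have h2 : ∏ t ∈ Ioc i j, Real.exp (η ((t : ℤ), ps d x i s t)) =
      (∏ t ∈ Ioc i m, Real.exp (η ((t : ℤ), ps d x i s t))) *
        ∏ t ∈ Ioc m j, Real.exp (η ((t : ℤ), ps d (ps d x i s m) m s t)) := by
    rw [← Ioc_union_Ioc_eq_Ioc him hmj, prod_union (Ioc_disjoint_Ioc_of_le le_rfl)]
    congr 1
    refine prod_congr rfl fun t ht => ?_
    rw [mem_Ioc] at ht
    rw [ps_split him ht.1.le]
  have h3 : Real.exp (h * ((s ∩ Ico i j).card : ℝ) - ((j : ℝ) - i) * c) =
      Real.exp (h * ((s ∩ Ico i m).card : ℝ) - ((m : ℝ) - i) * c) *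
        Real.exp (h * ((s ∩ Ico m j).card : ℝ) - ((j : ℝ) - m) * c) := by
    rw [← Real.exp_add, h1]
    congr 1
    push_cast
    ring
  rw [h2, h3]
  ring

/-- Cutting a piece at the time `m`. -/
theorem sum_cut {i m j : ℕ} (him : i ≤ m) (hmj : m ≤ j) (f : Finset ℕ → ℝ) :
    ∑ s ∈ (Ico i j).powerset, f s = ∑ s1 ∈ (Ico i m).powerset, ∑ s2 ∈ (Ico m j).powerset, f (s1 ∪ s2) := by
  rw [← sum_product']
  refine (sum_bij' (fun (q : Finset ℕ × Finset ℕ) _ => q.1 ∪ q.2) (fun s _ => (s ∩ Ico i m, s ∩ Ico m j)) ?_ ?_ ?_ ?_ ?_).symm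
  · intro q hq
    rw [mem_product, mem_powerset, mem_powerset] at hq
    rw [mem_powerset, ← Ico_union_Ico_eq_Ico him hmj]
    exact union_subset_union hq.1 hq.2
  · intro s _
    rw [mem_product, mem_powerset, mem_powerset]
    exact ⟨inter_subset_right, inter_subset_right⟩
  · intro q hq
    rw [mem_product, mem_powerset, mem_powerset] at hq
    refine Prod.ext ?_ ?_
    · ext a
      simp only [mem_inter, mem_union, mem_Ico]
      constructor
      · rintro ⟨h1 | h1, h2⟩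
        · exact h1
        · have := hq.2 h1
          rw [mem_Ico] at this
          omega
      · intro h1
        have := hq.1 h1
        rw [mem_Ico] at this
        exact ⟨Or.inl h1, this⟩
    · ext a
      simp only [mem_inter, mem_union, mem_Ico]
      constructor
      · rintro ⟨h1 | h1, h2⟩
        · have := hq.1 h1
          rw [mem_Ico] at this
          omega
        · exact h1
      · intro h1
        have := hq.2 h1
        rw [mem_Ico] at this
        exact ⟨Or.inr h1, this⟩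
  · intro s hs
    rw [mem_powerset] at hs
    show s ∩ Ico i m ∪ s ∩ Ico m j = s
    rw [← inter_union_distrib_left, Ico_union_Ico_eq_Ico him hmj, inter_eq_left.2 hs]
  · intro q _
    rfl

theorem union_inter_left {i m j a b : ℕ} {s1 s2 : Finset ℕ} (_h1 : s1 ⊆ Ico i m) (h2 : s2 ⊆ Ico m j) (hb : b ≤ m) :
    (s1 ∪ s2) ∩ Ico a b = s1 ∩ Ico a b := by
  ext t
  simp only [mem_inter, mem_union, mem_Ico]
  constructor
  · rintro ⟨h | h, h'⟩
    · exact ⟨h, h'⟩
    · have := h2 h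
      rw [mem_Ico] at this
      omega
  · rintro ⟨h, h'⟩
    exact ⟨Or.inl h, h'⟩

theorem union_inter_right {i m j a b : ℕ} {s1 s2 : Finset ℕ} (h1 : s1 ⊆ Ico i m) (_h2 : s2 ⊆ Ico m j) (ha : m ≤ a) :
    (s1 ∪ s2) ∩ Ico a b = s2 ∩ Ico a b := by
  ext t
  simp only [mem_inter, mem_union, mem_Ico]
  constructor
  · rintro ⟨h | h, h'⟩
    · have := h1 h
      rw [mem_Ico] at this
      omega
    · exact ⟨h, h'⟩
  · rintro ⟨h, h'⟩
    exact ⟨Or.inr h, h'⟩

/-- A sum over pieces of a function of the end point. -/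
theorem sum_end {i j : ℕ} {x : ℤ} {Z : Finset ℤ} (hZ : ∀ s ∈ (Ico i j).powerset, ps d x i s j ∈ Z) (Φ : ℤ → ℝ) :
    ∑ s ∈ (Ico i j).powerset, wt h c d η i x j s * Φ (ps d x i s j) = ∑ z ∈ Z, Kn h c d η i x j z * Φ z := by
  classical
  rw [← sum_fiberwise_of_maps_to hZ]
  refine sum_congr rfl fun z _ => ?_
  unfold Kn
  rw [sum_mul]
  refine sum_congr rfl fun s hs => ?_
  rw [(mem_filter.1 hs).2]

/-- **Skeleton lemma.** -/
theorem skel_le {g : ℕ → ℕ} (hg : Monotone g) (x : ℤ) (n : ℕ) :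
    ∀ F : (ℕ → ℤ) → ℝ, (∀ p, 0 ≤ F p) → (∀ p q : ℕ → ℤ, (∀ j ≤ n, p j = q j) → F p = F q) →
    ∑ s ∈ (Ico (g 0) (g n)).powerset, wt h c d η (g 0) x (g n) s *
        (∏ j ∈ range n, Kn h c d' η' (g j) (ps d x (g 0) s (g j)) (g (j + 1)) (ps d x (g 0) s (g (j + 1))) /
          Kn h c d η (g j) (ps d x (g 0) s (g j)) (g (j + 1)) (ps d x (g 0) s (g (j + 1)))) *
        F (fun j => ps d x (g 0) s (g j)) ≤
      ∑ s ∈ (Ico (g 0) (g n)).powerset, wt h c d' η' (g 0) x (g n) s * F (fun j => ps d' x (g 0) s (g j)) := by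
  classical
  induction n with
  | zero =>
    intro F hF hloc
    simp only [Ico_self, powerset_empty, sum_singleton, range_zero, prod_empty, mul_one]
    have e1 : wt h c d η (g 0) x (g 0) ∅ = 1 := by simp [wt]
    have e2 : wt h c d' η' (g 0) x (g 0) ∅ = 1 := by simp [wt]
    rw [e1, e2]
    refine le_of_eq ?_
    congr 1
    refine hloc _ _ fun j hj => ?_
    rw [Nat.le_zero] at hj
    rw [hj, ps_self, ps_self]
  | succ n ih =>
    intro F hF hloc
    have h0n : g 0 ≤ g n := hg (Nat.zero_le n)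
    have hn1 : g n ≤ g (n + 1) := hg (Nat.le_succ n)
    -- the sum over the last block
    let H : (ℕ → ℤ) → ℝ := fun p => ∑ s2 ∈ (Ico (g n) (g (n + 1))).powerset,
      wt h c d' η' (g n) (p n) (g (n + 1)) s2 * F (Function.update p (n + 1) (ps d' (p n) (g n) s2 (g (n + 1))))
    have hH0 : ∀ p, 0 ≤ H p := fun p => sum_nonneg fun s _ => mul_nonneg (wt_pos _ _ _ _).le (hF _)
    have hHloc : ∀ p q : ℕ → ℤ, (∀ j ≤ n, p j = q j) → H p = H q := by
      intro p q hpq
      show ∑ s2 ∈ (Ico (g n) (g (n + 1))).powerset, _ = ∑ s2 ∈ (Ico (g n) (g (n + 1))).powerset, _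
      refine sum_congr rfl fun s2 _ => ?_
      rw [hpq n le_rfl]
      congr 1
      refine hloc _ _ fun j hj => ?_
      rcases Nat.lt_or_ge j (n + 1) with hj' | hj'
      · rw [Function.update_of_ne (by omega), Function.update_of_ne (by omega), hpq j (by omega)]
      · have : j = n + 1 := by omega
        rw [this, Function.update_self, Function.update_self]
    have hGH : ∀ p : ℕ → ℤ, ∑ s2 ∈ (Ico (g n) (g (n + 1))).powerset, wt h c d η (g n) (p n) (g (n + 1)) s2 *
        (Kn h c d' η' (g n) (p n) (g (n + 1)) (ps d (p n) (g n) s2 (g (n + 1))) /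
          Kn h c d η (g n) (p n) (g (n + 1)) (ps d (p n) (g n) s2 (g (n + 1))) *
          F (Function.update p (n + 1) (ps d (p n) (g n) s2 (g (n + 1))))) ≤ H p := by
      intro p
      set Z : Finset ℤ := (Ico (g n) (g (n + 1))).powerset.image (fun s => ps d (p n) (g n) s (g (n + 1))) ∪
        (Ico (g n) (g (n + 1))).powerset.image (fun s => ps d' (p n) (g n) s (g (n + 1))) with hZ
      have hZ1 : ∀ s ∈ (Ico (g n) (g (n + 1))).powerset, ps d (p n) (g n) s (g (n + 1)) ∈ Z := fun s hs =>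
        mem_union_left _ (mem_image_of_mem _ hs)
      have hZ2 : ∀ s ∈ (Ico (g n) (g (n + 1))).powerset, ps d' (p n) (g n) s (g (n + 1)) ∈ Z := fun s hs =>
        mem_union_right _ (mem_image_of_mem _ hs)
      show _ ≤ ∑ s2 ∈ (Ico (g n) (g (n + 1))).powerset,
        wt h c d' η' (g n) (p n) (g (n + 1)) s2 * F (Function.update p (n + 1) (ps d' (p n) (g n) s2 (g (n + 1))))
      rw [sum_end hZ2 (fun z => F (Function.update p (n + 1) z)),
        sum_end hZ1 (fun z => Kn h c d' η' (g n) (p n) (g (n + 1)) z / Kn h c d η (g n) (p n) (g (n + 1)) z *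
          F (Function.update p (n + 1) z))]
      refine sum_le_sum fun z _ => ?_
      have hK' : 0 ≤ Kn h c d' η' (g n) (p n) (g (n + 1)) z := Kn_nonneg _ _ _ _
      rcases (Kn_nonneg (h := h) (c := c) (d := d) (η := η) (g n) (p n) (g (n + 1)) z).eq_or_lt with hz | hz
      · rw [← hz, zero_mul]
        exact mul_nonneg hK' (hF _)
      · rw [← mul_assoc, mul_div_cancel₀ _ hz.ne']
    rw [sum_cut h0n hn1, sum_cut h0n hn1]
    -- the right side
    have hR : ∑ s1 ∈ (Ico (g 0) (g n)).powerset, ∑ s2 ∈ (Ico (g n) (g (n + 1))).powerset,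
        wt h c d' η' (g 0) x (g (n + 1)) (s1 ∪ s2) * F (fun j => ps d' x (g 0) (s1 ∪ s2) (g j)) =
        ∑ s1 ∈ (Ico (g 0) (g n)).powerset, wt h c d' η' (g 0) x (g n) s1 * H (fun j => ps d' x (g 0) s1 (g j)) := by
      refine sum_congr rfl fun s1 hs1 => ?_
      rw [mem_powerset] at hs1
      show _ = wt h c d' η' (g 0) x (g n) s1 * ∑ s2 ∈ (Ico (g n) (g (n + 1))).powerset, _
      rw [mul_sum]
      refine sum_congr rfl fun s2 hs2 => ?_
      rw [mem_powerset] at hs2
      have p1 : ∀ j ≤ n, ps d' x (g 0) (s1 ∪ s2) (g j) = ps d' x (g 0) s1 (g j) := fun j hj =>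
        ps_congr (union_inter_left hs1 hs2 (hg hj))
      have p2 : ps d' x (g 0) (s1 ∪ s2) (g (n + 1)) = ps d' (ps d' x (g 0) s1 (g n)) (g n) s2 (g (n + 1)) := by
        rw [ps_split h0n hn1, p1 n le_rfl]
        exact ps_congr (union_inter_right hs1 hs2 le_rfl)
      rw [wt_split h0n hn1, p1 n le_rfl, wt_congr (union_inter_left hs1 hs2 le_rfl : (s1 ∪ s2) ∩ Ico (g 0) (g n) = _),
        wt_congr (union_inter_right hs1 hs2 le_rfl : (s1 ∪ s2) ∩ Ico (g n) (g (n + 1)) = _), mul_assoc]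
      congr 2
      refine hloc _ _ fun j hj => ?_
      rcases Nat.lt_or_ge j (n + 1) with hj' | hj'
      · rw [Function.update_of_ne (by omega)]
        exact p1 j (by omega)
      · have : j = n + 1 := by omega
        rw [this, Function.update_self]
        exact p2
    have hL : ∑ s1 ∈ (Ico (g 0) (g n)).powerset, ∑ s2 ∈ (Ico (g n) (g (n + 1))).powerset,
        wt h c d η (g 0) x (g (n + 1)) (s1 ∪ s2) *
        (∏ j ∈ range (n + 1), Kn h c d' η' (g j) (ps d x (g 0) (s1 ∪ s2) (g j)) (g (j + 1))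
            (ps d x (g 0) (s1 ∪ s2) (g (j + 1))) /
          Kn h c d η (g j) (ps d x (g 0) (s1 ∪ s2) (g j)) (g (j + 1)) (ps d x (g 0) (s1 ∪ s2) (g (j + 1)))) *
        F (fun j => ps d x (g 0) (s1 ∪ s2) (g j)) ≤
        ∑ s1 ∈ (Ico (g 0) (g n)).powerset, wt h c d η (g 0) x (g n) s1 *
        (∏ j ∈ range n, Kn h c d' η' (g j) (ps d x (g 0) s1 (g j)) (g (j + 1)) (ps d x (g 0) s1 (g (j + 1))) /
          Kn h c d η (g j) (ps d x (g 0) s1 (g j)) (g (j + 1)) (ps d x (g 0) s1 (g (j + 1)))) *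
        H (fun j => ps d x (g 0) s1 (g j)) := by
      refine sum_le_sum fun s1 hs1 => ?_
      rw [mem_powerset] at hs1
      refine le_trans (le_of_eq ?_) (mul_le_mul_of_nonneg_left (hGH fun j => ps d x (g 0) s1 (g j))
        (mul_nonneg (wt_pos _ _ _ _).le (prod_nonneg fun j _ => div_nonneg (Kn_nonneg _ _ _ _) (Kn_nonneg _ _ _ _))))
      rw [mul_sum]
      refine sum_congr rfl fun s2 hs2 => ?_
      rw [mem_powerset] at hs2
      have p1 : ∀ j ≤ n, ps d x (g 0) (s1 ∪ s2) (g j) = ps d x (g 0) s1 (g j) := fun j hj =>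
        ps_congr (union_inter_left hs1 hs2 (hg hj))
      have p2 : ps d x (g 0) (s1 ∪ s2) (g (n + 1)) = ps d (ps d x (g 0) s1 (g n)) (g n) s2 (g (n + 1)) := by
        rw [ps_split h0n hn1, p1 n le_rfl]
        exact ps_congr (union_inter_right hs1 hs2 le_rfl)
      have e1 : ∏ j ∈ range n, Kn h c d' η' (g j) (ps d x (g 0) (s1 ∪ s2) (g j)) (g (j + 1))
            (ps d x (g 0) (s1 ∪ s2) (g (j + 1))) /
          Kn h c d η (g j) (ps d x (g 0) (s1 ∪ s2) (g j)) (g (j + 1)) (ps d x (g 0) (s1 ∪ s2) (g (j + 1))) =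
          ∏ j ∈ range n, Kn h c d' η' (g j) (ps d x (g 0) s1 (g j)) (g (j + 1)) (ps d x (g 0) s1 (g (j + 1))) /
          Kn h c d η (g j) (ps d x (g 0) s1 (g j)) (g (j + 1)) (ps d x (g 0) s1 (g (j + 1))) := by
        refine prod_congr rfl fun j hj => ?_
        rw [mem_range] at hj
        rw [p1 j (by omega), p1 (j + 1) (by omega)]
      have e2 : F (fun j => ps d x (g 0) (s1 ∪ s2) (g j)) =
          F (Function.update (fun j => ps d x (g 0) s1 (g j)) (n + 1)
            (ps d (ps d x (g 0) s1 (g n)) (g n) s2 (g (n + 1)))) := by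
        refine hloc _ _ fun j hj => ?_
        rcases Nat.lt_or_ge j (n + 1) with hj' | hj'
        · rw [Function.update_of_ne (by omega)]
          exact p1 j (by omega)
        · have : j = n + 1 := by omega
          rw [this, Function.update_self]
          exact p2
      rw [prod_range_succ, e1, e2, p1 n le_rfl, p2, wt_split h0n hn1, p1 n le_rfl,
        wt_congr (union_inter_left hs1 hs2 le_rfl : (s1 ∪ s2) ∩ Ico (g 0) (g n) = _),
        wt_congr (union_inter_right hs1 hs2 le_rfl : (s1 ∪ s2) ∩ Ico (g n) (g (n + 1)) = _)]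
      ring
    rw [hR]
    exact hL.trans (ih H hH0 hHloc)

end

end Pool.Agent.W_7d29a1_Z79
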