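import Pool.Agent.W_7d29a1_Z79.ChoiceP

/-!
# STORM Z: the skeleton lemma for a finite set of disjoint pieces

`Q` is a finite set of disjoint intervals of times in `[a, b]`; outside them the two systems `(d, η)`, `(d', η')` have the same jumps
and the same environment. `skelQ`: the mean of the product of the kernel ratios over the pieces is at most the kernel of the second system.
`markovQ`: the Markov line for it. (helper79)
-/

set_option autoImplicit false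

namespace Pool.Agent.W_7d29a1_Z79

open Finset

noncomputable section

variable {h c : ℝ} {d d' : ℕ → ℤ} {η η' : ℤ × ℤ → ℝ}

/-- The two systems agree at the step `k → k + 1`. -/
def Agr (d d' : ℕ → ℤ) (η η' : ℤ × ℤ → ℝ) (k : ℕ) : Prop :=
  d (k + 1) - d k = d' (k + 1) - d' k ∧ ∀ z : ℤ, η (((k + 1 : ℕ) : ℤ), z) = η' (((k + 1 : ℕ) : ℤ), z)

theorem Agr.symm {k : ℕ} (H : Agr d d' η η' k) : Agr d' d η' η k := ⟨H.1.symm, fun z => (H.2 z).symm⟩

theorem agr_sum {i t : ℕ} (hit : i ≤ t) (H : ∀ k, i ≤ k → k < t → Agr d d' η η' k) : d t - d i = d' t - d' i := by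
  induction t, hit using Nat.le_induction with
  | base => simp
  | succ t hit ih =>
    have h1 := ih fun k hk hk' => H k hk (by omega)
    have h2 := (H t hit (by omega)).1
    linarith

theorem agr_ps {x : ℤ} {i t : ℕ} (hit : i ≤ t) (H : ∀ k, i ≤ k → k < t → Agr d d' η η' k) (s : Finset ℕ) :
    ps d x i s t = ps d' x i s t := by
  unfold ps
  rw [agr_sum hit H]

theorem agr_wt {x : ℤ} {i j : ℕ} (H : ∀ k, i ≤ k → k < j → Agr d d' η η' k) (s : Finset ℕ) :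
    wt h c d η i x j s = wt h c d' η' i x j s := by
  unfold wt
  congr 1
  refine prod_congr rfl fun t ht => ?_
  rw [mem_Ioc] at ht
  rw [agr_ps ht.1.le fun k hk hk' => H k hk (by omega)]
  have h1 := (H (t - 1) (by omega) (by omega)).2
  rw [Nat.sub_add_cancel (by omega : 1 ≤ t)] at h1
  rw [h1]

theorem agr_Kn {x z : ℤ} {i j : ℕ} (hij : i ≤ j) (H : ∀ k, i ≤ k → k < j → Agr d d' η η' k) :
    Kn h c d η i x j z = Kn h c d' η' i x j z := by
  unfold Kn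
  have : (Ico i j).powerset.filter (fun s => ps d x i s j = z) = (Ico i j).powerset.filter fun s => ps d' x i s j = z := by
    refine filter_congr fun s _ => ?_
    rw [agr_ps hij H]
  rw [this]
  exact sum_congr rfl fun s _ => agr_wt H s

theorem Kn_pos_path {x : ℤ} {i j : ℕ} (s : Finset ℕ) : 0 < Kn h c d η i x j (ps d x i s j) := by
  unfold Kn
  refine sum_pos (fun _ _ => wt_pos _ _ _ _) ⟨s ∩ Ico i j, ?_⟩
  rw [mem_filter, mem_powerset]
  refine ⟨inter_subset_right, ps_congr ?_⟩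
  rw [inter_assoc, inter_self]

theorem Kn_self (i : ℕ) (x : ℤ) : Kn h c d η i x i x = 1 := by
  unfold Kn
  have : (Ico i i).powerset.filter (fun s => ps d x i s i = x) = {∅} := by
    ext s
    rw [mem_filter, mem_powerset, Ico_self, subset_empty, mem_singleton]
    constructor
    · exact fun h => h.1
    · rintro rfl
      exact ⟨rfl, ps_self _ _ _⟩
  rw [this, sum_singleton]
  simp [wt]

/-- One block. -/
theorem block_le (i j : ℕ) (x : ℤ) {F : ℤ → ℝ} (hF : ∀ z, 0 ≤ F z) :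
    ∑ s ∈ (Ico i j).powerset, wt h c d η i x j s *
        (Kn h c d' η' i x j (ps d x i s j) / Kn h c d η i x j (ps d x i s j) * F (ps d x i s j)) ≤
      ∑ s ∈ (Ico i j).powerset, wt h c d' η' i x j s * F (ps d' x i s j) := by
  classical
  set Z : Finset ℤ := (Ico i j).powerset.image (fun s => ps d x i s j) ∪
    (Ico i j).powerset.image (fun s => ps d' x i s j) with hZ
  have hZ1 : ∀ s ∈ (Ico i j).powerset, ps d x i s j ∈ Z := fun s hs => mem_union_left _ (mem_image_of_mem _ hs)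
  have hZ2 : ∀ s ∈ (Ico i j).powerset, ps d' x i s j ∈ Z := fun s hs => mem_union_right _ (mem_image_of_mem _ hs)
  rw [sum_end hZ2 F, sum_end hZ1 (fun z => Kn h c d' η' i x j z / Kn h c d η i x j z * F z)]
  refine sum_le_sum fun z _ => ?_
  have hK' : 0 ≤ Kn h c d' η' i x j z := Kn_nonneg _ _ _ _
  rcases (Kn_nonneg (h := h) (c := c) (d := d) (η := η) i x j z).eq_or_lt with hz | hz
  · rw [← hz, zero_mul]
    exact mul_nonneg hK' (hF _)
  · rw [← mul_assoc, mul_div_cancel₀ _ hz.ne']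

/-- The ratio of the kernels over the piece `q`, at the positions of the path. -/
def rq (h c : ℝ) (d : ℕ → ℤ) (η : ℤ × ℤ → ℝ) (d' : ℕ → ℤ) (η' : ℤ × ℤ → ℝ) (q : ℕ × ℕ) (X : ℕ → ℤ) : ℝ :=
  Kn h c d' η' q.1 (X q.1) q.2 (X q.2) / Kn h c d η q.1 (X q.1) q.2 (X q.2)

theorem rq_nonneg (q : ℕ × ℕ) (X : ℕ → ℤ) : 0 ≤ rq h c d η d' η' q X :=
  div_nonneg (Kn_nonneg _ _ _ _) (Kn_nonneg _ _ _ _)

/-- The pieces. -/
structure PcQ (d d' : ℕ → ℤ) (η η' : ℤ × ℤ → ℝ) (a b : ℕ) (Q : Finset (ℕ × ℕ)) : Prop where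
  sub : ∀ q ∈ Q, a ≤ q.1 ∧ q.1 ≤ q.2 ∧ q.2 ≤ b
  dis : ∀ q ∈ Q, ∀ r ∈ Q, q ≠ r → q.2 ≤ r.1 ∨ r.2 ≤ q.1
  cov : ∀ k, a ≤ k → k < b → (∀ q ∈ Q, ¬ (q.1 ≤ k ∧ k < q.2)) → Agr d d' η η' k

theorem skelQ_aux (n : ℕ) : ∀ Q : Finset (ℕ × ℕ), Q.card = n → ∀ (a b : ℕ) (x : ℤ), a ≤ b → PcQ d d' η η' a b Q →
    (∀ q ∈ Q, q.1 < q.2) → ∀ F : ℤ → ℝ, (∀ z, 0 ≤ F z) →
    ∑ s ∈ (Ico a b).powerset, wt h c d η a x b s * (∏ q ∈ Q, rq h c d η d' η' q (ps d x a s)) * F (ps d x a s b) ≤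
      ∑ s ∈ (Ico a b).powerset, wt h c d' η' a x b s * F (ps d' x a s b) := by
  classical
  induction n with
  | zero =>
    intro Q hQ a b x hab hP _ F _
    rw [card_eq_zero] at hQ
    subst hQ
    have H : ∀ k, a ≤ k → k < b → Agr d d' η η' k := fun k h1 h2 => hP.cov k h1 h2 fun q hq => absurd hq (notMem_empty _)
    refine le_of_eq (sum_congr rfl fun s _ => ?_)
    rw [prod_empty, mul_one, agr_wt H, agr_ps hab H]
  | succ n ih =>
    intro Q hQ a b x hab hP hne F hF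
    obtain ⟨q, hq, hmax⟩ := exists_max_image Q (fun q => q.2) (card_pos.1 (by omega))
    obtain ⟨q1, q2, q3⟩ := hP.sub q hq
    have hqlt := hne q hq
    have hlast : ∀ r ∈ Q.erase q, r.2 ≤ q.1 := by
      intro r hr
      rw [mem_erase] at hr
      rcases hP.dis q hq r hr.2 hr.1.symm with h1 | h1
      · have h2 := hmax r hr.2
        have h3 := hne r hr.2
        omega
      · exact h1
    have hagr : ∀ k, q.2 ≤ k → k < b → Agr d d' η η' k := by
      intro k h1 h2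
      refine hP.cov k (by omega) h2 fun r hr => ?_
      rintro ⟨-, h4⟩
      have := hmax r hr
      omega
    -- the last part
    let F2 : ℤ → ℝ := fun z => ∑ s ∈ (Ico q.1 b).powerset, wt h c d' η' q.1 z b s * F (ps d' z q.1 s b)
    have hF2 : ∀ z, 0 ≤ F2 z := fun z => sum_nonneg fun s _ => mul_nonneg (wt_pos _ _ _ _).le (hF _)
    have hlastle : ∀ z : ℤ, ∑ s ∈ (Ico q.1 b).powerset, wt h c d η q.1 z b s *
        (Kn h c d' η' q.1 z q.2 (ps d z q.1 s q.2) / Kn h c d η q.1 z q.2 (ps d z q.1 s q.2)) * F (ps d z q.1 s b) ≤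
        F2 z := by
      intro z
      show _ ≤ ∑ s ∈ (Ico q.1 b).powerset, wt h c d' η' q.1 z b s * F (ps d' z q.1 s b)
      rw [sum_cut q2 q3, sum_cut q2 q3]
      let F3 : ℤ → ℝ := fun y => ∑ s ∈ (Ico q.2 b).powerset, wt h c d' η' q.2 y b s * F (ps d' y q.2 s b)
      have hF3 : ∀ y, 0 ≤ F3 y := fun y => sum_nonneg fun s _ => mul_nonneg (wt_pos _ _ _ _).le (hF _)
      have e2 : ∀ s2 ∈ (Ico q.1 q.2).powerset, ∀ s3 ∈ (Ico q.2 b).powerset,
          ∀ (dd : ℕ → ℤ) (ee : ℤ × ℤ → ℝ), wt h c dd ee q.1 z b (s2 ∪ s3) =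
            wt h c dd ee q.1 z q.2 s2 * wt h c dd ee q.2 (ps dd z q.1 s2 q.2) b s3 := by
        intro s2 hs2 s3 hs3 dd ee
        rw [mem_powerset] at hs2 hs3
        rw [wt_split q2 q3, ps_congr (union_inter_left hs2 hs3 le_rfl), wt_congr (union_inter_left hs2 hs3 le_rfl),
          wt_congr (union_inter_right hs2 hs3 le_rfl)]
      have e3 : ∀ s2 ∈ (Ico q.1 q.2).powerset, ∀ s3 ∈ (Ico q.2 b).powerset, ∀ dd : ℕ → ℤ,
          ps dd z q.1 (s2 ∪ s3) b = ps dd (ps dd z q.1 s2 q.2) q.2 s3 b := by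
        intro s2 hs2 s3 hs3 dd
        rw [mem_powerset] at hs2 hs3
        rw [ps_split q2 q3, ps_congr (union_inter_left hs2 hs3 le_rfl), ps_congr (union_inter_right hs2 hs3 le_rfl)]
      have hR : ∑ s2 ∈ (Ico q.1 q.2).powerset, ∑ s3 ∈ (Ico q.2 b).powerset,
          wt h c d' η' q.1 z b (s2 ∪ s3) * F (ps d' z q.1 (s2 ∪ s3) b) =
          ∑ s2 ∈ (Ico q.1 q.2).powerset, wt h c d' η' q.1 z q.2 s2 * F3 (ps d' z q.1 s2 q.2) := by
        refine sum_congr rfl fun s2 hs2 => ?_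
        show _ = _ * ∑ s ∈ (Ico q.2 b).powerset, _
        rw [mul_sum]
        refine sum_congr rfl fun s3 hs3 => ?_
        rw [e2 s2 hs2 s3 hs3, e3 s2 hs2 s3 hs3]
        ring
      have hL : ∑ s2 ∈ (Ico q.1 q.2).powerset, ∑ s3 ∈ (Ico q.2 b).powerset,
          wt h c d η q.1 z b (s2 ∪ s3) *
          (Kn h c d' η' q.1 z q.2 (ps d z q.1 (s2 ∪ s3) q.2) / Kn h c d η q.1 z q.2 (ps d z q.1 (s2 ∪ s3) q.2)) *
          F (ps d z q.1 (s2 ∪ s3) b) =
          ∑ s2 ∈ (Ico q.1 q.2).powerset, wt h c d η q.1 z q.2 s2 *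
            (Kn h c d' η' q.1 z q.2 (ps d z q.1 s2 q.2) / Kn h c d η q.1 z q.2 (ps d z q.1 s2 q.2) *
              F3 (ps d z q.1 s2 q.2)) := by
        refine sum_congr rfl fun s2 hs2 => ?_
        show _ = _ * (_ * ∑ s ∈ (Ico q.2 b).powerset, _)
        rw [mul_sum, mul_sum]
        refine sum_congr rfl fun s3 hs3 => ?_
        have hs2' := mem_powerset.1 hs2
        have hs3' := mem_powerset.1 hs3
        rw [e2 s2 hs2 s3 hs3, e3 s2 hs2 s3 hs3, ps_congr (union_inter_left hs2' hs3' le_rfl : (s2 ∪ s3) ∩ Ico q.1 q.2 = _),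
          agr_wt hagr, agr_ps q3 hagr]
        ring
      rw [hR, hL]
      exact block_le q.1 q.2 z hF3
    have hcut : PcQ d d' η η' a q.1 (Q.erase q) := by
      refine ⟨fun r hr => ?_, fun r hr r' hr' hne' => ?_, fun k h1 h2 h3 => ?_⟩
      · have h1 := hP.sub r (mem_of_mem_erase hr)
        exact ⟨h1.1, h1.2.1, hlast r hr⟩
      · exact hP.dis r (mem_of_mem_erase hr) r' (mem_of_mem_erase hr') hne'
      · refine hP.cov k h1 (by omega) fun r hr => ?_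
        by_cases hrq : r = q
        · rw [hrq]
          omega
        · exact h3 r (mem_erase.2 ⟨hrq, hr⟩)
    have IH := ih (Q.erase q) (by rw [card_erase_of_mem hq, hQ]; rfl) a q.1 x q1 hcut
      (fun r hr => hne r (mem_of_mem_erase hr)) F2 hF2
    have hqb : q.1 ≤ b := q2.trans q3
    rw [sum_cut q1 hqb, sum_cut q1 hqb]
    have f2 : ∀ s1 ∈ (Ico a q.1).powerset, ∀ s2 ∈ (Ico q.1 b).powerset,
        ∀ (dd : ℕ → ℤ) (ee : ℤ × ℤ → ℝ), wt h c dd ee a x b (s1 ∪ s2) =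
          wt h c dd ee a x q.1 s1 * wt h c dd ee q.1 (ps dd x a s1 q.1) b s2 := by
      intro s2 hs2 s3 hs3 dd ee
      rw [mem_powerset] at hs2 hs3
      rw [wt_split q1 hqb, ps_congr (union_inter_left hs2 hs3 le_rfl), wt_congr (union_inter_left hs2 hs3 le_rfl),
        wt_congr (union_inter_right hs2 hs3 le_rfl)]
    have f3 : ∀ s1 ∈ (Ico a q.1).powerset, ∀ s2 ∈ (Ico q.1 b).powerset, ∀ (dd : ℕ → ℤ) (t : ℕ), q.1 ≤ t →
        ps dd x a (s1 ∪ s2) t = ps dd (ps dd x a s1 q.1) q.1 s2 t := by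
      intro s2 hs2 s3 hs3 dd t ht
      rw [mem_powerset] at hs2 hs3
      rw [ps_split q1 ht, ps_congr (union_inter_left hs2 hs3 le_rfl), ps_congr (union_inter_right hs2 hs3 le_rfl)]
    have f4 : ∀ s1 ∈ (Ico a q.1).powerset, ∀ s2 ∈ (Ico q.1 b).powerset, ∀ (dd : ℕ → ℤ) (t : ℕ), t ≤ q.1 →
        ps dd x a (s1 ∪ s2) t = ps dd x a s1 t := by
      intro s2 hs2 s3 hs3 dd t ht
      rw [mem_powerset] at hs2 hs3
      exact ps_congr (union_inter_left hs2 hs3 ht)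
    have hR : ∑ s1 ∈ (Ico a q.1).powerset, ∑ s2 ∈ (Ico q.1 b).powerset,
        wt h c d' η' a x b (s1 ∪ s2) * F (ps d' x a (s1 ∪ s2) b) =
        ∑ s1 ∈ (Ico a q.1).powerset, wt h c d' η' a x q.1 s1 * F2 (ps d' x a s1 q.1) := by
      refine sum_congr rfl fun s1 hs1 => ?_
      show _ = _ * ∑ s ∈ (Ico q.1 b).powerset, _
      rw [mul_sum]
      refine sum_congr rfl fun s2 hs2 => ?_
      rw [f2 s1 hs1 s2 hs2, f3 s1 hs1 s2 hs2 d' b hqb]
      ring
    rw [hR]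
    refine le_trans ?_ IH
    refine sum_le_sum fun s1 hs1 => ?_
    have hprod : ∀ s2 ∈ (Ico q.1 b).powerset, ∏ r ∈ Q, rq h c d η d' η' r (ps d x a (s1 ∪ s2)) =
        (∏ r ∈ Q.erase q, rq h c d η d' η' r (ps d x a s1)) *
          (Kn h c d' η' q.1 (ps d x a s1 q.1) q.2 (ps d (ps d x a s1 q.1) q.1 s2 q.2) /
            Kn h c d η q.1 (ps d x a s1 q.1) q.2 (ps d (ps d x a s1 q.1) q.1 s2 q.2)) := by
      intro s2 hs2
      rw [← prod_erase_mul Q _ hq]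
      congr 1
      · refine prod_congr rfl fun r hr => ?_
        unfold rq
        have h1 := hlast r hr
        have h2 := hP.sub r (mem_of_mem_erase hr)
        rw [f4 s1 hs1 s2 hs2 d r.1 (h2.2.1.trans h1), f4 s1 hs1 s2 hs2 d r.2 h1]
      · unfold rq
        rw [f4 s1 hs1 s2 hs2 d q.1 le_rfl, f3 s1 hs1 s2 hs2 d q.2 q2]
    have e1 : ∑ s2 ∈ (Ico q.1 b).powerset, wt h c d η a x b (s1 ∪ s2) *
        (∏ r ∈ Q, rq h c d η d' η' r (ps d x a (s1 ∪ s2))) * F (ps d x a (s1 ∪ s2) b) =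
        wt h c d η a x q.1 s1 * (∏ r ∈ Q.erase q, rq h c d η d' η' r (ps d x a s1)) *
          ∑ s2 ∈ (Ico q.1 b).powerset, wt h c d η q.1 (ps d x a s1 q.1) b s2 *
            (Kn h c d' η' q.1 (ps d x a s1 q.1) q.2 (ps d (ps d x a s1 q.1) q.1 s2 q.2) /
              Kn h c d η q.1 (ps d x a s1 q.1) q.2 (ps d (ps d x a s1 q.1) q.1 s2 q.2)) *
            F (ps d (ps d x a s1 q.1) q.1 s2 b) := by
      rw [mul_sum]
      refine sum_congr rfl fun s2 hs2 => ?_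
      rw [hprod s2 hs2, f2 s1 hs1 s2 hs2, f3 s1 hs1 s2 hs2 d b hqb]
      ring
    rw [e1]
    exact mul_le_mul_of_nonneg_left (hlastle _)
      (mul_nonneg (wt_pos _ _ _ _).le (prod_nonneg fun _ _ => rq_nonneg _ _))

/-- **Skeleton lemma** for a finite set of disjoint pieces, with a function of the end point. -/
theorem skelQF {Q : Finset (ℕ × ℕ)} {a b : ℕ} (x : ℤ) (hab : a ≤ b) (hP : PcQ d d' η η' a b Q) {F : ℤ → ℝ}
    (hF : ∀ z, 0 ≤ F z) :
    ∑ s ∈ (Ico a b).powerset, wt h c d η a x b s * (∏ q ∈ Q, rq h c d η d' η' q (ps d x a s)) * F (ps d x a s b) ≤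
      ∑ s ∈ (Ico a b).powerset, wt h c d' η' a x b s * F (ps d' x a s b) := by
  classical
  have hP' : PcQ d d' η η' a b (Q.filter fun q => q.1 < q.2) := by
    refine ⟨fun q hq => hP.sub q (mem_filter.1 hq).1,
      fun q hq r hr => hP.dis q (mem_filter.1 hq).1 r (mem_filter.1 hr).1, fun k h1 h2 h3 => ?_⟩
    refine hP.cov k h1 h2 fun q hq => ?_
    rintro ⟨h4, h5⟩
    exact h3 q (mem_filter.2 ⟨hq, by omega⟩) ⟨h4, h5⟩
  have key := skelQ_aux (h := h) (c := c) _ (Q.filter fun q => q.1 < q.2) rfl a b x hab hP'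
    (fun q hq => (mem_filter.1 hq).2) F hF
  refine le_trans (le_of_eq ?_) key
  refine sum_congr rfl fun s _ => ?_
  congr 2
  symm
  refine prod_subset (filter_subset _ _) fun q hq hq' => ?_
  have h1 := (hP.sub q hq).2.1
  have h2 : q.1 = q.2 := by
    by_contra hne
    exact hq' (mem_filter.2 ⟨hq, by omega⟩)
  unfold rq
  rw [← h2, Kn_self, Kn_self, div_one]

/-- **Skeleton lemma**, point to point. -/
theorem skelQ {Q : Finset (ℕ × ℕ)} {a b : ℕ} (x y : ℤ) (hab : a ≤ b) (hP : PcQ d d' η η' a b Q) :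
    ∑ s ∈ (Ico a b).powerset with ps d x a s b = y, wt h c d η a x b s * ∏ q ∈ Q, rq h c d η d' η' q (ps d x a s) ≤
      Kn h c d' η' a x b y := by
  classical
  have key := skelQF (h := h) (c := c) x hab hP (F := fun z => if z = y then 1 else 0) (fun z => by split_ifs <;> norm_num)
  unfold Kn
  rw [sum_filter, sum_filter]
  refine le_trans (le_of_eq ?_) (key.trans (le_of_eq ?_))
  · refine sum_congr rfl fun s _ => ?_
    split_ifs
    · rw [mul_one]
    · rw [mul_zero]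
  · refine sum_congr rfl fun s _ => ?_
    split_ifs
    · rw [mul_one]
    · rw [mul_zero]

theorem rq_congr {q : ℕ × ℕ} {X X' : ℕ → ℤ} (h1 : X q.1 = X' q.1) (h2 : X q.2 = X' q.2) :
    rq h c d η d' η' q X = rq h c d η d' η' q X' := by
  unfold rq
  rw [h1, h2]

/-- **The Markov line** for finite sets of pieces. -/
theorem markovQ {κ : Type*} (B : Finset κ) {N : ℕ} {x0 : ℤ} {E : ℤ → Prop} [DecidablePred E] (i1 i2 : κ → ℕ) (x1 x2 : κ → ℤ)
    (Q : κ → Finset (ℕ × ℕ)) (h12 : ∀ k, i1 k ≤ i2 k) (h2N : ∀ k, i2 k ≤ N) (hQ : ∀ k, PcQ d d' η η' (i1 k) (i2 k) (Q k))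
    {T : ℝ} (hT : 0 < T) (P : Finset ℕ → Prop) [DecidablePred P]
    (hP : ∀ S ∈ Om N x0 d E, P S → ∃ k ∈ B, ps d x0 0 S (i1 k) = x1 k ∧ ps d x0 0 S (i2 k) = x2 k ∧
      T * Kn h c d' η' (i1 k) (x1 k) (i2 k) (x2 k) <
        (∏ q ∈ Q k, rq h c d η d' η' q (ps d x0 0 S)) * Kn h c d η (i1 k) (x1 k) (i2 k) (x2 k)) :
    T * ∑ S ∈ Om N x0 d E with P S, wt h c d η 0 x0 N S ≤ B.card * Zt h c d η N x0 E := by
  classical
  have hnn : ∀ S ∈ Om N x0 d E, 0 ≤ wt h c d η 0 x0 N S := fun S _ => (wt_pos _ _ _ _).le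
  refine union_bound79 B hnn (fun k S => S ∈ Om N x0 d E ∧ ps d x0 0 S (i1 k) = x1 k ∧ ps d x0 0 S (i2 k) = x2 k ∧
      T * Kn h c d' η' (i1 k) (x1 k) (i2 k) (x2 k) <
        (∏ q ∈ Q k, rq h c d η d' η' q (ps d x0 0 S)) * Kn h c d η (i1 k) (x1 k) (i2 k) (x2 k)) ?_ hT P ?_
  · intro k _ R _ hR
    refine (hb h c d η N x0 E (i1 k) (i2 k) (x1 k) (x2 k) (h12 k) (h2N k)).markov hnn subset_rfl
      (X := fun s => ∏ q ∈ Q k, rq h c d η d' η' q (ps d (x1 k) (i1 k) s)) (fun s _ => prod_nonneg fun _ _ => rq_nonneg _ _)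
      (skelQ (x1 k) (x2 k) (h12 k) (hQ k)) hT R ?_
    intro S hS hRS
    obtain ⟨hS', a1, a2, a3⟩ := hR S hS hRS
    have in1 := hb_in (h := h) (c := c) (η := η) (h12 k) (h2N k) hS' a1 a2
    refine ⟨S ∩ Ico (i1 k) (i2 k), in1.1, in1, ?_⟩
    have e1 : ∏ q ∈ Q k, rq h c d η d' η' q (ps d (x1 k) (i1 k) (S ∩ Ico (i1 k) (i2 k))) =
        ∏ q ∈ Q k, rq h c d η d' η' q (ps d x0 0 S) := by
      refine prod_congr rfl fun q hq => ?_
      obtain ⟨b1, b2, b3⟩ := (hQ k).sub q hq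
      have hp : ∀ t, i1 k ≤ t → t ≤ i2 k → ps d (x1 k) (i1 k) (S ∩ Ico (i1 k) (i2 k)) t = ps d x0 0 S t := by
        intro t ht ht'
        rw [ps_split (Nat.zero_le (i1 k)) ht, a1]
        refine ps_congr ?_
        rw [inter_assoc, inter_eq_right.2 (Ico_subset_Ico le_rfl ht')]
      exact rq_congr (hp q.1 b1 (b2.trans b3)) (hp q.2 (b1.trans b2) b3)
    show T * Kn h c d' η' (i1 k) (x1 k) (i2 k) (x2 k) <
      (∏ q ∈ Q k, rq h c d η d' η' q (ps d (x1 k) (i1 k) (S ∩ Ico (i1 k) (i2 k)))) *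
        Kn h c d η (i1 k) (x1 k) (i2 k) (x2 k)
    rw [e1]
    exact a3
  · intro S hS hPS
    obtain ⟨k, hk, a1, a2, a3⟩ := hP S hS hPS
    exact ⟨k, hk, hS, a1, a2, a3⟩

end

end Pool.Agent.W_7d29a1_Z79
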