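import Pool.Agent.W_7d29a1_Z.PthB
import Pool.Agent.W_7d29a1_Z.Act
import Pool.Agent.W_7d29a1_Z79.BrK
import Pool.Agent.W_7d29a1_Z79.Dep3d

/-!
# STORM Z: the objects of `Z/Defs.lean` in terms of pieces and kernels with jumps

`dv v i = - sv v 0 i` are the jumps of the sheared model in the frame of the environment. `fk_Kn`, `Xd_prod`, `gp_wt`, `gp_shr_wt`,
`WR_KJ`. (helper79)
-/

set_option autoImplicit false

namespace Pool.Agent.W_7d29a1_Z79

open Finset MeasureTheory Pool.Agent.W_7d29a1_F Pool.Agent.W_7d29a1_X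
open Pool.Agent.W_7d29a1_Z (sv shr px fk gp kr Xd)

noncomputable section

variable {μ : Measure ℝ}

/-- The cumulated jumps of the sheared model in the frame. -/
def dv (v : ℕ → ℤ) : ℕ → ℤ := fun i => - sv v 0 i

theorem dv_sub (v : ℕ → ℤ) {a t : ℕ} (h : a ≤ t) : dv v t - dv v a = - sv v a t := by
  unfold dv
  have := W_7d29a1_Z.sv_split v (Nat.zero_le a) h
  linarith

theorem dv_zero : dv 0 = 0 := by
  funext i
  simp [dv, sv]

theorem ps_dv (v : ℕ → ℤ) {a t : ℕ} (h : a ≤ t) (x : ℤ) (S : Finset ℕ) : ps (dv v) x a S t = ps 0 x a S t - sv v a t := by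
  unfold ps
  rw [dv_sub v h]
  simp only [Pi.zero_apply]
  ring

/-- Weights in the frame and in the sheared environment. -/
theorem wt_dv (v : ℕ → ℤ) (η : Env) (h c : ℝ) {a b : ℕ} (x : ℤ) (S : Finset ℕ) :
    wt h c (dv v) η a x b S = wt h c 0 (shr a v η) a x b S := by
  unfold wt
  congr 1
  refine prod_congr rfl fun t ht => ?_
  rw [mem_Ioc] at ht
  rw [ps_dv v ht.1.le]
  simp only [shr, Int.toNat_natCast]

theorem wt_dv0 (v : ℕ → ℤ) (η : Env) (h c : ℝ) {a b : ℕ} (x : ℤ) (S : Finset ℕ) :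
    wt h c (dv v) η a x b S = wt h c 0 (shr 0 v η) a (x + sv v 0 a) b S := by
  unfold wt
  congr 1
  refine prod_congr rfl fun t ht => ?_
  rw [mem_Ioc] at ht
  rw [ps_dv v ht.1.le]
  simp only [shr, Int.toNat_natCast]
  have h1 := W_7d29a1_Z.sv_split v (Nat.zero_le a) ht.1.le
  have h2 : ps 0 (x + sv v 0 a) a S t - sv v 0 t = ps 0 x a S t - sv v a t := by
    unfold ps
    simp only [Pi.zero_apply]
    linarith
  rw [h2]

theorem Kn_dv (v : ℕ → ℤ) (η : Env) (h c : ℝ) {a b : ℕ} (hab : a ≤ b) (x y : ℤ) :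
    Kn h c (dv v) η a x b y = Kn h c 0 (shr a v η) a x b (y + sv v a b) := by
  unfold Kn
  have e1 : (Ico a b).powerset.filter (fun S => ps (dv v) x a S b = y) =
      (Ico a b).powerset.filter fun S => ps 0 x a S b = y + sv v a b := by
    refine filter_congr fun S _ => ?_
    rw [ps_dv v hab]
    constructor
    · intro h
      linarith
    · intro h
      linarith
  rw [e1]
  exact sum_congr rfl fun S _ => wt_dv v η h c x S

/-- `fk` is the logarithm of a kernel with jumps. -/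
theorem fk_Kn (v : ℕ → ℤ) (η : Env) {a b : ℕ} (hab : a ≤ b) (x y : ℤ) :
    fk μ v η a b x y = Real.log (Kn 0 (lam μ 0) (dv v) η a x b y) := by
  unfold W_7d29a1_Z.fk
  rw [W_7d29a1_Z.W_eq_Kf, Nat.add_sub_cancel' hab, ← Kn_eq hab, Kn_dv v η 0 (lam μ 0) hab]
  congr 2
  ring

theorem Kn_pos_of {h c : ℝ} {d : ℕ → ℤ} {η : Env} {a b : ℕ} (_hab : a ≤ b) {x y : ℤ} (h1 : 0 ≤ y - x - (d b - d a))
    (h2 : y - x - (d b - d a) ≤ (b : ℤ) - a) : 0 < Kn h c d η a x b y := by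
  have e1 : ps d x a (Ico a (a + (y - x - (d b - d a)).toNat)) b = y := by
    unfold ps
    have e2 : Ico a (a + (y - x - (d b - d a)).toNat) ∩ Ico a b = Ico a (a + (y - x - (d b - d a)).toNat) := by
      rw [inter_eq_left]
      exact Ico_subset_Ico le_rfl (by omega)
    rw [e2, Nat.card_Ico, Nat.add_sub_cancel_left, Int.toNat_of_nonneg h1]
    ring
  have h3 := Kn_pos_path (h := h) (c := c) (d := d) (η := η) (x := x) (i := a) (j := b) (Ico a (a + (y - x - (d b - d a)).toNat))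
  rwa [e1] at h3

/-- The response of a list of pieces is the logarithm of a product of kernel ratios. -/
theorem Xd_prod (v : ℕ → ℤ) {Q : Finset (ℕ × ℕ)} (hQ : ∀ q ∈ Q, q.1 ≤ q.2) (η : Env) (X : ℕ → ℤ)
    (h1 : ∀ q ∈ Q, 0 < Kn 0 (lam μ 0) (dv v) η q.1 (X q.1) q.2 (X q.2))
    (h2 : ∀ q ∈ Q, 0 < Kn 0 (lam μ 0) 0 η q.1 (X q.1) q.2 (X q.2)) :
    Real.exp (Xd μ v Q η X) = ∏ q ∈ Q, rq 0 (lam μ 0) 0 η (dv v) η q X ∧
      Real.exp (- Xd μ v Q η X) = ∏ q ∈ Q, rq 0 (lam μ 0) (dv v) η 0 η q X := by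
  unfold W_7d29a1_Z.Xd
  rw [← sum_neg_distrib, Real.exp_sum, Real.exp_sum]
  constructor
  · refine prod_congr rfl fun q hq => ?_
    rw [fk_Kn v η (hQ q hq), fk_Kn 0 η (hQ q hq), dv_zero, Real.exp_sub, Real.exp_log (h1 q hq), Real.exp_log (h2 q hq)]
    rfl
  · refine prod_congr rfl fun q hq => ?_
    rw [fk_Kn v η (hQ q hq), fk_Kn 0 η (hQ q hq), dv_zero, neg_sub, Real.exp_sub, Real.exp_log (h1 q hq),
      Real.exp_log (h2 q hq)]
    rfl

theorem ps_zero_pos (S : Finset ℕ) (t : ℕ) : ps 0 0 0 S t = pos S t := W_7d29a1_Z.ps_pos S t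

theorem ps_dv_px (v : ℕ → ℤ) (S : Finset ℕ) (t : ℕ) : ps (dv v) 0 0 S t = px v S t := by
  rw [ps_dv v (Nat.zero_le t), ps_zero_pos]
  rfl

/-- The Gibbs weight of the sheared environment. -/
theorem gp_wt (v : ℕ → ℤ) (η : Env) (N : ℕ) (y : ℤ) (S : Finset ℕ) :
    gp μ (shr 0 v η) N y S = if px v S N = y - sv v 0 N then
      wt 0 (lam μ 0) (dv v) η 0 0 N S / Zt 0 (lam μ 0) (dv v) η N 0 (fun z => z = y - sv v 0 N) else 0 := by
  rw [W_7d29a1_Z.gp_eq]
  have e1 : (pos S N = y) ↔ (px v S N = y - sv v 0 N) := by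
    unfold W_7d29a1_Z.px
    constructor
    · intro h
      rw [h]
    · intro h
      linarith
  have e2 : W_7d29a1_Z.pw μ 0 0 (shr 0 v η) 0 0 N S = wt 0 (lam μ 0) (dv v) η 0 0 N S := by
    rw [wt_dv v η 0 (lam μ 0) 0 S, wt_eq (Nat.zero_le N)]
  have e3 : W_7d29a1_Z.Kf μ 0 0 (shr 0 v η) 0 0 N y = Zt 0 (lam μ 0) (dv v) η N 0 (fun z => z = y - sv v 0 N) := by
    rw [← Kn_eq (Nat.zero_le N)]
    have h1 := Kn_dv v η 0 (lam μ 0) (Nat.zero_le N) 0 (y - sv v 0 N)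
    rw [sub_add_cancel] at h1
    rw [← h1]
    rfl
  rw [e2, e3]
  by_cases h : pos S N = y
  · rw [if_pos h, if_pos (e1.1 h)]
  · rw [if_neg h, if_neg fun h' => h (e1.2 h')]

theorem shr_zero79 (η : Env) : shr 0 0 η = η := W_7d29a1_Z.shr_zero 0 η

/-- The Gibbs weight. -/
theorem gp_wt0 (η : Env) (N : ℕ) (y : ℤ) (S : Finset ℕ) :
    gp μ η N y S = if pos S N = y then wt 0 (lam μ 0) 0 η 0 0 N S / Zt 0 (lam μ 0) 0 η N 0 (fun z => z = y) else 0 := by
  have h1 := gp_wt (μ := μ) 0 η N y S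
  have e1 : sv 0 0 N = 0 := by simp [sv]
  have e2 : px 0 S N = pos S N := by simp [px, sv]
  rw [shr_zero79, dv_zero, e1, e2, sub_zero] at h1
  exact h1

/-- The kernel of a region which only restricts the rows `J`. -/
theorem WR_KJ (v : ℕ → ℤ) (η : Env) {a b : ℕ} (hab : a ≤ b) {J : Finset ℕ} (hJ : ∀ i ∈ J, a < i ∧ i < b) (C : ℕ → ℤ → Prop)
    (R : Set Pt) (hR : ∀ (t : ℕ) (z : ℤ), (((t : ℤ), z) : Pt) ∈ R ↔ (t ∈ J → C t z)) (x y : ℤ) :
    WR μ 0 R (shr 0 v η) ((a : ℤ), x + sv v 0 a) (b - a) (y + sv v 0 b - (x + sv v 0 a)) =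
      KJ 0 (lam μ 0) (dv v) η J (fun t z => C t (z + sv v 0 t)) a x b y := by
  classical
  rw [W_7d29a1_Z.WR_eq_Kc, Nat.add_sub_cancel' hab]
  unfold W_7d29a1_Z.Kc KJ
  have hset : ∀ S : Finset ℕ, S ⊆ Ico a b →
      ((W_7d29a1_Z.ps 0 a (x + sv v 0 a) S b = x + sv v 0 a + (y + sv v 0 b - (x + sv v 0 a)) ∧
        W_7d29a1_Z.Reg R 0 a (x + sv v 0 a) b S) ↔
        (ps (dv v) x a S b = y ∧ ∀ t ∈ J, C t (ps (dv v) x a S t + sv v 0 t))) := by
    intro S _
    have hpos : ∀ t, a ≤ t → W_7d29a1_Z.ps 0 a (x + sv v 0 a) S t = ps (dv v) x a S t + sv v 0 t := by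
      intro t ht
      rw [ps_dv v ht]
      have h1 := W_7d29a1_Z.sv_split v (Nat.zero_le a) ht
      unfold W_7d29a1_Z.ps ps
      simp only [Pi.zero_apply]
      linarith
    rw [hpos b hab]
    constructor
    · rintro ⟨h1, h2⟩
      refine ⟨by linarith, fun t ht => ?_⟩
      have h3 := h2 t (mem_Ioc.2 ⟨(hJ t ht).1, (hJ t ht).2.le⟩)
      rw [hR, hpos t (hJ t ht).1.le] at h3
      exact h3 ht
    · rintro ⟨h1, h2⟩
      refine ⟨by linarith, fun t ht => ?_⟩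
      rw [mem_Ioc] at ht
      rw [hR, hpos t ht.1.le]
      exact fun h => h2 t h
  refine sum_congr ?_ fun S hS => ?_
  · ext S
    constructor
    · intro hS
      have h1 := mem_filter.1 hS
      have h2 := W_7d29a1_Z.mem_pcs.1 h1.1
      exact mem_filter.2 ⟨mem_powerset.2 h2.1, (hset S h2.1).1 ⟨h2.2, h1.2⟩⟩
    · intro hS
      have h1 := mem_filter.1 hS
      have h2 := (hset S (mem_powerset.1 h1.1)).2 h1.2
      exact mem_filter.2 ⟨W_7d29a1_Z.mem_pcs.2 ⟨mem_powerset.1 h1.1, h2.1⟩, h2.2⟩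
  · rw [wt_dv0, wt_eq hab]

/-- Events with a quenched bound under `P2`. -/
theorem P2_quenched79 [IsProbabilityMeasure μ] {N : ℕ} {y : ℤ} {v : ℕ → ℤ} {A : Env → Finset ℕ → Finset ℕ → Prop}
    (hA : ∀ S S', MeasurableSet {η | A η S S'}) {e : ℝ}
    (h : ∀ η, ∑ S ∈ (range N).powerset, ∑ S' ∈ (range N).powerset,
      (open Classical in if A η S S' then gp μ η N y S * gp μ (shr 0 v η) N y S' else 0) ≤ e) :
    W_7d29a1_Z.P2 μ N y v A ≤ ENNReal.ofReal e := by
  classical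
  have hsm : Measurable (shr 0 v) := measurable_pi_iff.2 fun p => measurable_pi_apply _
  have hm : ∀ S S', Measurable fun η : Env => if A η S S' then gp μ η N y S * gp μ (shr 0 v η) N y S' else 0 := fun S S' =>
    Measurable.ite (hA S S') ((W_7d29a1_Z.gp_meas36 N y S).mul ((W_7d29a1_Z.gp_meas36 N y S').comp hsm)) measurable_const
  have h0 : ∀ S S' (η : Env), 0 ≤ if A η S S' then gp μ η N y S * gp μ (shr 0 v η) N y S' else 0 := fun S S' η => by
    split_ifs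
    · exact mul_nonneg (W_7d29a1_Z.gp_nonneg36 _ _ _ _) (W_7d29a1_Z.gp_nonneg36 _ _ _ _)
    · exact le_rfl
  have e1 : W_7d29a1_Z.P2 μ N y v A = ∫⁻ η, ∑ S ∈ (range N).powerset, ∑ S' ∈ (range N).powerset,
      ENNReal.ofReal (if A η S S' then gp μ η N y S * gp μ (shr 0 v η) N y S' else 0) ∂(law μ) := by
    rw [lintegral_finsetSum _ fun S _ => Finset.measurable_sum _ fun S' _ => (hm S S').ennreal_ofReal]
    unfold W_7d29a1_Z.P2
    refine sum_congr rfl fun S _ => ?_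
    rw [lintegral_finsetSum _ fun S' _ => (hm S S').ennreal_ofReal]
    refine sum_congr rfl fun S' _ => ?_
    rw [withDensity_apply _ (hA S S'), ← lintegral_indicator (hA S S')]
    refine lintegral_congr fun η => ?_
    by_cases hη : A η S S'
    · rw [Set.indicator_of_mem (show η ∈ {η | A η S S'} from hη), if_pos hη]
    · rw [Set.indicator_of_notMem (show η ∉ {η | A η S S'} from hη), if_neg hη, ENNReal.ofReal_zero]
  rw [e1]
  have e2 : ∀ η : Env, ∑ S ∈ (range N).powerset, ∑ S' ∈ (range N).powerset,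
      ENNReal.ofReal (if A η S S' then gp μ η N y S * gp μ (shr 0 v η) N y S' else 0) ≤ ENNReal.ofReal e := by
    intro η
    have e3 : ∑ S ∈ (range N).powerset, ∑ S' ∈ (range N).powerset,
        ENNReal.ofReal (if A η S S' then gp μ η N y S * gp μ (shr 0 v η) N y S' else 0) =
        ENNReal.ofReal (∑ S ∈ (range N).powerset, ∑ S' ∈ (range N).powerset,
          if A η S S' then gp μ η N y S * gp μ (shr 0 v η) N y S' else 0) := by
      rw [ENNReal.ofReal_sum_of_nonneg fun S _ => sum_nonneg fun S' _ => h0 S S' η]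
      refine sum_congr rfl fun S _ => ?_
      rw [ENNReal.ofReal_sum_of_nonneg fun S' _ => h0 S S' η]
    rw [e3]
    exact ENNReal.ofReal_le_ofReal (h η)
  calc ∫⁻ η, ∑ S ∈ (range N).powerset, ∑ S' ∈ (range N).powerset,
      ENNReal.ofReal (if A η S S' then gp μ η N y S * gp μ (shr 0 v η) N y S' else 0) ∂(law μ)
      ≤ ∫⁻ _η, ENNReal.ofReal e ∂(law μ) := lintegral_mono e2
    _ = ENNReal.ofReal e := by
      rw [lintegral_const, measure_univ, mul_one]

end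

end Pool.Agent.W_7d29a1_Z79
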