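import Pool.Agent.W_7d29a1_Z79.SkelJ

/-!
# STORM Z, Lemma 4.2 (iii) of row 664: the Markov depth with the classes `L_J`, `R_J`

`depth3` (abstract, half brackets), `depthQ` (paths): `S` of the system `(d, η)`, `S'` of the system `(d', η')`, independent. Outside
product probability `3 #B / T`, at every bracket of the finite family `B` which both visit, `S` in the class `A` and `S'` in the class
`AR` at the rows `J` (outside the pieces): `exp (X(S) - X(S')) K_A ≤ T ^ 3 K_AR`, where `K_A`, `K_AR` are kernels of the FIRST system and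
`exp X(S) = ∏ rq`, `exp (- X(S')) = ∏ rq` (inverse ratios). (helper79)
-/

set_option autoImplicit false

namespace Pool.Agent.W_7d29a1_Z79

open Finset

noncomputable section

variable {α α' β β' γ γ' : Type*}

theorem depth3 {κ : Type*} (B : Finset κ) {Ω : Finset α} {Ω' : Finset α'} {W : α → ℝ} {W' : α' → ℝ}
    (b : κ → HB Ω W β γ) (b' : κ → HB Ω' W' β' γ')
    (hW0 : ∀ S ∈ Ω, 0 ≤ W S) (hW0' : ∀ S ∈ Ω', 0 ≤ W' S) {T : ℝ} (hT : 0 < T)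
    (L R : κ → Finset γ) (L' R' : κ → Finset γ') (hL : ∀ k ∈ B, L k ⊆ (b k).I)
    (hL' : ∀ k ∈ B, L' k ⊆ (b' k).I) (hR' : ∀ k ∈ B, R' k ⊆ (b' k).I)
    (e : κ → γ → ℝ) (v : κ → γ' → ℝ) (e0 : ∀ k ∈ B, ∀ s ∈ L k, 0 ≤ e k s) (v0 : ∀ k ∈ B, ∀ s ∈ R' k, 0 ≤ v k s)
    (he : ∀ k ∈ B, ∑ s ∈ L k, (b k).u s * e k s ≤ (b' k).K (L' k))
    (hv : ∀ k ∈ B, ∑ s ∈ R' k, (b' k).u s * v k s ≤ (b k).K (R k))
    (P : α × α' → Prop) [DecidablePred P]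
    (hP : ∀ q, P q → ∃ k ∈ B, ∃ s ∈ L k, ∃ s' ∈ R' k, (b k).In q.1 s ∧ (b' k).In q.2 s' ∧
      T ^ 3 * (b k).K (R k) < e k s * v k s' * (b k).K (L k)) :
    T * ∑ q ∈ (Ω ×ˢ Ω') with P q, W q.1 * W' q.2 ≤ 3 * B.card * ((∑ S ∈ Ω, W S) * ∑ S ∈ Ω', W' S) := by
  classical
  set Z := ∑ S ∈ Ω, W S with hZ
  set Z' := ∑ S ∈ Ω', W' S with hZ'
  have hZ0 : 0 ≤ Z := sum_nonneg hW0
  have hZ0' : 0 ≤ Z' := sum_nonneg hW0'
  have hnn : ∀ q ∈ Ω ×ˢ Ω', 0 ≤ W q.1 * W' q.2 := by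
    intro q hq
    rw [mem_product] at hq
    exact mul_nonneg (hW0 _ hq.1) (hW0' _ hq.2)
  obtain ⟨P1, hP1⟩ : ∃ F : κ → α → Prop, ∀ k S, F k S ↔
      ∃ s ∈ L k, (b k).In S s ∧ T * (b' k).K (L' k) < e k s * (b k).K (L k) := ⟨_, fun _ _ => Iff.rfl⟩
  obtain ⟨P2, hP2⟩ : ∃ F : κ → α' → Prop, ∀ k S, F k S ↔
      ∃ s ∈ R' k, (b' k).In S s ∧ T * (b k).K (R k) < v k s * (b' k).K (R' k) := ⟨_, fun _ _ => Iff.rfl⟩
  obtain ⟨P3, hP3⟩ : ∃ F : κ → α' → Prop, ∀ k S, F k S ↔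
      (∃ s ∈ R' k, (b' k).In S s) ∧ T * (b' k).K (R' k) < (b' k).K (L' k) := ⟨_, fun _ _ => Iff.rfl⟩
  have hA : ∀ F : α → Prop, (T * ∑ S ∈ Ω with F S, W S ≤ Z) → ∀ P : α × α' → Prop, ∀ _ : DecidablePred P,
      (∀ q ∈ Ω ×ˢ Ω', P q → F q.1) → T * ∑ q ∈ (Ω ×ˢ Ω') with P q, W q.1 * W' q.2 ≤ Z * Z' := by
    intro F hF P _ hPF
    have h1 : ∑ q ∈ (Ω ×ˢ Ω') with P q, W q.1 * W' q.2 ≤ ∑ q ∈ (Ω.filter F) ×ˢ Ω', W q.1 * W' q.2 := by
      refine sum_le_sum_of_subset_of_nonneg ?_ ?_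
      · intro q hq
        rw [mem_filter] at hq
        have hq1 := hq.1
        rw [mem_product] at hq1
        rw [mem_product, mem_filter]
        exact ⟨⟨hq1.1, hPF q hq.1 hq.2⟩, hq1.2⟩
      · intro q hq _
        exact hnn q (product_subset_product_left (filter_subset _ _) hq)
    have h2 : ∑ q ∈ (Ω.filter F) ×ˢ Ω', W q.1 * W' q.2 = (∑ S ∈ Ω with F S, W S) * Z' := by
      rw [sum_product, ← sum_mul_sum]
    calc T * ∑ q ∈ (Ω ×ˢ Ω') with P q, W q.1 * W' q.2 ≤ T * ((∑ S ∈ Ω with F S, W S) * Z') := by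
          rw [← h2]
          exact mul_le_mul_of_nonneg_left h1 hT.le
      _ = (T * ∑ S ∈ Ω with F S, W S) * Z' := by ring
      _ ≤ Z * Z' := mul_le_mul_of_nonneg_right hF hZ0'
  have hB : ∀ F : α' → Prop, (T * ∑ S ∈ Ω' with F S, W' S ≤ Z') → ∀ P : α × α' → Prop, ∀ _ : DecidablePred P,
      (∀ q ∈ Ω ×ˢ Ω', P q → F q.2) → T * ∑ q ∈ (Ω ×ˢ Ω') with P q, W q.1 * W' q.2 ≤ Z * Z' := by
    intro F hF P _ hPF
    have h1 : ∑ q ∈ (Ω ×ˢ Ω') with P q, W q.1 * W' q.2 ≤ ∑ q ∈ Ω ×ˢ (Ω'.filter F), W q.1 * W' q.2 := by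
      refine sum_le_sum_of_subset_of_nonneg ?_ ?_
      · intro q hq
        rw [mem_filter] at hq
        have hq1 := hq.1
        rw [mem_product] at hq1
        rw [mem_product, mem_filter]
        exact ⟨hq1.1, hq1.2, hPF q hq.1 hq.2⟩
      · intro q hq _
        exact hnn q (product_subset_product_right (filter_subset _ _) hq)
    have h2 : ∑ q ∈ Ω ×ˢ (Ω'.filter F), W q.1 * W' q.2 = Z * ∑ S ∈ Ω' with F S, W' S := by
      rw [sum_product, ← sum_mul_sum]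
    calc T * ∑ q ∈ (Ω ×ˢ Ω') with P q, W q.1 * W' q.2 ≤ T * (Z * ∑ S ∈ Ω' with F S, W' S) := by
          rw [← h2]
          exact mul_le_mul_of_nonneg_left h1 hT.le
      _ = Z * (T * ∑ S ∈ Ω' with F S, W' S) := by ring
      _ ≤ Z * Z' := mul_le_mul_of_nonneg_left hF hZ0
  have key : ∀ k ∈ B, ∀ P : α × α' → Prop, ∀ _ : DecidablePred P,
      (∀ q ∈ Ω ×ˢ Ω', P q → P1 k q.1 ∨ P2 k q.2 ∨ P3 k q.2) →
      T * ∑ q ∈ (Ω ×ˢ Ω') with P q, W q.1 * W' q.2 ≤ 3 * (Z * Z') := by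
    intro k hk P _ hPk
    have g1 := hA (P1 k) ((b k).markov hW0 (hL k hk) (fun s hs => e0 k hk s hs) (he k hk) hT (P1 k)
      fun S _ h => (hP1 k S).1 h) (fun q => P1 k q.1) (fun _ => Classical.propDecidable _) fun q _ h => h
    have g2 := hB (P2 k) ((b' k).markov hW0' (hR' k hk) (fun s hs => v0 k hk s hs) (hv k hk) hT (P2 k)
      fun S _ h => (hP2 k S).1 h) (fun q => P2 k q.2) (fun _ => Classical.propDecidable _) fun q _ h => h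
    have g3 := hB (P3 k) ((b' k).choice hW0' (hR' k hk) (hL' k hk) hT (P3 k) fun S _ h => (hP3 k S).1 h)
      (fun q => P3 k q.2) (fun _ => Classical.propDecidable _) fun q _ h => h
    have hsub : (Ω ×ˢ Ω').filter P ⊆ (Ω ×ˢ Ω').filter (fun q => P1 k q.1) ∪
        ((Ω ×ˢ Ω').filter (fun q => P2 k q.2) ∪ (Ω ×ˢ Ω').filter (fun q => P3 k q.2)) := by
      intro q hq
      rw [mem_filter] at hq
      simp only [mem_union, mem_filter]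
      rcases hPk q hq.1 hq.2 with h | h | h
      · exact Or.inl ⟨hq.1, h⟩
      · exact Or.inr (Or.inl ⟨hq.1, h⟩)
      · exact Or.inr (Or.inr ⟨hq.1, h⟩)
    have hle : ∑ q ∈ (Ω ×ˢ Ω') with P q, W q.1 * W' q.2 ≤
        ∑ q ∈ (Ω ×ˢ Ω') with P1 k q.1, W q.1 * W' q.2 +
        (∑ q ∈ (Ω ×ˢ Ω') with P2 k q.2, W q.1 * W' q.2 + ∑ q ∈ (Ω ×ˢ Ω') with P3 k q.2, W q.1 * W' q.2) := by
      have hs1 : (Ω ×ˢ Ω').filter (fun q => P1 k q.1) ⊆ Ω ×ˢ Ω' := filter_subset _ _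
      have hs2 : (Ω ×ˢ Ω').filter (fun q => P2 k q.2) ∪ (Ω ×ˢ Ω').filter (fun q => P3 k q.2) ⊆ Ω ×ˢ Ω' :=
        union_subset (filter_subset _ _) (filter_subset _ _)
      refine (sum_le_sum_of_subset_of_nonneg hsub fun q hq _ => hnn q (union_subset hs1 hs2 hq)).trans ?_
      refine (sum_union_le79 hnn hs1).trans ?_
      exact add_le_add le_rfl (sum_union_le79 hnn (filter_subset _ _))
    have := mul_le_mul_of_nonneg_left hle hT.le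
    linarith
  have hfin := union_bound79 B hnn (T := T) (Z := 3 * (Z * Z'))
    (fun k q => P1 k q.1 ∨ P2 k q.2 ∨ P3 k q.2) (fun k hk P hd h => key k hk P hd h) hT P ?_
  · calc T * ∑ q ∈ (Ω ×ˢ Ω') with P q, W q.1 * W' q.2 ≤ B.card * (3 * (Z * Z')) := hfin
      _ = 3 * B.card * (Z * Z') := by ring
  · intro q _ hPq
    obtain ⟨k, hk, s, hs, s', hs', hin, hin', hlt⟩ := hP q hPq
    refine ⟨k, hk, ?_⟩
    by_contra hn
    rw [not_or, not_or] at hn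
    obtain ⟨n1, n2, n3⟩ := hn
    have a1 : e k s * (b k).K (L k) ≤ T * (b' k).K (L' k) := by
      by_contra h
      exact n1 ((hP1 _ _).2 ⟨s, hs, hin, not_le.1 h⟩)
    have a2 : v k s' * (b' k).K (R' k) ≤ T * (b k).K (R k) := by
      by_contra h
      exact n2 ((hP2 _ _).2 ⟨s', hs', hin', not_le.1 h⟩)
    have a3 : (b' k).K (L' k) ≤ T * (b' k).K (R' k) := by
      by_contra h
      exact n3 ((hP3 _ _).2 ⟨⟨s', hs', hin'⟩, not_le.1 h⟩)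
    have hv0 := v0 k hk s' hs'
    have : e k s * v k s' * (b k).K (L k) ≤ T ^ 3 * (b k).K (R k) := by
      calc e k s * v k s' * (b k).K (L k) = v k s' * (e k s * (b k).K (L k)) := by ring
        _ ≤ v k s' * (T * (b' k).K (L' k)) := mul_le_mul_of_nonneg_left a1 hv0
        _ ≤ v k s' * (T * (T * (b' k).K (R' k))) :=
            mul_le_mul_of_nonneg_left (mul_le_mul_of_nonneg_left a3 hT.le) hv0
        _ = T ^ 2 * (v k s' * (b' k).K (R' k)) := by ring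
        _ ≤ T ^ 2 * (T * (b k).K (R k)) := mul_le_mul_of_nonneg_left a2 (by positivity)
        _ = T ^ 3 * (b k).K (R k) := by ring
    exact absurd hlt (not_lt.2 this)

theorem PcQ.symm {d d' : ℕ → ℤ} {η η' : ℤ × ℤ → ℝ} {a b : ℕ} {Q : Finset (ℕ × ℕ)} (H : PcQ d d' η η' a b Q) :
    PcQ d' d η' η a b Q :=
  ⟨H.sub, H.dis, fun k h1 h2 h3 => (H.cov k h1 h2 h3).symm⟩

open scoped Classical in
/-- **The Markov depth** (Lemma 4.2 (iii)). -/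
theorem depthQ {κ : Type*} (B : Finset κ) (h c : ℝ) (d d' : ℕ → ℤ) (η η' : ℤ × ℤ → ℝ) (N : ℕ) (x0 x0' : ℤ)
    (E E' : ℤ → Prop) (i1 i2 : κ → ℕ) (x1 x2 : κ → ℤ) (Q : κ → Finset (ℕ × ℕ)) (J : κ → Finset ℕ) (A AR : κ → ℕ → ℤ → Prop)
    (h12 : ∀ k, i1 k ≤ i2 k) (h2N : ∀ k, i2 k ≤ N) (hQ : ∀ k, PcQ d d' η η' (i1 k) (i2 k) (Q k))
    (hJ : ∀ k, ∀ i ∈ J k, i1 k ≤ i ∧ i ≤ i2 k) (hout : ∀ k, ∀ i ∈ J k, ∀ q ∈ Q k, i ≤ q.1 ∨ q.2 ≤ i)
    {T : ℝ} (hT : 0 < T) (P : Finset ℕ × Finset ℕ → Prop)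
    (hP : ∀ q ∈ Om N x0 d E ×ˢ Om N x0' d' E', P q → ∃ k ∈ B,
      (ps d x0 0 q.1 (i1 k) = x1 k ∧ ps d x0 0 q.1 (i2 k) = x2 k ∧ ∀ t ∈ J k, A k t (ps d x0 0 q.1 t)) ∧
      (ps d' x0' 0 q.2 (i1 k) = x1 k ∧ ps d' x0' 0 q.2 (i2 k) = x2 k ∧ ∀ t ∈ J k, AR k t (ps d' x0' 0 q.2 t)) ∧
      T ^ 3 * KJ h c d η (J k) (AR k) (i1 k) (x1 k) (i2 k) (x2 k) <
        (∏ r ∈ Q k, rq h c d η d' η' r (ps d x0 0 q.1)) * (∏ r ∈ Q k, rq h c d' η' d η r (ps d' x0' 0 q.2)) *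
          KJ h c d η (J k) (A k) (i1 k) (x1 k) (i2 k) (x2 k)) :
    T * ∑ q ∈ (Om N x0 d E ×ˢ Om N x0' d' E') with P q, wt h c d η 0 x0 N q.1 * wt h c d' η' 0 x0' N q.2 ≤
      3 * B.card * (Zt h c d η N x0 E * Zt h c d' η' N x0' E') := by
  -- the product of the ratios in terms of the inner part
  have hpp : ∀ (k : κ) (dd : ℕ → ℤ) (y0 : ℤ) (S : Finset ℕ), ps dd y0 0 S (i1 k) = x1 k → ∀ t, i1 k ≤ t → t ≤ i2 k →
      ps dd (x1 k) (i1 k) (S ∩ Ico (i1 k) (i2 k)) t = ps dd y0 0 S t := by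
    intro k dd y0 S h1 t ht ht'
    rw [ps_split (Nat.zero_le (i1 k)) ht, h1]
    refine ps_congr ?_
    rw [inter_assoc, inter_eq_right.2 (Ico_subset_Ico le_rfl ht')]
  have hprod : ∀ (k : κ) (dd dd' : ℕ → ℤ) (ee ee' : ℤ × ℤ → ℝ) (y0 : ℤ) (S : Finset ℕ), ps dd y0 0 S (i1 k) = x1 k →
      ∏ r ∈ Q k, rq h c dd ee dd' ee' r (ps dd (x1 k) (i1 k) (S ∩ Ico (i1 k) (i2 k))) =
        ∏ r ∈ Q k, rq h c dd ee dd' ee' r (ps dd y0 0 S) := by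
    intro k dd dd' ee ee' y0 S h1
    refine prod_congr rfl fun r hr => ?_
    obtain ⟨b1, b2, b3⟩ := (hQ k).sub r hr
    exact rq_congr (hpp k dd y0 S h1 r.1 b1 (b2.trans b3)) (hpp k dd y0 S h1 r.2 (b1.trans b2) b3)
  set Pr : Finset ℕ × Finset ℕ → Prop := fun q => P q ∧ q ∈ Om N x0 d E ×ˢ Om N x0' d' E' with hPr
  have hset : (Om N x0 d E ×ˢ Om N x0' d' E').filter P = (Om N x0 d E ×ˢ Om N x0' d' E').filter Pr := by
    ext q
    rw [mem_filter, mem_filter]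
    exact ⟨fun hq => ⟨hq.1, hq.2, hq.1⟩, fun hq => ⟨hq.1, hq.2.1⟩⟩
  rw [hset]
  refine depth3 B (fun k => hb h c d η N x0 E (i1 k) (i2 k) (x1 k) (x2 k) (h12 k) (h2N k))
    (fun k => hb h c d' η' N x0' E' (i1 k) (i2 k) (x1 k) (x2 k) (h12 k) (h2N k))
    (fun S _ => (wt_pos _ _ _ _).le) (fun S _ => (wt_pos _ _ _ _).le) hT
    (fun k => (Ico (i1 k) (i2 k)).powerset.filter fun s =>
      ps d (x1 k) (i1 k) s (i2 k) = x2 k ∧ ∀ t ∈ J k, A k t (ps d (x1 k) (i1 k) s t))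
    (fun k => (Ico (i1 k) (i2 k)).powerset.filter fun s =>
      ps d (x1 k) (i1 k) s (i2 k) = x2 k ∧ ∀ t ∈ J k, AR k t (ps d (x1 k) (i1 k) s t))
    (fun k => (Ico (i1 k) (i2 k)).powerset.filter fun s =>
      ps d' (x1 k) (i1 k) s (i2 k) = x2 k ∧ ∀ t ∈ J k, A k t (ps d' (x1 k) (i1 k) s t))
    (fun k => (Ico (i1 k) (i2 k)).powerset.filter fun s =>
      ps d' (x1 k) (i1 k) s (i2 k) = x2 k ∧ ∀ t ∈ J k, AR k t (ps d' (x1 k) (i1 k) s t))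
    (fun k _ => ?_) (fun k _ => ?_) (fun k _ => ?_)
    (fun k s => ∏ r ∈ Q k, rq h c d η d' η' r (ps d (x1 k) (i1 k) s))
    (fun k s => ∏ r ∈ Q k, rq h c d' η' d η r (ps d' (x1 k) (i1 k) s))
    (fun k _ s _ => prod_nonneg fun _ _ => rq_nonneg _ _) (fun k _ s _ => prod_nonneg fun _ _ => rq_nonneg _ _)
    (fun k _ => ?_) (fun k _ => ?_) Pr ?_
  · intro s hs
    rw [mem_filter] at hs
    exact mem_filter.2 ⟨hs.1, hs.2.1⟩
  · intro s hs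
    rw [mem_filter] at hs
    exact mem_filter.2 ⟨hs.1, hs.2.1⟩
  · intro s hs
    rw [mem_filter] at hs
    exact mem_filter.2 ⟨hs.1, hs.2.1⟩
  · exact skelJ (x1 k) (x2 k) (h12 k) (hQ k) (A k) (hJ k) (hout k)
  · exact skelJ (x1 k) (x2 k) (h12 k) (hQ k).symm (AR k) (hJ k) (hout k)
  · intro q hq
    obtain ⟨hPq, hmem⟩ := hq
    have hm := hmem
    rw [mem_product] at hm
    obtain ⟨k, hk, ⟨a1, a2, a3⟩, ⟨b1, b2, b3⟩, hlt⟩ := hP q hmem hPq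
    have in1 := hb_in (h := h) (c := c) (η := η) (h12 k) (h2N k) hm.1 a1 a2
    have in2 := hb_in (h := h) (c := c) (η := η') (h12 k) (h2N k) hm.2 b1 b2
    refine ⟨k, hk, q.1 ∩ Ico (i1 k) (i2 k), ?_, q.2 ∩ Ico (i1 k) (i2 k), ?_, in1, in2, ?_⟩
    · have := in1.1
      refine mem_filter.2 ⟨(mem_filter.1 this).1, (mem_filter.1 this).2, fun t ht => ?_⟩
      rw [hpp k d x0 q.1 a1 t (hJ k t ht).1 (hJ k t ht).2]
      exact a3 t ht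
    · have := in2.1
      refine mem_filter.2 ⟨(mem_filter.1 this).1, (mem_filter.1 this).2, fun t ht => ?_⟩
      rw [hpp k d' x0' q.2 b1 t (hJ k t ht).1 (hJ k t ht).2]
      exact b3 t ht
    · show T ^ 3 * KJ h c d η (J k) (AR k) (i1 k) (x1 k) (i2 k) (x2 k) <
        (∏ r ∈ Q k, rq h c d η d' η' r (ps d (x1 k) (i1 k) (q.1 ∩ Ico (i1 k) (i2 k)))) *
        (∏ r ∈ Q k, rq h c d' η' d η r (ps d' (x1 k) (i1 k) (q.2 ∩ Ico (i1 k) (i2 k)))) *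
          KJ h c d η (J k) (A k) (i1 k) (x1 k) (i2 k) (x2 k)
      rw [hprod k d d' η η' x0 q.1 a1, hprod k d' d η' η x0' q.2 b1]
      exact hlt

end

end Pool.Agent.W_7d29a1_Z79
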