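import Mathlib

/-!
# STORM Z, (CL): the Markov depth (pure part)

`Ω` is a finite set of paths with two weights `W` (environment `w`) and `W'` (environment `w^V`, moving frame).
A `Br` (bracket) describes the paths which pass two given points `p`, `p'`: outer part `o ∈ O`, inner part in `L` (left of a line)
or in `R` (right of the line); the weights are products. With `KL, KR, KL', KR'` the inner partition functions and
`e s = u' s / u s = exp X(s)`: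

`depth` : for `S ~ W`, `S' ~ W'` independent, outside an event of probability `3 #B / T`, for every bracket of the family `B` such
that `S` is left and `S'` is right, `KL * e(S) ≤ T ^ 3 * (KR * e(S'))`, that is `KR / KL ≥ T ^ (-3) exp (X(S) - X(S'))`:
`S` is near tied. (helper79)
-/

set_option autoImplicit false

namespace Pool.Agent.W_7d29a1_Z79

open Finset

noncomputable section

variable {α β γ : Type*}

/-- A bracket of the finite path set `Ω` with the weights `W`, `W'`. -/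
structure Br (Ω : Finset α) (W W' : α → ℝ) (β γ : Type*) where
  O : Finset β
  L : Finset γ
  R : Finset γ
  gl : β → γ → α
  a : β → ℝ
  a' : β → ℝ
  u : γ → ℝ
  u' : γ → ℝ
  a0 : ∀ o ∈ O, 0 ≤ a o
  a0' : ∀ o ∈ O, 0 ≤ a' o
  u0 : ∀ s, (s ∈ L ∨ s ∈ R) → 0 < u s
  u0' : ∀ s, (s ∈ L ∨ s ∈ R) → 0 < u' s
  mem : ∀ o ∈ O, ∀ s, (s ∈ L ∨ s ∈ R) → gl o s ∈ Ω
  inj : ∀ o ∈ O, ∀ o' ∈ O, ∀ s s', (s ∈ L ∨ s ∈ R) → (s' ∈ L ∨ s' ∈ R) → gl o s = gl o' s' → o = o' ∧ s = s'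
  hW : ∀ o ∈ O, ∀ s, (s ∈ L ∨ s ∈ R) → W (gl o s) = a o * u s
  hW' : ∀ o ∈ O, ∀ s, (s ∈ L ∨ s ∈ R) → W' (gl o s) = a' o * u' s

namespace Br

variable {Ω : Finset α} {W W' : α → ℝ} (b : Br Ω W W' β γ)

/-- The partition function of the left inner parts. -/
def KL : ℝ := ∑ s ∈ b.L, b.u s
def KR : ℝ := ∑ s ∈ b.R, b.u s
def KL' : ℝ := ∑ s ∈ b.L, b.u' s
def KR' : ℝ := ∑ s ∈ b.R, b.u' s

/-- `exp X`. -/
def e (s : γ) : ℝ := b.u' s / b.u s

lemma KL0 : 0 ≤ b.KL := sum_nonneg fun s hs => (b.u0 s (Or.inl hs)).le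
lemma KR0 : 0 ≤ b.KR := sum_nonneg fun s hs => (b.u0 s (Or.inr hs)).le
lemma KL0' : 0 ≤ b.KL' := sum_nonneg fun s hs => (b.u0' s (Or.inl hs)).le
lemma KR0' : 0 ≤ b.KR' := sum_nonneg fun s hs => (b.u0' s (Or.inr hs)).le

lemma e_pos {s : γ} (h : s ∈ b.L ∨ s ∈ b.R) : 0 < b.e s := div_pos (b.u0' s h) (b.u0 s h)

/-- The sum of a nonnegative weight over glued paths is at most the sum over `Ω`. -/
lemma sum_glue_le {X : α → ℝ} (hX : ∀ S ∈ Ω, 0 ≤ X S) (I : Finset γ) (hI : ∀ s ∈ I, s ∈ b.L ∨ s ∈ b.R) :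
    ∑ o ∈ b.O, ∑ s ∈ I, X (b.gl o s) ≤ ∑ S ∈ Ω, X S := by
  classical
  rw [← sum_product']
  have h1 : ∑ q ∈ b.O ×ˢ I, X (b.gl q.1 q.2) = ∑ S ∈ (b.O ×ˢ I).image (fun q => b.gl q.1 q.2), X S := by
    rw [sum_image]
    intro q hq q' hq' h
    rw [coe_product, Set.mem_prod] at hq hq'
    obtain ⟨e1, e2⟩ := b.inj q.1 hq.1 q'.1 hq'.1 q.2 q'.2 (hI _ hq.2) (hI _ hq'.2) h
    exact Prod.ext e1 e2
  rw [h1]
  refine sum_le_sum_of_subset_of_nonneg ?_ fun S hS _ => hX S hS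
  intro S hS
  rw [mem_image] at hS
  obtain ⟨q, hq, rfl⟩ := hS
  rw [mem_product] at hq
  exact b.mem q.1 hq.1 q.2 (hI _ hq.2)

/-- `S` is left: its inner part is in `L`. -/
def Lf (S : α) (s : γ) : Prop := ∃ o ∈ b.O, s ∈ b.L ∧ b.gl o s = S
def Rt (S : α) (s : γ) : Prop := ∃ o ∈ b.O, s ∈ b.R ∧ b.gl o s = S

/-- The weight of a set of paths described by the inner parts. -/
lemma sum_filter_inner_le {X : α → ℝ} (hX : ∀ S ∈ Ω, 0 ≤ X S) (I : Finset γ) (hI : ∀ s ∈ I, s ∈ b.L ∨ s ∈ b.R)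
    (P : α → Prop) [DecidablePred P] (hP : ∀ S ∈ Ω, P S → ∃ o ∈ b.O, ∃ s ∈ I, b.gl o s = S) :
    ∑ S ∈ Ω with P S, X S ≤ ∑ o ∈ b.O, ∑ s ∈ I, X (b.gl o s) := by
  classical
  rw [← sum_product']
  have h1 : ∑ q ∈ b.O ×ˢ I, X (b.gl q.1 q.2) = ∑ S ∈ (b.O ×ˢ I).image (fun q => b.gl q.1 q.2), X S := by
    rw [sum_image]
    intro q hq q' hq' h
    rw [coe_product, Set.mem_prod] at hq hq'
    obtain ⟨e1, e2⟩ := b.inj q.1 hq.1 q'.1 hq'.1 q.2 q'.2 (hI _ hq.2) (hI _ hq'.2) h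
    exact Prod.ext e1 e2
  rw [h1]
  refine sum_le_sum_of_subset_of_nonneg ?_ ?_
  · intro S hS
    rw [mem_filter] at hS
    obtain ⟨o, ho, s, hs, h⟩ := hP S hS.1 hS.2
    rw [mem_image]
    exact ⟨(o, s), by rw [mem_product]; exact ⟨ho, hs⟩, h⟩
  · intro S hS _
    rw [mem_image] at hS
    obtain ⟨q, hq, rfl⟩ := hS
    rw [mem_product] at hq
    exact hX _ (b.mem q.1 hq.1 q.2 (hI _ hq.2))

/-- MARKOV, left: `e(S) > T KL' / KL` has `W` probability at most `1 / T`. -/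
theorem markovL (hW0 : ∀ S ∈ Ω, 0 ≤ W S) {T : ℝ} (hT : 0 < T) (P : α → Prop) [DecidablePred P]
    (hP : ∀ S ∈ Ω, P S → ∃ s, b.Lf S s ∧ T * b.KL' < b.e s * b.KL) :
    T * ∑ S ∈ Ω with P S, W S ≤ ∑ S ∈ Ω, W S := by
  classical
  set I := b.L.filter fun s => T * b.KL' < b.e s * b.KL with hIdef
  have hI : ∀ s ∈ I, s ∈ b.L ∨ s ∈ b.R := fun s hs => Or.inl (mem_filter.1 hs).1
  have h1 : ∑ S ∈ Ω with P S, W S ≤ ∑ o ∈ b.O, ∑ s ∈ I, W (b.gl o s) := by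
    refine b.sum_filter_inner_le hW0 I hI P fun S hS hPS => ?_
    obtain ⟨s, ⟨o, ho, hs, hg⟩, h⟩ := hP S hS hPS
    exact ⟨o, ho, s, mem_filter.2 ⟨hs, h⟩, hg⟩
  have h2 : ∑ o ∈ b.O, ∑ s ∈ b.L, W (b.gl o s) ≤ ∑ S ∈ Ω, W S :=
    b.sum_glue_le hW0 b.L fun s hs => Or.inl hs
  have e1 : ∑ o ∈ b.O, ∑ s ∈ I, W (b.gl o s) = (∑ o ∈ b.O, b.a o) * ∑ s ∈ I, b.u s := by
    rw [sum_mul]
    refine sum_congr rfl fun o ho => ?_
    rw [mul_sum]
    exact sum_congr rfl fun s hs => b.hW o ho s (hI s hs)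
  have e2 : ∑ o ∈ b.O, ∑ s ∈ b.L, W (b.gl o s) = (∑ o ∈ b.O, b.a o) * b.KL := by
    unfold KL
    rw [sum_mul]
    refine sum_congr rfl fun o ho => ?_
    rw [mul_sum]
    exact sum_congr rfl fun s hs => b.hW o ho s (Or.inl hs)
  have ha : 0 ≤ ∑ o ∈ b.O, b.a o := sum_nonneg b.a0
  -- the inner Markov inequality
  have h3 : T * ∑ s ∈ I, b.u s ≤ b.KL := by
    by_cases hne : I.Nonempty
    · have hLne : b.L.Nonempty := by
        obtain ⟨s, hs⟩ := hne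
        exact ⟨s, (mem_filter.1 hs).1⟩
      have hK' : 0 < b.KL' := sum_pos (fun s hs => b.u0' s (Or.inl hs)) hLne
      have h4 : ∑ s ∈ I, T * b.KL' * b.u s ≤ ∑ s ∈ I, b.u' s * b.KL := by
        refine sum_le_sum fun s hs => ?_
        have h5 := (mem_filter.1 hs).2
        have hu := b.u0 s (hI s hs)
        have h6 : b.u' s = b.e s * b.u s := by
          unfold e
          rw [div_mul_cancel₀ _ hu.ne']
        rw [h6]
        have := mul_le_mul_of_nonneg_right h5.le hu.le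
        linarith
      have h7 : ∑ s ∈ I, b.u' s * b.KL ≤ b.KL' * b.KL := by
        rw [← sum_mul]
        refine mul_le_mul_of_nonneg_right ?_ b.KL0
        unfold KL'
        exact sum_le_sum_of_subset_of_nonneg (filter_subset _ _) fun s hs _ => (b.u0' s (Or.inl hs)).le
      rw [← mul_sum] at h4
      have h8 : b.KL' * (T * ∑ s ∈ I, b.u s) ≤ b.KL' * b.KL := by
        calc b.KL' * (T * ∑ s ∈ I, b.u s) = T * b.KL' * ∑ s ∈ I, b.u s := by ring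
          _ ≤ _ := h4.trans h7
      exact le_of_mul_le_mul_left h8 hK'
    · rw [not_nonempty_iff_eq_empty] at hne
      rw [hne, sum_empty, mul_zero]
      exact b.KL0
  calc T * ∑ S ∈ Ω with P S, W S ≤ T * ((∑ o ∈ b.O, b.a o) * ∑ s ∈ I, b.u s) := by
        rw [← e1]
        exact mul_le_mul_of_nonneg_left h1 hT.le
    _ = (∑ o ∈ b.O, b.a o) * (T * ∑ s ∈ I, b.u s) := by ring
    _ ≤ (∑ o ∈ b.O, b.a o) * b.KL := mul_le_mul_of_nonneg_left h3 ha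
    _ = ∑ o ∈ b.O, ∑ s ∈ b.L, W (b.gl o s) := e2.symm
    _ ≤ _ := h2

/-- MARKOV, right: `1 / e(S') > T KR / KR'` has `W'` probability at most `1 / T`. -/
theorem markovR (hW0 : ∀ S ∈ Ω, 0 ≤ W' S) {T : ℝ} (hT : 0 < T) (P : α → Prop) [DecidablePred P]
    (hP : ∀ S ∈ Ω, P S → ∃ s, b.Rt S s ∧ T * (b.KR * b.e s) < b.KR') :
    T * ∑ S ∈ Ω with P S, W' S ≤ ∑ S ∈ Ω, W' S := by
  classical
  set I := b.R.filter fun s => T * (b.KR * b.e s) < b.KR' with hIdef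
  have hI : ∀ s ∈ I, s ∈ b.L ∨ s ∈ b.R := fun s hs => Or.inr (mem_filter.1 hs).1
  have h1 : ∑ S ∈ Ω with P S, W' S ≤ ∑ o ∈ b.O, ∑ s ∈ I, W' (b.gl o s) := by
    refine b.sum_filter_inner_le hW0 I hI P fun S hS hPS => ?_
    obtain ⟨s, ⟨o, ho, hs, hg⟩, h⟩ := hP S hS hPS
    exact ⟨o, ho, s, mem_filter.2 ⟨hs, h⟩, hg⟩
  have h2 : ∑ o ∈ b.O, ∑ s ∈ b.R, W' (b.gl o s) ≤ ∑ S ∈ Ω, W' S :=
    b.sum_glue_le hW0 b.R fun s hs => Or.inr hs
  have e1 : ∑ o ∈ b.O, ∑ s ∈ I, W' (b.gl o s) = (∑ o ∈ b.O, b.a' o) * ∑ s ∈ I, b.u' s := by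
    rw [sum_mul]
    refine sum_congr rfl fun o ho => ?_
    rw [mul_sum]
    exact sum_congr rfl fun s hs => b.hW' o ho s (hI s hs)
  have e2 : ∑ o ∈ b.O, ∑ s ∈ b.R, W' (b.gl o s) = (∑ o ∈ b.O, b.a' o) * b.KR' := by
    unfold KR'
    rw [sum_mul]
    refine sum_congr rfl fun o ho => ?_
    rw [mul_sum]
    exact sum_congr rfl fun s hs => b.hW' o ho s (Or.inr hs)
  have ha : 0 ≤ ∑ o ∈ b.O, b.a' o := sum_nonneg b.a0'
  have h3 : T * ∑ s ∈ I, b.u' s ≤ b.KR' := by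
    by_cases hne : I.Nonempty
    · have hRne : b.R.Nonempty := by
        obtain ⟨s, hs⟩ := hne
        exact ⟨s, (mem_filter.1 hs).1⟩
      have hK : 0 < b.KR := sum_pos (fun s hs => b.u0 s (Or.inr hs)) hRne
      have h4 : ∑ s ∈ I, T * b.KR * b.u' s ≤ ∑ s ∈ I, b.u s * b.KR' := by
        refine sum_le_sum fun s hs => ?_
        have h5 := (mem_filter.1 hs).2
        have hu := b.u0 s (hI s hs)
        have h6 : b.u' s = b.e s * b.u s := by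
          unfold e
          rw [div_mul_cancel₀ _ hu.ne']
        rw [h6]
        have := mul_le_mul_of_nonneg_right h5.le hu.le
        linarith
      have h7 : ∑ s ∈ I, b.u s * b.KR' ≤ b.KR * b.KR' := by
        rw [← sum_mul]
        refine mul_le_mul_of_nonneg_right ?_ b.KR0'
        unfold KR
        exact sum_le_sum_of_subset_of_nonneg (filter_subset _ _) fun s hs _ => (b.u0 s (Or.inr hs)).le
      rw [← mul_sum] at h4
      have h8 : b.KR * (T * ∑ s ∈ I, b.u' s) ≤ b.KR * b.KR' := by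
        calc b.KR * (T * ∑ s ∈ I, b.u' s) = T * b.KR * ∑ s ∈ I, b.u' s := by ring
          _ ≤ _ := h4.trans h7
      exact le_of_mul_le_mul_left h8 hK
    · rw [not_nonempty_iff_eq_empty] at hne
      rw [hne, sum_empty, mul_zero]
      exact b.KR0'
  calc T * ∑ S ∈ Ω with P S, W' S ≤ T * ((∑ o ∈ b.O, b.a' o) * ∑ s ∈ I, b.u' s) := by
        rw [← e1]
        exact mul_le_mul_of_nonneg_left h1 hT.le
    _ = (∑ o ∈ b.O, b.a' o) * (T * ∑ s ∈ I, b.u' s) := by ring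
    _ ≤ (∑ o ∈ b.O, b.a' o) * b.KR' := mul_le_mul_of_nonneg_left h3 ha
    _ = ∑ o ∈ b.O, ∑ s ∈ b.R, W' (b.gl o s) := e2.symm
    _ ≤ _ := h2

/-- CHOICE: if `T KR' < KL'` then the `W'` probability of the right paths is at most `1 / T`. -/
theorem choice (hW0 : ∀ S ∈ Ω, 0 ≤ W' S) {T : ℝ} (hT : 0 < T) (h : T * b.KR' ≤ b.KL') (P : α → Prop)
    [DecidablePred P] (hP : ∀ S ∈ Ω, P S → ∃ s, b.Rt S s) :
    T * ∑ S ∈ Ω with P S, W' S ≤ ∑ S ∈ Ω, W' S := by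
  classical
  have h1 : ∑ S ∈ Ω with P S, W' S ≤ ∑ o ∈ b.O, ∑ s ∈ b.R, W' (b.gl o s) := by
    refine b.sum_filter_inner_le hW0 b.R (fun s hs => Or.inr hs) P fun S hS hPS => ?_
    obtain ⟨s, o, ho, hs, hg⟩ := hP S hS hPS
    exact ⟨o, ho, s, hs, hg⟩
  have h2 : ∑ o ∈ b.O, ∑ s ∈ b.L, W' (b.gl o s) ≤ ∑ S ∈ Ω, W' S :=
    b.sum_glue_le hW0 b.L fun s hs => Or.inl hs
  have e1 : ∑ o ∈ b.O, ∑ s ∈ b.R, W' (b.gl o s) = (∑ o ∈ b.O, b.a' o) * b.KR' := by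
    unfold KR'
    rw [sum_mul]
    refine sum_congr rfl fun o ho => ?_
    rw [mul_sum]
    exact sum_congr rfl fun s hs => b.hW' o ho s (Or.inr hs)
  have e2 : ∑ o ∈ b.O, ∑ s ∈ b.L, W' (b.gl o s) = (∑ o ∈ b.O, b.a' o) * b.KL' := by
    unfold KL'
    rw [sum_mul]
    refine sum_congr rfl fun o ho => ?_
    rw [mul_sum]
    exact sum_congr rfl fun s hs => b.hW' o ho s (Or.inl hs)
  have ha : 0 ≤ ∑ o ∈ b.O, b.a' o := sum_nonneg b.a0'
  calc T * ∑ S ∈ Ω with P S, W' S ≤ T * ((∑ o ∈ b.O, b.a' o) * b.KR') := by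
        rw [← e1]
        exact mul_le_mul_of_nonneg_left h1 hT.le
    _ = (∑ o ∈ b.O, b.a' o) * (T * b.KR') := by ring
    _ ≤ (∑ o ∈ b.O, b.a' o) * b.KL' := mul_le_mul_of_nonneg_left h ha
    _ = ∑ o ∈ b.O, ∑ s ∈ b.L, W' (b.gl o s) := e2.symm
    _ ≤ _ := h2

end Br

lemma sum_union_le' [DecidableEq α] {Ω U V : Finset α} {f : α → ℝ} (hf : ∀ q ∈ Ω, 0 ≤ f q) (hU : U ⊆ Ω) (_hV : V ⊆ Ω) :
    ∑ q ∈ U ∪ V, f q ≤ ∑ q ∈ U, f q + ∑ q ∈ V, f q := by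
  rw [← sum_union_inter]
  have : 0 ≤ ∑ q ∈ U ∩ V, f q := sum_nonneg fun q hq => hf q (hU (mem_inter.1 hq).1)
  linarith

lemma sum_biUnion_le' {κ : Type*} [DecidableEq α] (B : Finset κ) {Ω : Finset α} (F : κ → Finset α) {f : α → ℝ}
    (hf : ∀ q ∈ Ω, 0 ≤ f q) (hF : ∀ k ∈ B, F k ⊆ Ω) :
    ∑ q ∈ B.biUnion F, f q ≤ ∑ k ∈ B, ∑ q ∈ F k, f q := by
  classical
  induction B using Finset.induction_on with
  | empty => simp
  | insert k B hk ih =>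
    rw [biUnion_insert, sum_insert hk]
    have ih' := ih fun k' hk' => hF k' (mem_insert_of_mem hk')
    refine (sum_union_le' hf (hF k (mem_insert_self _ _))
      (biUnion_subset.2 fun k' hk' => hF k' (mem_insert_of_mem hk'))).trans ?_
    exact add_le_add le_rfl ih'

/-- **(CL) Markov depth.** The pairs `(S, S')` such that for some bracket of the family `S` is left, `S'` is right and
`T ^ 3 KR e(S') < KL e(S)` have product weight at most `3 #B / T`. -/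
theorem depth {κ : Type*} (B : Finset κ) {Ω : Finset α} {W W' : α → ℝ} (b : κ → Br Ω W W' β γ)
    (hW0 : ∀ S ∈ Ω, 0 ≤ W S) (hW0' : ∀ S ∈ Ω, 0 ≤ W' S) {T : ℝ} (hT : 0 < T)
    (P : α × α → Prop) [DecidablePred P]
    (hP : ∀ q, P q → ∃ k ∈ B, ∃ s s', (b k).Lf q.1 s ∧ (b k).Rt q.2 s' ∧
      T ^ 3 * ((b k).KR * (b k).e s') < (b k).KL * (b k).e s) :
    T * ∑ q ∈ (Ω ×ˢ Ω) with P q, W q.1 * W' q.2 ≤ 3 * B.card * ((∑ S ∈ Ω, W S) * ∑ S ∈ Ω, W' S) := by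
  classical
  set Z := ∑ S ∈ Ω, W S with hZ
  set Z' := ∑ S ∈ Ω, W' S with hZ'
  have hZ0 : 0 ≤ Z := sum_nonneg hW0
  have hZ0' : 0 ≤ Z' := sum_nonneg hW0'
  let P1 : κ → α → Prop := fun k S => ∃ s, (b k).Lf S s ∧ T * (b k).KL' < (b k).e s * (b k).KL
  let P2 : κ → α → Prop := fun k S => ∃ s, (b k).Rt S s ∧ T * ((b k).KR * (b k).e s) < (b k).KR'
  let P3 : κ → α → Prop := fun k S => (∃ s, (b k).Rt S s) ∧ T * (b k).KR' ≤ (b k).KL'
  have hsub : (Ω ×ˢ Ω).filter P ⊆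
      B.biUnion (fun k => (Ω.filter (P1 k)) ×ˢ Ω) ∪
        (B.biUnion (fun k => Ω ×ˢ (Ω.filter (P2 k))) ∪ B.biUnion (fun k => Ω ×ˢ (Ω.filter (P3 k)))) := by
    intro q hq
    rw [mem_filter, mem_product] at hq
    obtain ⟨⟨hq1, hq2⟩, hPq⟩ := hq
    obtain ⟨k, hk, s, s', hs, hs', hlt⟩ := hP q hPq
    by_contra hn
    rw [mem_union, mem_union, not_or, not_or, mem_biUnion, mem_biUnion, mem_biUnion] at hn
    obtain ⟨n1, n2, n3⟩ := hn
    have m1 : ¬ P1 k q.1 := fun h => n1 ⟨k, hk, by rw [mem_product, mem_filter]; exact ⟨⟨hq1, h⟩, hq2⟩⟩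
    have m2 : ¬ P2 k q.2 := fun h => n2 ⟨k, hk, by rw [mem_product, mem_filter]; exact ⟨hq1, hq2, h⟩⟩
    have m3 : ¬ P3 k q.2 := fun h => n3 ⟨k, hk, by rw [mem_product, mem_filter]; exact ⟨hq1, hq2, h⟩⟩
    have a1 : (b k).e s * (b k).KL ≤ T * (b k).KL' := by
      by_contra h
      exact m1 ⟨s, hs, not_le.1 h⟩
    have a2 : (b k).KR' ≤ T * ((b k).KR * (b k).e s') := by
      by_contra h
      exact m2 ⟨s', hs', not_le.1 h⟩
    have a3 : (b k).KL' < T * (b k).KR' := by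
      by_contra h
      exact m3 ⟨⟨s', hs'⟩, not_lt.1 h⟩
    have a4 : (b k).KL * (b k).e s ≤ T ^ 3 * ((b k).KR * (b k).e s') := by
      calc (b k).KL * (b k).e s = (b k).e s * (b k).KL := mul_comm _ _
        _ ≤ T * (b k).KL' := a1
        _ ≤ T * (T * (b k).KR') := mul_le_mul_of_nonneg_left a3.le hT.le
        _ ≤ T * (T * (T * ((b k).KR * (b k).e s'))) :=
            mul_le_mul_of_nonneg_left (mul_le_mul_of_nonneg_left a2 hT.le) hT.le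
        _ = T ^ 3 * ((b k).KR * (b k).e s') := by ring
    exact absurd hlt (not_lt.2 a4)
  have hnn : ∀ q ∈ Ω ×ˢ Ω, 0 ≤ W q.1 * W' q.2 := by
    intro q hq
    rw [mem_product] at hq
    exact mul_nonneg (hW0 _ hq.1) (hW0' _ hq.2)
  have h1 : ∀ k ∈ B, T * ∑ q ∈ (Ω.filter (P1 k)) ×ˢ Ω, W q.1 * W' q.2 ≤ Z * Z' := by
    intro k _
    rw [sum_product, ← sum_mul_sum]
    have h := (b k).markovL hW0 hT (P1 k) fun S _ hS => hS
    calc T * ((∑ S ∈ Ω with P1 k S, W S) * Z') = (T * ∑ S ∈ Ω with P1 k S, W S) * Z' := by ring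
      _ ≤ Z * Z' := mul_le_mul_of_nonneg_right h hZ0'
  have h2 : ∀ k ∈ B, T * ∑ q ∈ Ω ×ˢ (Ω.filter (P2 k)), W q.1 * W' q.2 ≤ Z * Z' := by
    intro k _
    rw [sum_product, ← sum_mul_sum]
    have h := (b k).markovR hW0' hT (P2 k) fun S _ hS => hS
    calc T * (Z * ∑ S ∈ Ω with P2 k S, W' S) = Z * (T * ∑ S ∈ Ω with P2 k S, W' S) := by ring
      _ ≤ Z * Z' := mul_le_mul_of_nonneg_left h hZ0
  have h3 : ∀ k ∈ B, T * ∑ q ∈ Ω ×ˢ (Ω.filter (P3 k)), W q.1 * W' q.2 ≤ Z * Z' := by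
    intro k _
    rw [sum_product, ← sum_mul_sum]
    have h : T * ∑ S ∈ Ω with P3 k S, W' S ≤ Z' := by
      by_cases hc : T * (b k).KR' ≤ (b k).KL'
      · exact (b k).choice hW0' hT hc (P3 k) fun S _ hS => hS.1
      · have : Ω.filter (P3 k) = ∅ := by
          rw [filter_eq_empty_iff]
          exact fun S _ hS => hc hS.2
        rw [this, sum_empty, mul_zero]
        exact hZ0'
    calc T * (Z * ∑ S ∈ Ω with P3 k S, W' S) = Z * (T * ∑ S ∈ Ω with P3 k S, W' S) := by ring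
      _ ≤ Z * Z' := mul_le_mul_of_nonneg_left h hZ0
  have hf : ∀ q ∈ Ω ×ˢ Ω, 0 ≤ W q.1 * W' q.2 := hnn
  have g1 := sum_biUnion_le' B (fun k => (Ω.filter (P1 k)) ×ˢ Ω) hf
    (fun k _ => product_subset_product_left (filter_subset _ _))
  have g2 := sum_biUnion_le' B (fun k => Ω ×ˢ (Ω.filter (P2 k))) hf
    (fun k _ => product_subset_product_right (filter_subset _ _))
  have g3 := sum_biUnion_le' B (fun k => Ω ×ˢ (Ω.filter (P3 k))) hf
    (fun k _ => product_subset_product_right (filter_subset _ _))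
  have hle : ∑ q ∈ (Ω ×ˢ Ω) with P q, W q.1 * W' q.2 ≤
      ∑ k ∈ B, ∑ q ∈ (Ω.filter (P1 k)) ×ˢ Ω, W q.1 * W' q.2 +
        (∑ k ∈ B, ∑ q ∈ Ω ×ˢ (Ω.filter (P2 k)), W q.1 * W' q.2 +
          ∑ k ∈ B, ∑ q ∈ Ω ×ˢ (Ω.filter (P3 k)), W q.1 * W' q.2) := by
    have hU1 : B.biUnion (fun k => (Ω.filter (P1 k)) ×ˢ Ω) ⊆ Ω ×ˢ Ω :=
      biUnion_subset.2 fun k _ => product_subset_product_left (filter_subset _ _)
    have hU2 : B.biUnion (fun k => Ω ×ˢ (Ω.filter (P2 k))) ⊆ Ω ×ˢ Ω :=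
      biUnion_subset.2 fun k _ => product_subset_product_right (filter_subset _ _)
    have hU3 : B.biUnion (fun k => Ω ×ˢ (Ω.filter (P3 k))) ⊆ Ω ×ˢ Ω :=
      biUnion_subset.2 fun k _ => product_subset_product_right (filter_subset _ _)
    refine (sum_le_sum_of_subset_of_nonneg hsub fun q hq _ => ?_).trans ?_
    · rw [mem_union, mem_union] at hq
      rcases hq with h | h | h
      · exact hf q (hU1 h)
      · exact hf q (hU2 h)
      · exact hf q (hU3 h)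
    · refine (sum_union_le' hf hU1 (union_subset hU2 hU3)).trans ?_
      refine add_le_add g1 ?_
      exact (sum_union_le' hf hU2 hU3).trans (add_le_add g2 g3)
  have t1 : T * ∑ k ∈ B, ∑ q ∈ (Ω.filter (P1 k)) ×ˢ Ω, W q.1 * W' q.2 ≤ B.card * (Z * Z') := by
    rw [mul_sum]
    refine (sum_le_sum h1).trans ?_
    rw [sum_const, nsmul_eq_mul]
  have t2 : T * ∑ k ∈ B, ∑ q ∈ Ω ×ˢ (Ω.filter (P2 k)), W q.1 * W' q.2 ≤ B.card * (Z * Z') := by
    rw [mul_sum]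
    refine (sum_le_sum h2).trans ?_
    rw [sum_const, nsmul_eq_mul]
  have t3 : T * ∑ k ∈ B, ∑ q ∈ Ω ×ˢ (Ω.filter (P3 k)), W q.1 * W' q.2 ≤ B.card * (Z * Z') := by
    rw [mul_sum]
    refine (sum_le_sum h3).trans ?_
    rw [sum_const, nsmul_eq_mul]
  have hfin := mul_le_mul_of_nonneg_left hle hT.le
  rw [mul_add, mul_add] at hfin
  linarith

end

end Pool.Agent.W_7d29a1_Z79
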