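import Pool.Agent.W_7d29a1_Z79.SkelQ

/-!
# STORM Z: the skeleton lemma with conditions outside the pieces

`F` is a nonnegative function of the positions of the path which does not depend on the positions inside the pieces (`Loc`). (helper79)
-/

set_option autoImplicit false

namespace Pool.Agent.W_7d29a1_Z79

open Finset

noncomputable section

variable {h c : ℝ} {d d' : ℕ → ℤ} {η η' : ℤ × ℤ → ℝ}

/-- `F` does not depend on the positions in the interior of the pieces. -/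
def Loc (Q : Finset (ℕ × ℕ)) (a b : ℕ) (F : (ℕ → ℤ) → ℝ) : Prop :=
  ∀ p p' : ℕ → ℤ, (∀ t, a ≤ t → t ≤ b → (∀ q ∈ Q, t ≤ q.1 ∨ q.2 ≤ t) → p t = p' t) → F p = F p'

theorem wt_glue {a m b : ℕ} (h1 : a ≤ m) (h2 : m ≤ b) (x : ℤ) {s1 s2 : Finset ℕ} (hs1 : s1 ⊆ Ico a m) (hs2 : s2 ⊆ Ico m b)
    (dd : ℕ → ℤ) (ee : ℤ × ℤ → ℝ) :
    wt h c dd ee a x b (s1 ∪ s2) = wt h c dd ee a x m s1 * wt h c dd ee m (ps dd x a s1 m) b s2 := by
  rw [wt_split h1 h2, ps_congr (union_inter_left hs1 hs2 le_rfl), wt_congr (union_inter_left hs1 hs2 le_rfl),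
    wt_congr (union_inter_right hs1 hs2 le_rfl)]

theorem ps_glue_left {a m b t : ℕ} (x : ℤ) {s1 s2 : Finset ℕ} (hs1 : s1 ⊆ Ico a m) (hs2 : s2 ⊆ Ico m b) (ht : t ≤ m)
    (dd : ℕ → ℤ) : ps dd x a (s1 ∪ s2) t = ps dd x a s1 t :=
  ps_congr (union_inter_left hs1 hs2 ht)

theorem ps_glue_right {a m b t : ℕ} (h1 : a ≤ m) (x : ℤ) {s1 s2 : Finset ℕ} (hs1 : s1 ⊆ Ico a m) (hs2 : s2 ⊆ Ico m b)
    (ht : m ≤ t) (dd : ℕ → ℤ) : ps dd x a (s1 ∪ s2) t = ps dd (ps dd x a s1 m) m s2 t := by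
  rw [ps_split h1 ht, ps_congr (union_inter_left hs1 hs2 le_rfl), ps_congr (union_inter_right hs1 hs2 le_rfl)]

theorem skelJ_aux (n : ℕ) : ∀ Q : Finset (ℕ × ℕ), Q.card = n → ∀ (a b : ℕ) (x : ℤ), a ≤ b → PcQ d d' η η' a b Q →
    (∀ q ∈ Q, q.1 < q.2) → ∀ F : (ℕ → ℤ) → ℝ, (∀ p, 0 ≤ F p) → Loc Q a b F →
    ∑ s ∈ (Ico a b).powerset, wt h c d η a x b s * (∏ q ∈ Q, rq h c d η d' η' q (ps d x a s)) * F (ps d x a s) ≤
      ∑ s ∈ (Ico a b).powerset, wt h c d' η' a x b s * F (ps d' x a s) := by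
  classical
  induction n with
  | zero =>
    intro Q hQ a b x hab hP _ F _ hloc
    rw [card_eq_zero] at hQ
    subst hQ
    have H : ∀ k, a ≤ k → k < b → Agr d d' η η' k := fun k h1 h2 => hP.cov k h1 h2 fun q hq => absurd hq (notMem_empty _)
    refine le_of_eq (sum_congr rfl fun s _ => ?_)
    rw [prod_empty, mul_one, agr_wt H]
    congr 1
    exact hloc _ _ fun t h1 h2 _ => agr_ps h1 (fun k hk hk' => H k hk (by omega)) s
  | succ n ih =>
    intro Q hQ a b x hab hP hne F hF hloc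
    obtain ⟨q, hq, hmax⟩ := exists_max_image Q (fun q => q.2) (card_pos.1 (by omega))
    obtain ⟨q1, q2, q3⟩ := hP.sub q hq
    have hqlt := hne q hq
    have hqb : q.1 ≤ b := q2.trans q3
    have hlast : ∀ r ∈ Q.erase q, r.2 ≤ q.1 := by
      intro r hr
      rw [mem_erase] at hr
      rcases hP.dis q hq r hr.2 hr.1.symm with h1 | h1
      · have h2 := hmax r hr.2
        have h3 := hne r hr.2
        omega
      · exact h1
    have hagr : ∀ k, q.2 ≤ k → k < b → Agr d d' η η' k := by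
      intro k h1 h2
      refine hP.cov k (by omega) h2 fun r hr => ?_
      rintro ⟨-, h4⟩
      have := hmax r hr
      omega
    let F2 : (ℕ → ℤ) → ℝ := fun p => ∑ s ∈ (Ico q.1 b).powerset, wt h c d' η' q.1 (p q.1) b s *
      F (fun t => if t ≤ q.1 then p t else ps d' (p q.1) q.1 s t)
    have hF2 : ∀ p, 0 ≤ F2 p := fun p => sum_nonneg fun s _ => mul_nonneg (wt_pos _ _ _ _).le (hF _)
    have hF2loc : Loc (Q.erase q) a q.1 F2 := by
      intro p p' hpp
      have e0 : p q.1 = p' q.1 := hpp q.1 q1 le_rfl fun r hr => Or.inr (hlast r hr)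
      show ∑ s ∈ (Ico q.1 b).powerset, _ = ∑ s ∈ (Ico q.1 b).powerset, _
      refine sum_congr rfl fun s _ => ?_
      rw [e0]
      congr 1
      refine hloc _ _ fun t h1 h2 h3 => ?_
      by_cases ht : t ≤ q.1
      · rw [if_pos ht, if_pos ht]
        exact hpp t h1 ht fun r hr => h3 r (mem_of_mem_erase hr)
      · rw [if_neg ht, if_neg ht]
    have hlastle : ∀ p : ℕ → ℤ, ∑ s ∈ (Ico q.1 b).powerset, wt h c d η q.1 (p q.1) b s *
        (Kn h c d' η' q.1 (p q.1) q.2 (ps d (p q.1) q.1 s q.2) / Kn h c d η q.1 (p q.1) q.2 (ps d (p q.1) q.1 s q.2)) *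
        F (fun t => if t ≤ q.1 then p t else ps d (p q.1) q.1 s t) ≤ F2 p := by
      intro p
      show _ ≤ ∑ s ∈ (Ico q.1 b).powerset, wt h c d' η' q.1 (p q.1) b s *
        F (fun t => if t ≤ q.1 then p t else ps d' (p q.1) q.1 s t)
      rw [sum_cut q2 q3, sum_cut q2 q3]
      let F3 : ℤ → ℝ := fun y => ∑ s ∈ (Ico q.2 b).powerset, wt h c d' η' q.2 y b s *
        F (fun t => if t ≤ q.1 then p t else ps d' y q.2 s t)
      have hF3 : ∀ y, 0 ≤ F3 y := fun y => sum_nonneg fun s _ => mul_nonneg (wt_pos _ _ _ _).le (hF _)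
      have key : ∀ s2 ∈ (Ico q.1 q.2).powerset, ∀ s3 ∈ (Ico q.2 b).powerset, ∀ dd : ℕ → ℤ,
          F (fun t => if t ≤ q.1 then p t else ps dd (p q.1) q.1 (s2 ∪ s3) t) =
            F (fun t => if t ≤ q.1 then p t else ps dd (ps dd (p q.1) q.1 s2 q.2) q.2 s3 t) := by
        intro s2 hs2 s3 hs3 dd
        rw [mem_powerset] at hs2 hs3
        refine hloc _ _ fun t h1 h2 h3 => ?_
        by_cases ht : t ≤ q.1
        · rw [if_pos ht, if_pos ht]
        · rw [if_neg ht, if_neg ht]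
          have h4 : q.2 ≤ t := by
            rcases h3 q hq with h5 | h5
            · exact absurd h5 ht
            · exact h5
          exact ps_glue_right q2 _ hs2 hs3 h4 dd
      have hR : ∑ s2 ∈ (Ico q.1 q.2).powerset, ∑ s3 ∈ (Ico q.2 b).powerset,
          wt h c d' η' q.1 (p q.1) b (s2 ∪ s3) * F (fun t => if t ≤ q.1 then p t else ps d' (p q.1) q.1 (s2 ∪ s3) t) =
          ∑ s2 ∈ (Ico q.1 q.2).powerset, wt h c d' η' q.1 (p q.1) q.2 s2 * F3 (ps d' (p q.1) q.1 s2 q.2) := by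
        refine sum_congr rfl fun s2 hs2 => ?_
        show _ = _ * ∑ s ∈ (Ico q.2 b).powerset, _
        rw [mul_sum]
        refine sum_congr rfl fun s3 hs3 => ?_
        rw [key s2 hs2 s3 hs3, wt_glue q2 q3 _ (mem_powerset.1 hs2) (mem_powerset.1 hs3)]
        ring
      have hL : ∑ s2 ∈ (Ico q.1 q.2).powerset, ∑ s3 ∈ (Ico q.2 b).powerset,
          wt h c d η q.1 (p q.1) b (s2 ∪ s3) *
          (Kn h c d' η' q.1 (p q.1) q.2 (ps d (p q.1) q.1 (s2 ∪ s3) q.2) /
            Kn h c d η q.1 (p q.1) q.2 (ps d (p q.1) q.1 (s2 ∪ s3) q.2)) *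
          F (fun t => if t ≤ q.1 then p t else ps d (p q.1) q.1 (s2 ∪ s3) t) =
          ∑ s2 ∈ (Ico q.1 q.2).powerset, wt h c d η q.1 (p q.1) q.2 s2 *
            (Kn h c d' η' q.1 (p q.1) q.2 (ps d (p q.1) q.1 s2 q.2) / Kn h c d η q.1 (p q.1) q.2 (ps d (p q.1) q.1 s2 q.2) *
              F3 (ps d (p q.1) q.1 s2 q.2)) := by
        refine sum_congr rfl fun s2 hs2 => ?_
        show _ = _ * (_ * ∑ s ∈ (Ico q.2 b).powerset, _)
        rw [mul_sum, mul_sum]
        refine sum_congr rfl fun s3 hs3 => ?_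
        have e5 : F (fun t => if t ≤ q.1 then p t else ps d (ps d (p q.1) q.1 s2 q.2) q.2 s3 t) =
            F (fun t => if t ≤ q.1 then p t else ps d' (ps d (p q.1) q.1 s2 q.2) q.2 s3 t) := by
          refine hloc _ _ fun t h1 h2 h3 => ?_
          by_cases ht : t ≤ q.1
          · rw [if_pos ht, if_pos ht]
          · rw [if_neg ht, if_neg ht]
            have h4 : q.2 ≤ t := by
              rcases h3 q hq with h5 | h5
              · exact absurd h5 ht
              · exact h5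
            exact agr_ps h4 (fun k hk hk' => hagr k hk (by omega)) s3
        rw [key s2 hs2 s3 hs3, e5, wt_glue q2 q3 _ (mem_powerset.1 hs2) (mem_powerset.1 hs3),
          ps_glue_left _ (mem_powerset.1 hs2) (mem_powerset.1 hs3) le_rfl, agr_wt hagr]
        ring
      rw [hR, hL]
      exact block_le q.1 q.2 (p q.1) hF3
    have hcut : PcQ d d' η η' a q.1 (Q.erase q) := by
      refine ⟨fun r hr => ?_, fun r hr r' hr' hne' => ?_, fun k h1 h2 h3 => ?_⟩
      · have h1 := hP.sub r (mem_of_mem_erase hr)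
        exact ⟨h1.1, h1.2.1, hlast r hr⟩
      · exact hP.dis r (mem_of_mem_erase hr) r' (mem_of_mem_erase hr') hne'
      · refine hP.cov k h1 (by omega) fun r hr => ?_
        by_cases hrq : r = q
        · rw [hrq]
          omega
        · exact h3 r (mem_erase.2 ⟨hrq, hr⟩)
    have IH := ih (Q.erase q) (by rw [card_erase_of_mem hq, hQ]; rfl) a q.1 x q1 hcut
      (fun r hr => hne r (mem_of_mem_erase hr)) F2 hF2 hF2loc
    rw [sum_cut q1 hqb, sum_cut q1 hqb]
    have hpos : ∀ s1 ∈ (Ico a q.1).powerset, ∀ s2 ∈ (Ico q.1 b).powerset, ∀ dd : ℕ → ℤ,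
        ps dd x a (s1 ∪ s2) = fun t => if t ≤ q.1 then ps dd x a s1 t else ps dd (ps dd x a s1 q.1) q.1 s2 t := by
      intro s1 hs1 s2 hs2 dd
      rw [mem_powerset] at hs1 hs2
      funext t
      by_cases ht : t ≤ q.1
      · rw [if_pos ht]
        exact ps_glue_left x hs1 hs2 ht dd
      · rw [if_neg ht]
        exact ps_glue_right q1 x hs1 hs2 (by omega) dd
    have hR : ∑ s1 ∈ (Ico a q.1).powerset, ∑ s2 ∈ (Ico q.1 b).powerset,
        wt h c d' η' a x b (s1 ∪ s2) * F (ps d' x a (s1 ∪ s2)) =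
        ∑ s1 ∈ (Ico a q.1).powerset, wt h c d' η' a x q.1 s1 * F2 (ps d' x a s1) := by
      refine sum_congr rfl fun s1 hs1 => ?_
      show _ = _ * ∑ s ∈ (Ico q.1 b).powerset, _
      rw [mul_sum]
      refine sum_congr rfl fun s2 hs2 => ?_
      rw [hpos s1 hs1 s2 hs2, wt_glue q1 hqb _ (mem_powerset.1 hs1) (mem_powerset.1 hs2)]
      ring
    rw [hR]
    refine le_trans ?_ IH
    refine sum_le_sum fun s1 hs1 => ?_
    have hs1' := mem_powerset.1 hs1
    have hprod : ∀ s2 ∈ (Ico q.1 b).powerset, ∏ r ∈ Q, rq h c d η d' η' r (ps d x a (s1 ∪ s2)) =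
        (∏ r ∈ Q.erase q, rq h c d η d' η' r (ps d x a s1)) *
          (Kn h c d' η' q.1 (ps d x a s1 q.1) q.2 (ps d (ps d x a s1 q.1) q.1 s2 q.2) /
            Kn h c d η q.1 (ps d x a s1 q.1) q.2 (ps d (ps d x a s1 q.1) q.1 s2 q.2)) := by
      intro s2 hs2
      have hs2' := mem_powerset.1 hs2
      rw [← prod_erase_mul Q _ hq]
      congr 1
      · refine prod_congr rfl fun r hr => ?_
        have h1 := hlast r hr
        have h2 := hP.sub r (mem_of_mem_erase hr)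
        exact rq_congr (ps_glue_left x hs1' hs2' (h2.2.1.trans h1) d) (ps_glue_left x hs1' hs2' h1 d)
      · unfold rq
        rw [ps_glue_left x hs1' hs2' le_rfl d, ps_glue_right q1 x hs1' hs2' q2 d]
    have e1 : ∑ s2 ∈ (Ico q.1 b).powerset, wt h c d η a x b (s1 ∪ s2) *
        (∏ r ∈ Q, rq h c d η d' η' r (ps d x a (s1 ∪ s2))) * F (ps d x a (s1 ∪ s2)) =
        wt h c d η a x q.1 s1 * (∏ r ∈ Q.erase q, rq h c d η d' η' r (ps d x a s1)) *
          ∑ s2 ∈ (Ico q.1 b).powerset, wt h c d η q.1 (ps d x a s1 q.1) b s2 *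
            (Kn h c d' η' q.1 (ps d x a s1 q.1) q.2 (ps d (ps d x a s1 q.1) q.1 s2 q.2) /
              Kn h c d η q.1 (ps d x a s1 q.1) q.2 (ps d (ps d x a s1 q.1) q.1 s2 q.2)) *
            F (fun t => if t ≤ q.1 then ps d x a s1 t else ps d (ps d x a s1 q.1) q.1 s2 t) := by
      rw [mul_sum]
      refine sum_congr rfl fun s2 hs2 => ?_
      rw [hprod s2 hs2, hpos s1 hs1 s2 hs2, wt_glue q1 hqb _ hs1' (mem_powerset.1 hs2)]
      ring
    rw [e1]
    exact mul_le_mul_of_nonneg_left (hlastle (ps d x a s1))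
      (mul_nonneg (wt_pos _ _ _ _).le (prod_nonneg fun _ _ => rq_nonneg _ _))

/-- **Skeleton lemma** with a function of the positions outside the pieces. -/
theorem skelJF {Q : Finset (ℕ × ℕ)} {a b : ℕ} (x : ℤ) (hab : a ≤ b) (hP : PcQ d d' η η' a b Q) {F : (ℕ → ℤ) → ℝ}
    (hF : ∀ p, 0 ≤ F p) (hloc : Loc Q a b F) :
    ∑ s ∈ (Ico a b).powerset, wt h c d η a x b s * (∏ q ∈ Q, rq h c d η d' η' q (ps d x a s)) * F (ps d x a s) ≤
      ∑ s ∈ (Ico a b).powerset, wt h c d' η' a x b s * F (ps d' x a s) := by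
  classical
  have hP' : PcQ d d' η η' a b (Q.filter fun q => q.1 < q.2) := by
    refine ⟨fun q hq => hP.sub q (mem_filter.1 hq).1,
      fun q hq r hr => hP.dis q (mem_filter.1 hq).1 r (mem_filter.1 hr).1, fun k h1 h2 h3 => ?_⟩
    refine hP.cov k h1 h2 fun q hq => ?_
    rintro ⟨h4, h5⟩
    exact h3 q (mem_filter.2 ⟨hq, by omega⟩) ⟨h4, h5⟩
  have hloc' : Loc (Q.filter fun q => q.1 < q.2) a b F := fun p p' hpp =>
    hloc p p' fun t h1 h2 h3 => hpp t h1 h2 fun q hq => h3 q (mem_filter.1 hq).1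
  have key := skelJ_aux (h := h) (c := c) _ (Q.filter fun q => q.1 < q.2) rfl a b x hab hP'
    (fun q hq => (mem_filter.1 hq).2) F hF hloc'
  refine le_trans (le_of_eq ?_) key
  refine sum_congr rfl fun s _ => ?_
  congr 2
  symm
  refine prod_subset (filter_subset _ _) fun q hq hq' => ?_
  have h1 := (hP.sub q hq).2.1
  have h2 : q.1 = q.2 := by
    by_contra hne
    exact hq' (mem_filter.2 ⟨hq, by omega⟩)
  unfold rq
  rw [← h2, Kn_self, Kn_self, div_one]

/-- The kernel with a condition `A i` on the position at the rows `i ∈ J`. -/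
def KJ (h c : ℝ) (d : ℕ → ℤ) (η : ℤ × ℤ → ℝ) (J : Finset ℕ) (A : ℕ → ℤ → Prop) (i : ℕ) (x : ℤ) (j : ℕ) (z : ℤ) : ℝ := by
  classical
  exact ∑ s ∈ (Ico i j).powerset with ps d x i s j = z ∧ ∀ t ∈ J, A t (ps d x i s t), wt h c d η i x j s

open scoped Classical in
/-- **Skeleton lemma**, point to point, with conditions at the rows `J` outside the pieces. -/
theorem skelJ {Q : Finset (ℕ × ℕ)} {a b : ℕ} (x y : ℤ) (hab : a ≤ b) (hP : PcQ d d' η η' a b Q) {J : Finset ℕ}
    (A : ℕ → ℤ → Prop) (hJ : ∀ i ∈ J, a ≤ i ∧ i ≤ b) (hout : ∀ i ∈ J, ∀ q ∈ Q, i ≤ q.1 ∨ q.2 ≤ i) :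
    ∑ s ∈ (Ico a b).powerset with ps d x a s b = y ∧ ∀ t ∈ J, A t (ps d x a s t),
      wt h c d η a x b s * ∏ q ∈ Q, rq h c d η d' η' q (ps d x a s) ≤ KJ h c d' η' J A a x b y := by
  by_cases hb : ∀ q ∈ Q, b ≤ q.1 ∨ q.2 ≤ b
  · have key := skelJF (h := h) (c := c) x hab hP (F := fun p => if p b = y ∧ ∀ t ∈ J, A t (p t) then 1 else 0)
      (fun z => by split_ifs <;> norm_num) (by
        intro p p' hpp
        have e1 : p b = p' b := hpp b hab le_rfl hb
        have e2 : ∀ t ∈ J, p t = p' t := fun t ht => hpp t (hJ t ht).1 (hJ t ht).2 (hout t ht)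
        have e3 : (p b = y ∧ ∀ t ∈ J, A t (p t)) ↔ (p' b = y ∧ ∀ t ∈ J, A t (p' t)) := by
          rw [e1]
          exact and_congr Iff.rfl (forall₂_congr fun t ht => by rw [e2 t ht])
        simp only [e3])
    unfold KJ
    rw [sum_filter, sum_filter]
    refine le_trans (le_of_eq ?_) (key.trans (le_of_eq ?_))
    · refine sum_congr rfl fun s _ => ?_
      split_ifs
      · rw [mul_one]
      · rw [mul_zero]
    · refine sum_congr rfl fun s _ => ?_
      split_ifs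
      · rw [mul_one]
      · rw [mul_zero]
  · exfalso
    exact hb fun q hq => Or.inr (hP.sub q hq).2.2

end

end Pool.Agent.W_7d29a1_Z79
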