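import Mathlib

/-!
# STORM Z, (CL) / (TIE): the Markov depth, two path sets (pure part)

`HB Ω W` (half bracket) describes the paths of the finite set `Ω` which pass two given points: outer parts `O`, inner parts `I`,
gluing `gl`, the weight of a glued path is `a o * u s`. For `S ~ W` on `Ω` and `S' ~ W'` on `Ω'` (independent), half brackets `b` of `Ω` and
`b'` of `Ω'` with the total inner sums `K`, `K'`, `L ⊆ I` (left inner parts of `S`), `R' ⊆ I'` (right inner parts of `S'`),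
`e = exp X(S)` with `∑_I u e ≤ K'` and `v = exp (- X(S'))` with `∑_I' u' v ≤ K`:

`tie` : outside product probability `4 #B / T`, at every bracket with `S` in `L`, `S'` in `R'`:
`e(S) KL ≤ T ^ 2 KR'` and `v(S') KR' ≤ T ^ 2 KL`. (helper79)
-/

set_option autoImplicit false

namespace Pool.Agent.W_7d29a1_Z79

open Finset

noncomputable section

variable {α α' β β' γ γ' : Type*}

/-- A half bracket: the paths of `Ω` through two given points. -/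
structure HB (Ω : Finset α) (W : α → ℝ) (β γ : Type*) where
  O : Finset β
  I : Finset γ
  gl : β → γ → α
  a : β → ℝ
  u : γ → ℝ
  a0 : ∀ o ∈ O, 0 ≤ a o
  u0 : ∀ s ∈ I, 0 < u s
  mem : ∀ o ∈ O, ∀ s ∈ I, gl o s ∈ Ω
  inj : ∀ o ∈ O, ∀ o' ∈ O, ∀ s ∈ I, ∀ s' ∈ I, gl o s = gl o' s' → o = o' ∧ s = s'
  hW : ∀ o ∈ O, ∀ s ∈ I, W (gl o s) = a o * u s

namespace HB

variable {Ω : Finset α} {W : α → ℝ} (b : HB Ω W β γ)

/-- `s` is the inner part of `S`. -/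
def In (S : α) (s : γ) : Prop := s ∈ b.I ∧ ∃ o ∈ b.O, b.gl o s = S

/-- The sum of the weights of the inner parts in `J`. -/
def K (J : Finset γ) : ℝ := ∑ s ∈ J, b.u s

lemma K0 {J : Finset γ} (hJ : J ⊆ b.I) : 0 ≤ b.K J := sum_nonneg fun s hs => (b.u0 s (hJ hs)).le

lemma K_mono {J J' : Finset γ} (hJ : J ⊆ J') (hJ' : J' ⊆ b.I) : b.K J ≤ b.K J' :=
  sum_le_sum_of_subset_of_nonneg hJ fun s hs _ => (b.u0 s (hJ' hs)).le

/-- The weight of the paths with inner part in `J` is at most the total weight. -/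
lemma glue_le (hW0 : ∀ S ∈ Ω, 0 ≤ W S) {J : Finset γ} (hJ : J ⊆ b.I) :
    (∑ o ∈ b.O, b.a o) * b.K J ≤ ∑ S ∈ Ω, W S := by
  classical
  have h0 : (∑ o ∈ b.O, b.a o) * b.K J = ∑ q ∈ b.O ×ˢ J, W (b.gl q.1 q.2) := by
    unfold K
    rw [sum_mul_sum, ← sum_product']
    refine sum_congr rfl fun q hq => ?_
    rw [mem_product] at hq
    exact (b.hW q.1 hq.1 q.2 (hJ hq.2)).symm
  have h1 : ∑ q ∈ b.O ×ˢ J, W (b.gl q.1 q.2) = ∑ S ∈ (b.O ×ˢ J).image (fun q => b.gl q.1 q.2), W S := by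
    rw [sum_image]
    intro q hq q' hq' h
    rw [coe_product, Set.mem_prod] at hq hq'
    obtain ⟨e1, e2⟩ := b.inj q.1 hq.1 q'.1 hq'.1 q.2 (hJ hq.2) q'.2 (hJ hq'.2) h
    exact Prod.ext e1 e2
  rw [h0, h1]
  refine sum_le_sum_of_subset_of_nonneg ?_ fun S hS _ => hW0 S hS
  intro S hS
  rw [mem_image] at hS
  obtain ⟨q, hq, rfl⟩ := hS
  rw [mem_product] at hq
  exact b.mem q.1 hq.1 q.2 (hJ hq.2)

/-- The weight of a set of paths with inner parts in `J`. -/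
lemma filter_le (hW0 : ∀ S ∈ Ω, 0 ≤ W S) {J : Finset γ} (hJ : J ⊆ b.I) (P : α → Prop) [DecidablePred P]
    (hP : ∀ S ∈ Ω, P S → ∃ s ∈ J, b.In S s) :
    ∑ S ∈ Ω with P S, W S ≤ (∑ o ∈ b.O, b.a o) * b.K J := by
  classical
  have h0 : (∑ o ∈ b.O, b.a o) * b.K J = ∑ q ∈ b.O ×ˢ J, W (b.gl q.1 q.2) := by
    unfold K
    rw [sum_mul_sum, ← sum_product']
    refine sum_congr rfl fun q hq => ?_
    rw [mem_product] at hq
    exact (b.hW q.1 hq.1 q.2 (hJ hq.2)).symm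
  have h1 : ∑ q ∈ b.O ×ˢ J, W (b.gl q.1 q.2) = ∑ S ∈ (b.O ×ˢ J).image (fun q => b.gl q.1 q.2), W S := by
    rw [sum_image]
    intro q hq q' hq' h
    rw [coe_product, Set.mem_prod] at hq hq'
    obtain ⟨e1, e2⟩ := b.inj q.1 hq.1 q'.1 hq'.1 q.2 (hJ hq.2) q'.2 (hJ hq'.2) h
    exact Prod.ext e1 e2
  rw [h0, h1]
  refine sum_le_sum_of_subset_of_nonneg ?_ ?_
  · intro S hS
    rw [mem_filter] at hS
    obtain ⟨s, hs, -, o, ho, h⟩ := hP S hS.1 hS.2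
    rw [mem_image]
    exact ⟨(o, s), by rw [mem_product]; exact ⟨ho, hs⟩, h⟩
  · intro S hS _
    rw [mem_image] at hS
    obtain ⟨q, hq, rfl⟩ := hS
    rw [mem_product] at hq
    exact hW0 _ (b.mem q.1 hq.1 q.2 (hJ hq.2))

/-- MARKOV: if `∑_J u X ≤ c` then `T c < X(S) K(J)` has probability at most `1 / T`. -/
theorem markov (hW0 : ∀ S ∈ Ω, 0 ≤ W S) {J : Finset γ} (hJ : J ⊆ b.I) {X : γ → ℝ} (hX : ∀ s ∈ J, 0 ≤ X s) {c : ℝ}
    (hc : ∑ s ∈ J, b.u s * X s ≤ c) {T : ℝ} (hT : 0 < T) (P : α → Prop) [DecidablePred P]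
    (hP : ∀ S ∈ Ω, P S → ∃ s ∈ J, b.In S s ∧ T * c < X s * b.K J) :
    T * ∑ S ∈ Ω with P S, W S ≤ ∑ S ∈ Ω, W S := by
  classical
  set I := J.filter fun s => T * c < X s * b.K J with hIdef
  have hIJ : I ⊆ J := filter_subset _ _
  have h1 : ∑ S ∈ Ω with P S, W S ≤ (∑ o ∈ b.O, b.a o) * b.K I := by
    refine b.filter_le hW0 (hIJ.trans hJ) P fun S hS hPS => ?_
    obtain ⟨s, hs, hin, hlt⟩ := hP S hS hPS
    exact ⟨s, mem_filter.2 ⟨hs, hlt⟩, hin⟩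
  have h2 : (∑ o ∈ b.O, b.a o) * b.K J ≤ ∑ S ∈ Ω, W S := b.glue_le hW0 hJ
  have ha : 0 ≤ ∑ o ∈ b.O, b.a o := sum_nonneg b.a0
  have hcs : ∀ s ∈ J, b.u s * X s ≤ c := fun s hs =>
    (single_le_sum (fun s hs => mul_nonneg (b.u0 s (hJ hs)).le (hX s hs)) hs).trans hc
  have h3 : T * b.K I ≤ b.K J := by
    by_cases hne : I.Nonempty
    · obtain ⟨s0, hs0⟩ := hne
      have hs0' := mem_filter.1 hs0
      have hc0 : 0 < c := by
        by_contra hn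
        have hc1 : c = 0 := le_antisymm (not_lt.1 hn)
          ((mul_nonneg (b.u0 s0 (hJ hs0'.1)).le (hX s0 hs0'.1)).trans (hcs s0 hs0'.1))
        have hX0 : X s0 = 0 := by
          have h := hcs s0 hs0'.1
          rw [hc1] at h
          have hu := b.u0 s0 (hJ hs0'.1)
          have h' : b.u s0 * X s0 = 0 := le_antisymm h (mul_nonneg hu.le (hX s0 hs0'.1))
          rcases mul_eq_zero.1 h' with h'' | h''
          · exact absurd h'' hu.ne'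
          · exact h''
        have h := hs0'.2
        rw [hc1, hX0] at h
        simp at h
      have h4 : ∑ s ∈ I, T * c * b.u s ≤ ∑ s ∈ I, b.u s * X s * b.K J := by
        refine sum_le_sum fun s hs => ?_
        have h5 := (mem_filter.1 hs).2
        have hu := b.u0 s (hJ (hIJ hs))
        have := mul_le_mul_of_nonneg_right h5.le hu.le
        linarith
      have h7 : ∑ s ∈ I, b.u s * X s * b.K J ≤ c * b.K J := by
        rw [← sum_mul]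
        refine mul_le_mul_of_nonneg_right ?_ (b.K0 hJ)
        exact (sum_le_sum_of_subset_of_nonneg hIJ fun s hs _ => mul_nonneg (b.u0 s (hJ hs)).le (hX s hs)).trans hc
      rw [← mul_sum] at h4
      have h8 : c * (T * b.K I) ≤ c * b.K J := by
        calc c * (T * b.K I) = T * c * ∑ s ∈ I, b.u s := by unfold K; ring
          _ ≤ _ := h4.trans h7
      exact le_of_mul_le_mul_left h8 hc0
    · rw [not_nonempty_iff_eq_empty] at hne
      rw [hne]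
      unfold K
      rw [sum_empty, mul_zero]
      exact b.K0 hJ
  calc T * ∑ S ∈ Ω with P S, W S ≤ T * ((∑ o ∈ b.O, b.a o) * b.K I) := mul_le_mul_of_nonneg_left h1 hT.le
    _ = (∑ o ∈ b.O, b.a o) * (T * b.K I) := by ring
    _ ≤ (∑ o ∈ b.O, b.a o) * b.K J := mul_le_mul_of_nonneg_left h3 ha
    _ ≤ _ := h2

/-- CHOICE: `T K(J) < K(I)` and inner part in `J`: probability at most `1 / T`. -/
theorem choice (hW0 : ∀ S ∈ Ω, 0 ≤ W S) {J J' : Finset γ} (hJ : J ⊆ b.I) (hJ' : J' ⊆ b.I) {T : ℝ} (hT : 0 < T)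
    (P : α → Prop) [DecidablePred P] (hP : ∀ S ∈ Ω, P S → (∃ s ∈ J, b.In S s) ∧ T * b.K J < b.K J') :
    T * ∑ S ∈ Ω with P S, W S ≤ ∑ S ∈ Ω, W S := by
  classical
  by_cases h : T * b.K J < b.K J'
  · have h1 : ∑ S ∈ Ω with P S, W S ≤ (∑ o ∈ b.O, b.a o) * b.K J :=
      b.filter_le hW0 hJ P fun S hS hPS => (hP S hS hPS).1
    have ha : 0 ≤ ∑ o ∈ b.O, b.a o := sum_nonneg b.a0
    calc T * ∑ S ∈ Ω with P S, W S ≤ T * ((∑ o ∈ b.O, b.a o) * b.K J) := mul_le_mul_of_nonneg_left h1 hT.le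
      _ = (∑ o ∈ b.O, b.a o) * (T * b.K J) := by ring
      _ ≤ (∑ o ∈ b.O, b.a o) * b.K J' := mul_le_mul_of_nonneg_left h.le ha
      _ ≤ _ := b.glue_le hW0 hJ'
  · have : Ω.filter P = ∅ := by
      rw [filter_eq_empty_iff]
      exact fun S hS hPS => h (hP S hS hPS).2
    rw [this, sum_empty, mul_zero]
    exact sum_nonneg hW0

end HB

lemma sum_union_le79 {α : Type*} [DecidableEq α] {Ω U V : Finset α} {f : α → ℝ} (hf : ∀ q ∈ Ω, 0 ≤ f q) (hU : U ⊆ Ω) :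
    ∑ q ∈ U ∪ V, f q ≤ ∑ q ∈ U, f q + ∑ q ∈ V, f q := by
  rw [← sum_union_inter]
  have : 0 ≤ ∑ q ∈ U ∩ V, f q := sum_nonneg fun q hq => hf q (hU (mem_inter.1 hq).1)
  linarith

/-- A union bound: finitely many events, each of weight at most `Z / T`. -/
lemma union_bound79 {α κ : Type*} (B : Finset κ) {Ω : Finset α} {f : α → ℝ} (hf : ∀ q ∈ Ω, 0 ≤ f q) {T Z : ℝ}
    (F : κ → α → Prop) (hF : ∀ k ∈ B, ∀ P : α → Prop, ∀ _ : DecidablePred P, (∀ q ∈ Ω, P q → F k q) →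
      T * ∑ q ∈ Ω with P q, f q ≤ Z) (hT : 0 < T) (P : α → Prop) [DecidablePred P] (hP : ∀ q ∈ Ω, P q → ∃ k ∈ B, F k q) :
    T * ∑ q ∈ Ω with P q, f q ≤ B.card * Z := by
  classical
  have h1 : ∑ q ∈ Ω with P q, f q ≤ ∑ k ∈ B, ∑ q ∈ Ω with F k q, f q := by
    have hcomm : ∑ k ∈ B, ∑ q ∈ Ω with F k q, f q = ∑ q ∈ Ω, ∑ k ∈ B, if F k q then f q else 0 := by
      rw [sum_comm]
      exact sum_congr rfl fun k _ => sum_filter _ _
    rw [hcomm, sum_filter]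
    refine sum_le_sum fun q hq => ?_
    have hn : ∀ k ∈ B, 0 ≤ if F k q then f q else 0 := fun k _ => by
      split_ifs
      · exact hf q hq
      · exact le_rfl
    split_ifs with hPq
    · obtain ⟨k, hk, hFk⟩ := hP q hq hPq
      have h := single_le_sum hn hk
      rw [if_pos hFk] at h
      exact h
    · exact sum_nonneg hn
  calc T * ∑ q ∈ Ω with P q, f q ≤ T * ∑ k ∈ B, ∑ q ∈ Ω with F k q, f q := mul_le_mul_of_nonneg_left h1 hT.le
    _ = ∑ k ∈ B, T * ∑ q ∈ Ω with F k q, f q := mul_sum _ _ _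
    _ ≤ ∑ k ∈ B, Z := sum_le_sum fun k hk => hF k hk (F k) _ fun q _ h => h
    _ = B.card * Z := by rw [sum_const, nsmul_eq_mul]

/-- **(TIE).** -/
theorem tie {κ : Type*} (B : Finset κ) {Ω : Finset α} {Ω' : Finset α'} {W : α → ℝ} {W' : α' → ℝ}
    (b : κ → HB Ω W β γ) (b' : κ → HB Ω' W' β' γ')
    (hW0 : ∀ S ∈ Ω, 0 ≤ W S) (hW0' : ∀ S ∈ Ω', 0 ≤ W' S) {T : ℝ} (hT : 0 < T)
    (L : κ → Finset γ) (R' : κ → Finset γ') (hL : ∀ k ∈ B, L k ⊆ (b k).I) (hR' : ∀ k ∈ B, R' k ⊆ (b' k).I)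
    (e : κ → γ → ℝ) (v : κ → γ' → ℝ) (e0 : ∀ k ∈ B, ∀ s ∈ (b k).I, 0 ≤ e k s) (v0 : ∀ k ∈ B, ∀ s ∈ (b' k).I, 0 ≤ v k s)
    (he : ∀ k ∈ B, ∑ s ∈ (b k).I, (b k).u s * e k s ≤ (b' k).K (b' k).I)
    (hv : ∀ k ∈ B, ∑ s ∈ (b' k).I, (b' k).u s * v k s ≤ (b k).K (b k).I)
    (P : α × α' → Prop) [DecidablePred P]
    (hP : ∀ q, P q → ∃ k ∈ B, ∃ s ∈ L k, ∃ s' ∈ R' k, (b k).In q.1 s ∧ (b' k).In q.2 s' ∧
      (T ^ 2 * (b' k).K (R' k) < e k s * (b k).K (L k) ∨ T ^ 2 * (b k).K (L k) < v k s' * (b' k).K (R' k))) :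
    T * ∑ q ∈ (Ω ×ˢ Ω') with P q, W q.1 * W' q.2 ≤ 4 * B.card * ((∑ S ∈ Ω, W S) * ∑ S ∈ Ω', W' S) := by
  classical
  set Z := ∑ S ∈ Ω, W S with hZ
  set Z' := ∑ S ∈ Ω', W' S with hZ'
  have hZ0 : 0 ≤ Z := sum_nonneg hW0
  have hZ0' : 0 ≤ Z' := sum_nonneg hW0'
  have hnn : ∀ q ∈ Ω ×ˢ Ω', 0 ≤ W q.1 * W' q.2 := by
    intro q hq
    rw [mem_product] at hq
    exact mul_nonneg (hW0 _ hq.1) (hW0' _ hq.2)
  -- the four events
  obtain ⟨P1, hP1⟩ : ∃ F : κ → α → Prop, ∀ k S, F k S ↔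
      ∃ s ∈ (b k).I, (b k).In S s ∧ T * (b' k).K (b' k).I < e k s * (b k).K (b k).I := ⟨_, fun _ _ => Iff.rfl⟩
  obtain ⟨P2, hP2⟩ : ∃ F : κ → α' → Prop, ∀ k S, F k S ↔
      ∃ s ∈ (b' k).I, (b' k).In S s ∧ T * (b k).K (b k).I < v k s * (b' k).K (b' k).I := ⟨_, fun _ _ => Iff.rfl⟩
  obtain ⟨P3, hP3⟩ : ∃ F : κ → α → Prop, ∀ k S, F k S ↔
      (∃ s ∈ L k, (b k).In S s) ∧ T * (b k).K (L k) < (b k).K (b k).I := ⟨_, fun _ _ => Iff.rfl⟩
  obtain ⟨P4, hP4⟩ : ∃ F : κ → α' → Prop, ∀ k S, F k S ↔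
      (∃ s ∈ R' k, (b' k).In S s) ∧ T * (b' k).K (R' k) < (b' k).K (b' k).I := ⟨_, fun _ _ => Iff.rfl⟩
  -- events of `S` alone, events of `S'` alone
  have hA : ∀ F : α → Prop, (T * ∑ S ∈ Ω with F S, W S ≤ Z) → ∀ P : α × α' → Prop, ∀ _ : DecidablePred P,
      (∀ q ∈ Ω ×ˢ Ω', P q → F q.1) → T * ∑ q ∈ (Ω ×ˢ Ω') with P q, W q.1 * W' q.2 ≤ Z * Z' := by
    intro F hF P _ hPF
    have h1 : ∑ q ∈ (Ω ×ˢ Ω') with P q, W q.1 * W' q.2 ≤ ∑ q ∈ (Ω.filter F) ×ˢ Ω', W q.1 * W' q.2 := by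
      refine sum_le_sum_of_subset_of_nonneg ?_ ?_
      · intro q hq
        rw [mem_filter] at hq
        have hq1 := hq.1
        rw [mem_product] at hq1
        rw [mem_product, mem_filter]
        exact ⟨⟨hq1.1, hPF q hq.1 hq.2⟩, hq1.2⟩
      · intro q hq _
        exact hnn q (product_subset_product_left (filter_subset _ _) hq)
    have h2 : ∑ q ∈ (Ω.filter F) ×ˢ Ω', W q.1 * W' q.2 = (∑ S ∈ Ω with F S, W S) * Z' := by
      rw [sum_product, ← sum_mul_sum]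
    calc T * ∑ q ∈ (Ω ×ˢ Ω') with P q, W q.1 * W' q.2 ≤ T * ((∑ S ∈ Ω with F S, W S) * Z') := by
          rw [← h2]
          exact mul_le_mul_of_nonneg_left h1 hT.le
      _ = (T * ∑ S ∈ Ω with F S, W S) * Z' := by ring
      _ ≤ Z * Z' := mul_le_mul_of_nonneg_right hF hZ0'
  have hB : ∀ F : α' → Prop, (T * ∑ S ∈ Ω' with F S, W' S ≤ Z') → ∀ P : α × α' → Prop, ∀ _ : DecidablePred P,
      (∀ q ∈ Ω ×ˢ Ω', P q → F q.2) → T * ∑ q ∈ (Ω ×ˢ Ω') with P q, W q.1 * W' q.2 ≤ Z * Z' := by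
    intro F hF P _ hPF
    have h1 : ∑ q ∈ (Ω ×ˢ Ω') with P q, W q.1 * W' q.2 ≤ ∑ q ∈ Ω ×ˢ (Ω'.filter F), W q.1 * W' q.2 := by
      refine sum_le_sum_of_subset_of_nonneg ?_ ?_
      · intro q hq
        rw [mem_filter] at hq
        have hq1 := hq.1
        rw [mem_product] at hq1
        rw [mem_product, mem_filter]
        exact ⟨hq1.1, hq1.2, hPF q hq.1 hq.2⟩
      · intro q hq _
        exact hnn q (product_subset_product_right (filter_subset _ _) hq)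
    have h2 : ∑ q ∈ Ω ×ˢ (Ω'.filter F), W q.1 * W' q.2 = Z * ∑ S ∈ Ω' with F S, W' S := by
      rw [sum_product, ← sum_mul_sum]
    calc T * ∑ q ∈ (Ω ×ˢ Ω') with P q, W q.1 * W' q.2 ≤ T * (Z * ∑ S ∈ Ω' with F S, W' S) := by
          rw [← h2]
          exact mul_le_mul_of_nonneg_left h1 hT.le
      _ = Z * (T * ∑ S ∈ Ω' with F S, W' S) := by ring
      _ ≤ Z * Z' := mul_le_mul_of_nonneg_left hF hZ0
  -- one bracket
  have key : ∀ k ∈ B, ∀ P : α × α' → Prop, ∀ _ : DecidablePred P,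
      (∀ q ∈ Ω ×ˢ Ω', P q → (P1 k q.1 ∨ P2 k q.2) ∨ P3 k q.1 ∨ P4 k q.2) →
      T * ∑ q ∈ (Ω ×ˢ Ω') with P q, W q.1 * W' q.2 ≤ 4 * (Z * Z') := by
    intro k hk P _ hPk
    have g1 := hA (P1 k) ((b k).markov hW0 subset_rfl (fun s hs => e0 k hk s hs) (he k hk) hT (P1 k)
      fun S _ h => (hP1 k S).1 h) (fun q => P1 k q.1) (fun _ => Classical.propDecidable _) fun q _ h => h
    have g2 := hB (P2 k) ((b' k).markov hW0' subset_rfl (fun s hs => v0 k hk s hs) (hv k hk) hT (P2 k)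
      fun S _ h => (hP2 k S).1 h) (fun q => P2 k q.2) (fun _ => Classical.propDecidable _) fun q _ h => h
    have g3 := hA (P3 k) ((b k).choice hW0 (hL k hk) subset_rfl hT (P3 k) fun S _ h => (hP3 k S).1 h)
      (fun q => P3 k q.1) (fun _ => Classical.propDecidable _) fun q _ h => h
    have g4 := hB (P4 k) ((b' k).choice hW0' (hR' k hk) subset_rfl hT (P4 k) fun S _ h => (hP4 k S).1 h)
      (fun q => P4 k q.2) (fun _ => Classical.propDecidable _) fun q _ h => h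
    have hsub : (Ω ×ˢ Ω').filter P ⊆ ((Ω ×ˢ Ω').filter (fun q => P1 k q.1) ∪ (Ω ×ˢ Ω').filter (fun q => P2 k q.2)) ∪
        ((Ω ×ˢ Ω').filter (fun q => P3 k q.1) ∪ (Ω ×ˢ Ω').filter (fun q => P4 k q.2)) := by
      intro q hq
      rw [mem_filter] at hq
      simp only [mem_union, mem_filter]
      rcases hPk q hq.1 hq.2 with (h | h) | h | h
      · exact Or.inl (Or.inl ⟨hq.1, h⟩)
      · exact Or.inl (Or.inr ⟨hq.1, h⟩)
      · exact Or.inr (Or.inl ⟨hq.1, h⟩)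
      · exact Or.inr (Or.inr ⟨hq.1, h⟩)
    have hle : ∑ q ∈ (Ω ×ˢ Ω') with P q, W q.1 * W' q.2 ≤
        (∑ q ∈ (Ω ×ˢ Ω') with P1 k q.1, W q.1 * W' q.2 + ∑ q ∈ (Ω ×ˢ Ω') with P2 k q.2, W q.1 * W' q.2) +
        (∑ q ∈ (Ω ×ˢ Ω') with P3 k q.1, W q.1 * W' q.2 + ∑ q ∈ (Ω ×ˢ Ω') with P4 k q.2, W q.1 * W' q.2) := by
      have hs1 : (Ω ×ˢ Ω').filter (fun q => P1 k q.1) ∪ (Ω ×ˢ Ω').filter (fun q => P2 k q.2) ⊆ Ω ×ˢ Ω' :=
        union_subset (filter_subset _ _) (filter_subset _ _)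
      have hs2 : (Ω ×ˢ Ω').filter (fun q => P3 k q.1) ∪ (Ω ×ˢ Ω').filter (fun q => P4 k q.2) ⊆ Ω ×ˢ Ω' :=
        union_subset (filter_subset _ _) (filter_subset _ _)
      refine (sum_le_sum_of_subset_of_nonneg hsub fun q hq _ => hnn q (union_subset hs1 hs2 hq)).trans ?_
      refine (sum_union_le79 hnn hs1).trans ?_
      exact add_le_add (sum_union_le79 hnn (filter_subset _ _)) (sum_union_le79 hnn (filter_subset _ _))
    have := mul_le_mul_of_nonneg_left hle hT.le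
    linarith
  have hfin := union_bound79 B hnn (T := T) (Z := 4 * (Z * Z'))
    (fun k q => (P1 k q.1 ∨ P2 k q.2) ∨ P3 k q.1 ∨ P4 k q.2) (fun k hk P hd h => key k hk P hd h) hT P ?_
  · calc T * ∑ q ∈ (Ω ×ˢ Ω') with P q, W q.1 * W' q.2 ≤ B.card * (4 * (Z * Z')) := hfin
      _ = 4 * B.card * (Z * Z') := by ring
  · intro q _ hPq
    obtain ⟨k, hk, s, hs, s', hs', hin, hin', hlt⟩ := hP q hPq
    refine ⟨k, hk, ?_⟩
    by_contra hn
    rw [not_or, not_or, not_or] at hn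
    obtain ⟨⟨n1, n2⟩, n3, n4⟩ := hn
    have a1 : e k s * (b k).K (b k).I ≤ T * (b' k).K (b' k).I := by
      by_contra h
      exact n1 ((hP1 _ _).2 ⟨s, hL k hk hs, hin, not_le.1 h⟩)
    have a2 : v k s' * (b' k).K (b' k).I ≤ T * (b k).K (b k).I := by
      by_contra h
      exact n2 ((hP2 _ _).2 ⟨s', hR' k hk hs', hin', not_le.1 h⟩)
    have a3 : (b k).K (b k).I ≤ T * (b k).K (L k) := by
      by_contra h
      exact n3 ((hP3 _ _).2 ⟨⟨s, hs, hin⟩, not_le.1 h⟩)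
    have a4 : (b' k).K (b' k).I ≤ T * (b' k).K (R' k) := by
      by_contra h
      exact n4 ((hP4 _ _).2 ⟨⟨s', hs', hin'⟩, not_le.1 h⟩)
    rcases hlt with h | h
    · have : e k s * (b k).K (L k) ≤ T ^ 2 * (b' k).K (R' k) := by
        calc e k s * (b k).K (L k) ≤ e k s * (b k).K (b k).I :=
              mul_le_mul_of_nonneg_left ((b k).K_mono (hL k hk) subset_rfl) (e0 k hk s (hL k hk hs))
          _ ≤ T * (b' k).K (b' k).I := a1
          _ ≤ T * (T * (b' k).K (R' k)) := mul_le_mul_of_nonneg_left a4 hT.le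
          _ = T ^ 2 * (b' k).K (R' k) := by ring
      exact absurd h (not_lt.2 this)
    · have : v k s' * (b' k).K (R' k) ≤ T ^ 2 * (b k).K (L k) := by
        calc v k s' * (b' k).K (R' k) ≤ v k s' * (b' k).K (b' k).I :=
              mul_le_mul_of_nonneg_left ((b' k).K_mono (hR' k hk) subset_rfl) (v0 k hk s' (hR' k hk hs'))
          _ ≤ T * (b k).K (b k).I := a2
          _ ≤ T * (T * (b k).K (L k)) := mul_le_mul_of_nonneg_left a3 hT.le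
          _ = T ^ 2 * (b k).K (L k) := by ring
      exact absurd h (not_lt.2 this)

end

end Pool.Agent.W_7d29a1_Z79
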