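import Pool.Agent.W_7d29a1_Z79.Path79

/-!
# STORM Z, (TIE) at the level of paths

`Om N x0 d E`: the paths of length `N` from `(0, x0)` whose end point (frame position) satisfies `E`. `hb`: the half bracket of the paths
through `(i1, x1)`, `(i2, x2)`. `tieP`: the Markov depth for two independent paths `S` (jumps `d`, environment `η`) and `S'`
(jumps `d'`, environment `η'`). (helper79)
-/

set_option autoImplicit false

namespace Pool.Agent.W_7d29a1_Z79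

open Finset

noncomputable section

/-- The paths of length `N` from `(0, x0)` with the end condition `E`. -/
def Om (N : ℕ) (x0 : ℤ) (d : ℕ → ℤ) (E : ℤ → Prop) [DecidablePred E] : Finset (Finset ℕ) :=
  (Ico 0 N).powerset.filter fun S => E (ps d x0 0 S N)

variable {h c : ℝ} {d : ℕ → ℤ} {η : ℤ × ℤ → ℝ} {N : ℕ} {x0 : ℤ} {E : ℤ → Prop} [DecidablePred E]

theorem mem_Om {S : Finset ℕ} : S ∈ Om N x0 d E ↔ S ⊆ Ico 0 N ∧ E (ps d x0 0 S N) := by
  unfold Om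
  rw [mem_filter, mem_powerset]

theorem out_inter {i1 i2 N a b : ℕ} {o s : Finset ℕ} (_ho : o ⊆ Ico 0 i1 ∪ Ico i2 N) (hs : s ⊆ Ico i1 i2)
    (hab : b ≤ i1 ∨ i2 ≤ a) : (o ∪ s) ∩ Ico a b = o ∩ Ico a b := by
  ext t
  simp only [mem_inter, mem_union, mem_Ico]
  constructor
  · rintro ⟨h | h, h'⟩
    · exact ⟨h, h'⟩
    · have := hs h
      rw [mem_Ico] at this
      omega
  · rintro ⟨h, h'⟩
    exact ⟨Or.inl h, h'⟩

theorem in_inter {i1 i2 N a b : ℕ} {o s : Finset ℕ} (ho : o ⊆ Ico 0 i1 ∪ Ico i2 N) (_hs : s ⊆ Ico i1 i2)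
    (ha : i1 ≤ a) (hb : b ≤ i2) : (o ∪ s) ∩ Ico a b = s ∩ Ico a b := by
  ext t
  simp only [mem_inter, mem_union, mem_Ico]
  constructor
  · rintro ⟨h | h, h'⟩
    · have := ho h
      rw [mem_union, mem_Ico, mem_Ico] at this
      omega
    · exact ⟨h, h'⟩
  · rintro ⟨h, h'⟩
    exact ⟨Or.inr h, h'⟩

/-- The half bracket of the paths through `(i1, x1)` and `(i2, x2)`. -/
def hb (h c : ℝ) (d : ℕ → ℤ) (η : ℤ × ℤ → ℝ) (N : ℕ) (x0 : ℤ) (E : ℤ → Prop) [DecidablePred E] (i1 i2 : ℕ) (x1 x2 : ℤ)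
    (h12 : i1 ≤ i2) (h2N : i2 ≤ N) :
    HB (Om N x0 d E) (fun S => wt h c d η 0 x0 N S) (Finset ℕ) (Finset ℕ) where
  O := (Ico 0 i1 ∪ Ico i2 N).powerset.filter fun o => ps d x0 0 o i1 = x1 ∧ E (ps d x2 i2 o N)
  I := (Ico i1 i2).powerset.filter fun s => ps d x1 i1 s i2 = x2
  gl o s := o ∪ s
  a o := wt h c d η 0 x0 i1 o * wt h c d η i2 x2 N o
  u s := wt h c d η i1 x1 i2 s
  a0 _ _ := (mul_pos (wt_pos _ _ _ _) (wt_pos _ _ _ _)).le
  u0 _ _ := wt_pos _ _ _ _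
  mem o ho s hs := by
    rw [mem_filter, mem_powerset] at ho hs
    rw [mem_Om]
    refine ⟨union_subset (ho.1.trans (union_subset ?_ ?_)) (hs.1.trans ?_), ?_⟩
    · exact Ico_subset_Ico le_rfl (h12.trans h2N)
    · exact Ico_subset_Ico (Nat.zero_le _) le_rfl
    · exact Ico_subset_Ico (Nat.zero_le _) h2N
    · have e1 : ps d x0 0 (o ∪ s) i1 = x1 := by
        rw [ps_congr (out_inter ho.1 hs.1 (Or.inl le_rfl)), ho.2.1]
      have e2 : ps d x0 0 (o ∪ s) i2 = x2 := by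
        rw [ps_split (Nat.zero_le i1) h12, e1, ps_congr (in_inter ho.1 hs.1 le_rfl le_rfl), hs.2]
      rw [ps_split (Nat.zero_le i2) h2N, e2, ps_congr (out_inter ho.1 hs.1 (Or.inr le_rfl))]
      exact ho.2.2
  inj o ho o' ho' s hs s' hs' hos := by
    rw [mem_filter, mem_powerset] at ho hs ho' hs'
    have e1 : s = s' := by
      have h1 := in_inter (a := i1) (b := i2) ho.1 hs.1 le_rfl le_rfl
      have h2 := in_inter (a := i1) (b := i2) ho'.1 hs'.1 le_rfl le_rfl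
      rw [inter_eq_left.2 hs.1] at h1
      rw [inter_eq_left.2 hs'.1] at h2
      rw [← h1, ← h2, hos]
    refine ⟨?_, e1⟩
    have key : ∀ o s : Finset ℕ, o ⊆ Ico 0 i1 ∪ Ico i2 N → s ⊆ Ico i1 i2 → (o ∪ s) \ Ico i1 i2 = o := by
      intro o s ho hs
      ext t
      simp only [mem_sdiff, mem_union, mem_Ico]
      constructor
      · rintro ⟨h | h, h'⟩
        · exact h
        · have := hs h
          rw [mem_Ico] at this
          exact absurd this h'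
      · intro h
        have := ho h
        rw [mem_union, mem_Ico, mem_Ico] at this
        exact ⟨Or.inl h, by omega⟩
    rw [← key o s ho.1 hs.1, hos, key o' s' ho'.1 hs'.1]
  hW o ho s hs := by
    rw [mem_filter, mem_powerset] at ho hs
    have e1 : ps d x0 0 (o ∪ s) i1 = x1 := by
      rw [ps_congr (out_inter ho.1 hs.1 (Or.inl le_rfl)), ho.2.1]
    have e2 : ps d x1 i1 (o ∪ s) i2 = x2 := by
      rw [ps_congr (in_inter ho.1 hs.1 le_rfl le_rfl), hs.2]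
    show wt h c d η 0 x0 N (o ∪ s) = wt h c d η 0 x0 i1 o * wt h c d η i2 x2 N o * wt h c d η i1 x1 i2 s
    rw [wt_split (Nat.zero_le i1) (h12.trans h2N), e1, wt_split h12 h2N, e2,
      wt_congr (out_inter ho.1 hs.1 (Or.inl le_rfl)), wt_congr (in_inter ho.1 hs.1 le_rfl le_rfl),
      wt_congr (out_inter ho.1 hs.1 (Or.inr le_rfl))]
    ring

theorem hb_in {i1 i2 : ℕ} {x1 x2 : ℤ} (h12 : i1 ≤ i2) (h2N : i2 ≤ N) {S : Finset ℕ} (hS : S ∈ Om N x0 d E)
    (e1 : ps d x0 0 S i1 = x1) (e2 : ps d x0 0 S i2 = x2) :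
    (hb h c d η N x0 E i1 i2 x1 x2 h12 h2N).In S (S ∩ Ico i1 i2) := by
  rw [mem_Om] at hS
  have hs : S ∩ Ico i1 i2 ∈ (Ico i1 i2).powerset.filter fun s => ps d x1 i1 s i2 = x2 := by
    rw [mem_filter, mem_powerset]
    refine ⟨inter_subset_right, ?_⟩
    rw [ps_congr (s' := S) (by rw [inter_assoc, inter_self]), ← e1, ← ps_split (Nat.zero_le _) h12, e2]
  refine ⟨hs, S \ Ico i1 i2, ?_, ?_⟩
  · show S \ Ico i1 i2 ∈ (Ico 0 i1 ∪ Ico i2 N).powerset.filter fun o => ps d x0 0 o i1 = x1 ∧ E (ps d x2 i2 o N)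
    rw [mem_filter, mem_powerset]
    refine ⟨?_, ?_, ?_⟩
    · intro t ht
      rw [mem_sdiff, mem_Ico] at ht
      have := hS.1 ht.1
      rw [mem_Ico] at this
      rw [mem_union, mem_Ico, mem_Ico]
      omega
    · rw [ps_congr (s' := S), e1]
      ext t
      simp only [mem_inter, mem_sdiff, mem_Ico]
      constructor
      · rintro ⟨⟨h, -⟩, h'⟩
        exact ⟨h, h'⟩
      · rintro ⟨h, h'⟩
        exact ⟨⟨h, by omega⟩, h'⟩
    · rw [ps_congr (s' := S), ← e2, ← ps_split (Nat.zero_le _) h2N]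
      · exact hS.2
      · ext t
        simp only [mem_inter, mem_sdiff, mem_Ico]
        constructor
        · rintro ⟨⟨h, -⟩, h'⟩
          exact ⟨h, h'⟩
        · rintro ⟨h, h'⟩
          exact ⟨⟨h, by omega⟩, h'⟩
  · show S \ Ico i1 i2 ∪ S ∩ Ico i1 i2 = S
    exact sdiff_union_inter S _

/-- The partition function of the paths. -/
def Zt (h c : ℝ) (d : ℕ → ℤ) (η : ℤ × ℤ → ℝ) (N : ℕ) (x0 : ℤ) (E : ℤ → Prop) [DecidablePred E] : ℝ :=
  ∑ S ∈ Om N x0 d E, wt h c d η 0 x0 N S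

/-- `exp X` of the path `S` along the grid `g 0 ≤ g 1 ≤ .. ≤ g n`: product of the kernel ratios `(d', η') / (d, η)` at the positions of `S`
(jumps `d`, start `(i, x)`). -/
def rat (h c : ℝ) (d : ℕ → ℤ) (η : ℤ × ℤ → ℝ) (d' : ℕ → ℤ) (η' : ℤ × ℤ → ℝ) (g : ℕ → ℕ) (n : ℕ) (i : ℕ) (x : ℤ)
    (S : Finset ℕ) : ℝ :=
  ∏ j ∈ range n, Kn h c d' η' (g j) (ps d x i S (g j)) (g (j + 1)) (ps d x i S (g (j + 1))) /
    Kn h c d η (g j) (ps d x i S (g j)) (g (j + 1)) (ps d x i S (g (j + 1)))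

theorem rat_nonneg {d' : ℕ → ℤ} {η' : ℤ × ℤ → ℝ} (g : ℕ → ℕ) (n i : ℕ) (x : ℤ) (S : Finset ℕ) :
    0 ≤ rat h c d η d' η' g n i x S :=
  prod_nonneg fun _ _ => div_nonneg (Kn_nonneg _ _ _ _) (Kn_nonneg _ _ _ _)

theorem rat_sum_le {d' : ℕ → ℤ} {η' : ℤ × ℤ → ℝ} {g : ℕ → ℕ} (hg : Monotone g) (n : ℕ) (x1 x2 : ℤ) :
    ∑ s ∈ (Ico (g 0) (g n)).powerset with ps d x1 (g 0) s (g n) = x2,
      wt h c d η (g 0) x1 (g n) s * rat h c d η d' η' g n (g 0) x1 s ≤ Kn h c d' η' (g 0) x1 (g n) x2 := by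
  classical
  have key := skel_le (h := h) (c := c) (d := d) (d' := d') (η := η) (η' := η') hg x1 n
    (fun p => if p n = x2 then 1 else 0) (fun p => by split_ifs <;> norm_num)
    (fun p q hpq => by rw [hpq n le_rfl])
  unfold Kn
  rw [sum_filter, sum_filter]
  refine le_trans (le_of_eq ?_) (key.trans (le_of_eq ?_))
  · refine sum_congr rfl fun s _ => ?_
    unfold rat
    show (if ps d x1 (g 0) s (g n) = x2 then _ else (0 : ℝ)) = _ * (if ps d x1 (g 0) s (g n) = x2 then (1 : ℝ) else 0)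
    split_ifs
    · rw [mul_one]
    · rw [mul_zero]
  · refine sum_congr rfl fun s _ => ?_
    show _ * (if ps d' x1 (g 0) s (g n) = x2 then (1 : ℝ) else 0) = if ps d' x1 (g 0) s (g n) = x2 then _ else (0 : ℝ)
    split_ifs
    · rw [mul_one]
    · rw [mul_zero]

/-- **(TIE) at the level of paths.** Brackets `k ∈ B`: points `(i1 k, x1 k)`, `(i2 k, x2 k)` (frame positions), grid `g k 0 = i1 k`, ..,
`g k (n k) = i2 k`, conditions `CL k` (for `S`) and `CR k` (for `S'`) on the pieces. -/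
theorem tieP {κ : Type*} (B : Finset κ) (h c : ℝ) (d d' : ℕ → ℤ) (η η' : ℤ × ℤ → ℝ) (N : ℕ) (x0 x0' : ℤ)
    (E E' : ℤ → Prop) [DecidablePred E] [DecidablePred E']
    (x1 x2 : κ → ℤ) (g : κ → ℕ → ℕ) (n : κ → ℕ) (hg : ∀ k, Monotone (g k)) (hN : ∀ k, g k (n k) ≤ N)
    (CL CR : κ → Finset ℕ → Prop) [∀ k, DecidablePred (CL k)] [∀ k, DecidablePred (CR k)]
    {T : ℝ} (hT : 0 < T) (P : Finset ℕ × Finset ℕ → Prop) [DecidablePred P]
    (hP : ∀ q ∈ Om N x0 d E ×ˢ Om N x0' d' E', P q → ∃ k ∈ B,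
      (ps d x0 0 q.1 (g k 0) = x1 k ∧ ps d x0 0 q.1 (g k (n k)) = x2 k ∧ CL k (q.1 ∩ Ico (g k 0) (g k (n k)))) ∧
      (ps d' x0' 0 q.2 (g k 0) = x1 k ∧ ps d' x0' 0 q.2 (g k (n k)) = x2 k ∧ CR k (q.2 ∩ Ico (g k 0) (g k (n k)))) ∧
      (T ^ 2 * KC h c d' η' (CR k) (g k 0) (x1 k) (g k (n k)) (x2 k) <
          rat h c d η d' η' (g k) (n k) 0 x0 q.1 * KC h c d η (CL k) (g k 0) (x1 k) (g k (n k)) (x2 k) ∨
        T ^ 2 * KC h c d η (CL k) (g k 0) (x1 k) (g k (n k)) (x2 k) <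
          rat h c d' η' d η (g k) (n k) 0 x0' q.2 * KC h c d' η' (CR k) (g k 0) (x1 k) (g k (n k)) (x2 k))) :
    T * ∑ q ∈ (Om N x0 d E ×ˢ Om N x0' d' E') with P q, wt h c d η 0 x0 N q.1 * wt h c d' η' 0 x0' N q.2 ≤
      4 * B.card * (Zt h c d η N x0 E * Zt h c d' η' N x0' E') := by
  classical
  have hgn : ∀ k, g k 0 ≤ g k (n k) := fun k => hg k (Nat.zero_le _)
  -- the rational factor in terms of the inner part
  have hrat : ∀ (k : κ) (a b : ℕ → ℤ) (α β : ℤ × ℤ → ℝ) (y0 : ℤ) (S : Finset ℕ), ps a y0 0 S (g k 0) = x1 k →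
      rat h c a α b β (g k) (n k) (g k 0) (x1 k) (S ∩ Ico (g k 0) (g k (n k))) = rat h c a α b β (g k) (n k) 0 y0 S := by
    intro k a b α β y0 S h1
    unfold rat
    have hp : ∀ j ≤ n k, ps a (x1 k) (g k 0) (S ∩ Ico (g k 0) (g k (n k))) (g k j) = ps a y0 0 S (g k j) := by
      intro j hj
      rw [ps_split (Nat.zero_le (g k 0)) (hg k (Nat.zero_le j)), h1]
      refine ps_congr ?_
      rw [inter_assoc, inter_eq_right.2 (Ico_subset_Ico le_rfl (hg k hj))]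
    refine prod_congr rfl fun j hj => ?_
    rw [mem_range] at hj
    rw [hp j (by omega), hp (j + 1) (by omega)]
  set Pr : Finset ℕ × Finset ℕ → Prop := fun q => P q ∧ q ∈ Om N x0 d E ×ˢ Om N x0' d' E' with hPr
  have hset : (Om N x0 d E ×ˢ Om N x0' d' E').filter P = (Om N x0 d E ×ˢ Om N x0' d' E').filter Pr := by
    ext q
    rw [mem_filter, mem_filter]
    exact ⟨fun hq => ⟨hq.1, hq.2, hq.1⟩, fun hq => ⟨hq.1, hq.2.1⟩⟩
  rw [hset]
  refine tie B (fun k => hb h c d η N x0 E (g k 0) (g k (n k)) (x1 k) (x2 k) (hgn k) (hN k))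
    (fun k => hb h c d' η' N x0' E' (g k 0) (g k (n k)) (x1 k) (x2 k) (hgn k) (hN k))
    (fun S _ => (wt_pos _ _ _ _).le) (fun S _ => (wt_pos _ _ _ _).le) hT
    (fun k => (Ico (g k 0) (g k (n k))).powerset.filter fun s => ps d (x1 k) (g k 0) s (g k (n k)) = x2 k ∧ CL k s)
    (fun k => (Ico (g k 0) (g k (n k))).powerset.filter fun s => ps d' (x1 k) (g k 0) s (g k (n k)) = x2 k ∧ CR k s)
    (fun k _ => ?_) (fun k _ => ?_)
    (fun k s => rat h c d η d' η' (g k) (n k) (g k 0) (x1 k) s)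
    (fun k s => rat h c d' η' d η (g k) (n k) (g k 0) (x1 k) s)
    (fun k _ s _ => rat_nonneg _ _ _ _ _) (fun k _ s _ => rat_nonneg _ _ _ _ _) (fun k _ => ?_) (fun k _ => ?_) Pr ?_
  · intro s hs
    rw [mem_filter] at hs
    exact mem_filter.2 ⟨hs.1, hs.2.1⟩
  · intro s hs
    rw [mem_filter] at hs
    exact mem_filter.2 ⟨hs.1, hs.2.1⟩
  · exact rat_sum_le (hg k) (n k) (x1 k) (x2 k)
  · exact rat_sum_le (hg k) (n k) (x1 k) (x2 k)
  · intro q hq
    obtain ⟨hPq, hmem⟩ := hq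
    have hm := hmem
    rw [mem_product] at hm
    obtain ⟨k, hk, ⟨a1, a2, a3⟩, ⟨b1, b2, b3⟩, hlt⟩ := hP q hmem hPq
    have in1 := hb_in (h := h) (c := c) (η := η) (hgn k) (hN k) hm.1 a1 a2
    have in2 := hb_in (h := h) (c := c) (η := η') (hgn k) (hN k) hm.2 b1 b2
    refine ⟨k, hk, q.1 ∩ Ico (g k 0) (g k (n k)), ?_, q.2 ∩ Ico (g k 0) (g k (n k)), ?_, in1, in2, ?_⟩
    · have := in1.1
      rw [mem_filter]
      exact ⟨(mem_filter.1 this).1, (mem_filter.1 this).2, a3⟩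
    · have := in2.1
      rw [mem_filter]
      exact ⟨(mem_filter.1 this).1, (mem_filter.1 this).2, b3⟩
    · show T ^ 2 * KC h c d' η' (CR k) (g k 0) (x1 k) (g k (n k)) (x2 k) <
          rat h c d η d' η' (g k) (n k) (g k 0) (x1 k) (q.1 ∩ Ico (g k 0) (g k (n k))) *
            KC h c d η (CL k) (g k 0) (x1 k) (g k (n k)) (x2 k) ∨
        T ^ 2 * KC h c d η (CL k) (g k 0) (x1 k) (g k (n k)) (x2 k) <
          rat h c d' η' d η (g k) (n k) (g k 0) (x1 k) (q.2 ∩ Ico (g k 0) (g k (n k))) *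
            KC h c d' η' (CR k) (g k 0) (x1 k) (g k (n k)) (x2 k)
      rw [hrat k d d' η η' x0 q.1 a1, hrat k d' d η' η x0' q.2 b1]
      exact hlt

end

end Pool.Agent.W_7d29a1_Z79
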